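import Pool.Agent.Helper83.Ball.Types

/-!
Abelian varieties of ball type with non-commutative endomorphism algebra.
-/

namespace Pool.Agent.GPC

/-- The embeddings `σ`, `τ` of `K` agree on the elements of `K` which are in the centre of
`End(A) ⊗ ℚ`. -/
def AbVar.AgreeCen (A : AbVar) {K : Type} [Field K] (ρ : K → A.H1 → A.H1) (σ τ : K →+* ℂ) : Prop :=
  ∀ x, (∀ f, A.IsEnd f → ∀ v, f (ρ x v) = ρ x (f v)) → σ x = τ x

/-- `End(A) ⊗ ℚ` has no anti-automorphism which is the identity on the centre. -/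
def AbVar.NoAnti (A : AbVar) : Prop :=
  ¬ ∃ θ : (A.H1 → A.H1) → (A.H1 → A.H1), (∀ f, A.IsEnd f → A.IsEnd (θ f)) ∧
    (∀ f h, A.IsEnd f → A.IsEnd h → θ (f ∘ h) = θ h ∘ θ f ∧ θ (f + h) = θ f + θ h) ∧
    ∀ f, A.IsEnd f → (∀ h, A.IsEnd h → ∀ v, f (h v) = h (f v)) → θ f = f

/-- The CM field `K` acts on `H_1(A)` by `ρ` through endomorphisms of `A` (tensor `ℚ`), the
dimension of `H_1(A, ℚ)` over `K` is `n`, the Rosati involution is complex conjugation on `K`, and
every endomorphism of `A` (tensor `ℚ`) which commutes with `K` is in `K`. For some embedding `σ₀` the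
multiplicities in `Lie A` of `σ` and of its complex conjugate are `1` and `n - 1` (in this order or
in the other one, the same for all `σ`), for all embeddings `σ` of `K` which agree with `σ₀` on the
centre of `End(A) ⊗ ℚ`. The embedding `σ₀` is separated from every embedding `σ` which does not
agree on the centre with `σ₀` or its complex conjugate: for some automorphism `g` of `ℂ` the
multiplicity of `g σ₀` in `Lie A` is neither `0` nor `n`, and the multiplicity of `g σ` is `0` or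
`n`. -/
structure AbVar.IsMultCen (A : AbVar) (K : Type) [Field K] [NumberField K]
    [NumberField.IsCMField K] (n : ℕ) (ρ : K → A.H1 → A.H1) : Prop where
  one : ∀ v, ρ 1 v = v
  mul : ∀ x y v, ρ (x * y) v = ρ x (ρ y v)
  add : ∀ x y v, ρ (x + y) v = ρ x v + ρ y v
  rank : n * Module.finrank ℚ K = 2 * A.g
  endo : ∀ x, A.IsEnd (ρ x)
  rosati : ∀ x, A.IsAdjoint (ρ x) (ρ (cmConj K x))
  centralizer : ∀ f, A.IsEnd f → (∀ x v, f (ρ x v) = ρ x (f v)) → ∃ x, ∀ v, f v = ρ x v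
  signature : ∃ σ₀ : K →+* ℂ,
    (∀ σ : K →+* ℂ, A.AgreeCen ρ σ σ₀ → Module.finrank ℂ (A.eigenFil ρ σ) = 1) ∧
    ∀ σ : K →+* ℂ, ¬ A.AgreeCen ρ σ σ₀ →
      ¬ A.AgreeCen ρ σ (NumberField.ComplexEmbedding.conjugate σ₀) →
      ∃ g : ℂ ≃+* ℂ, ¬ A.IsPureAt ρ ((g : ℂ →+* ℂ).comp σ₀) ∧
        A.IsPureAt ρ ((g : ℂ →+* ℂ).comp σ)

/-- A CM field `K` acts as in `IsMultCen`, `n ≥ 3`, and `End(A) ⊗ ℚ` has no anti-automorphism which
is the identity on the centre. Moreover `k < d` for `d = n` (`n` odd), `d = n / 2` (`n` even), or the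
centre is an imaginary quadratic field `ℚ(J)`, `J^2 = -d'`. -/
def AbVar.IsKottwitzRange (A : AbVar) (k : ℕ) : Prop :=
  ∃ (K : Type) (_ : Field K) (_ : NumberField K) (_ : NumberField.IsCMField K) (n : ℕ)
    (ρ : K → A.H1 → A.H1), A.IsMultCen K n ρ ∧ 3 ≤ n ∧ A.NoAnti ∧
      (2 * k < (if Even n then n else 2 * n) ∨
        ∃ (d : ℚ) (J : A.H1 → A.H1), 0 < d ∧ A.IsEnd J ∧ (∀ v, J (J v) = (-(d : ℂ)) • v) ∧
          (∀ f, A.IsEnd f → ∀ v, f (J v) = J (f v)) ∧
          ∀ f, A.IsEnd f → (∀ h, A.IsEnd h → ∀ v, f (h v) = h (f v)) →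
            ∃ a b : ℚ, ∀ v, f v = (a : ℂ) • v + (b : ℂ) • J v)

end Pool.Agent.GPC
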