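import Pool.Agent.KT2.Types

/-!
Abelian varieties of ball type with non-commutative endomorphism algebra: the complementary degrees.
-/

namespace Pool.Agent.GPC

/-- A CM field `K` acts as in `IsMultCen`, `n ≥ 3`, and `End(A) ⊗ ℚ` has no anti-automorphism which
is the identity on the centre. Moreover `k > m * dim A - d` for `d = n` (`n` odd), `d = n / 2` (`n`
even). -/
def AbVar.IsKottwitzDual (A : AbVar) (m k : ℕ) : Prop :=
  ∃ (K : Type) (_ : Field K) (_ : NumberField K) (_ : NumberField.IsCMField K) (n : ℕ)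
    (ρ : K → A.H1 → A.H1), A.IsMultCen K n ρ ∧ 3 ≤ n ∧ A.NoAnti ∧
      m * (2 * A.g) < 2 * k + (if Even n then n else 2 * n)

end Pool.Agent.GPC
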