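import Pool.Agent.KT2.St
import Pool.Agent.KT2.Types2

/-!
# KT2: the dual range (optional second layer)

The statements of `St.lean` are not changed; these are the additions for alternating forms in the
complementary degrees.
-/

set_option autoImplicit false

namespace KT2

open Module Matrix NumberField Pool.Agent.Helper7
open Pool.Agent.GPC (AbVar Form IsGrothendieck IsDivisorial)
open Pool.Agent.Ball (rot gAt HG Lorentz Sep)
open Pool.Agent.Helper8.D (ent)
open PSQ (W Inv BetR DRA)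

/-- **WGD.**  From `sl` to `gl` for alternating forms, above the complementary degree of the
determinants.  PROOF.  As `St_Wgt`: `α` is determined by its values `α (e ∘ w)` for injective `w`.  If
`α (e ∘ w) ≠ 0`, then `N_(s,i) (w) = N_s`.  The basis vectors which do not occur in `w` contain, for every
`s` and `i`, `R_s - a` vectors `(true, t, i)`, `pl t = s`, and `R_s - b` vectors `(false, t, i)`, where `a`, `b`
are the numbers for `w` and `R_s` is the number of the `t` with `pl t = s`; the difference is `-N_s`.  So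
`m * ∑ s, |N_s| ≤ 2 * card T * m - N`, and `m * ∑ s, N_s ≡ N mod 2` as before, so `N_s = 0`. -/
def St_Wgd : Prop := ∀ (U : Type) [AddCommGroup U] [Module ℂ U] (T S : Type) [Fintype T]
  [DecidableEq T] [Fintype S] [DecidableEq S] (m N : ℕ) (pl : T → S)
  (e : Basis (Bool × T × Fin m) ℂ U) (α : U [⋀^Fin N]→ₗ[ℂ] ℂ), 1 ≤ m →
  Even N → 2 * (Fintype.card T * m) < N + (if Even m then m else 2 * m) →
  SlK pl e (α : MultilinearMap ℂ (fun _ : Fin N => U) ℂ) →
  GlK pl e (α : MultilinearMap ℂ (fun _ : Fin N => U) ℂ)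

/-- **FAD** (from `St_Wgd`, `St_Ffp`).  As `St_Fam`, for alternating forms in the dual range: the
dimension of `W κ n` is `n * (2 * card T * m)`. -/
def St_Fad : Prop := ∀ (κ : Type) [Fintype κ] [DecidableEq κ] (ϖ : ℂ) (P : PData κ ϖ)
  (n k m : ℕ) (α : (W κ n) [⋀^Fin (2 * k)]→ₗ[ℂ] ℂ) (T S : Type) [Fintype T]
  [DecidableEq T] [Fintype S] [DecidableEq S] (pl : T → S)
  (e : Basis (Bool × T × Fin m) ℂ (κ → ℂ)), 1 ≤ m →
  Frame n k (α : MultilinearMap ℂ (fun _ : Fin (2 * k) => W κ n) ℂ) pl e P →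
  n * Fintype.card κ < 2 * k + (if Even m then m else 2 * m) →
  (α : MultilinearMap ℂ (fun _ : Fin (2 * k) => W κ n) ℂ) ∈ Submodule.span ℂ
    {M | ∃ (π : Equiv.Perm (Fin (2 * k))) (β : Fin k → (W κ n →ₗ[ℂ] W κ n →ₗ[ℂ] ℂ)),
    (∀ a, β a ∈ invB (fun _ : Unit => n) (fun _ => P)
      (α : MultilinearMap ℂ (fun _ : Fin (2 * k) => W κ n) ℂ)) ∧
      M = (prodBilin β).domDomCongr π}

/-- **ABD** (as `St_Abs`, from `St_Fad`). -/
def St_Abd : Prop := ∀ (κ : Type) [Fintype κ] [DecidableEq κ]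
  (P : PData κ (2 * Real.pi * Complex.I)) (L : Type) [Field L] [NumberField L] (m : ℕ)
  (F : UF P L m) (n k : ℕ) (α : (W κ n) [⋀^Fin (2 * k)]→ₗ[ℂ] ℂ), 3 ≤ m → NoAnti F →
  BetR P n k (α : MultilinearMap ℂ (fun _ : Fin (2 * k) => W κ n) ℂ) →
  DRA n k (α : MultilinearMap ℂ (fun _ : Fin (2 * k) => W κ n) ℂ) → ∀ σ₀ : L →+* ℂ,
  Lorentz (HG F σ₀) → (∀ τ, ¬ Ag F τ σ₀ → ¬ Ag F τ (ComplexEmbedding.conjugate σ₀) →
    Sep (fun _ : Unit => P) () F σ₀ τ) →
  n * Fintype.card κ < 2 * k + (if Even m then m else 2 * m) →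
  α ∈ Submodule.span ℚ {ω | ∃ γ : Fin k → (W κ n →ₗ[ℂ] W κ n →ₗ[ℂ] ℂ),
    (∀ a, γ a ∈ GW (fun _ : Unit => n) (fun _ => P)) ∧ ω = wedge γ}

/-- **FID** (as `St_FinT`, from `St_Abd`, `St_Fra`). -/
def St_FinD : Prop := ∀ (A : AbVar) (m k : ℕ), A.IsKottwitzDual m k →
  ∀ α : Form (fun _ : Unit => A) (fun _ => m) (2 * k),
  IsGrothendieck (fun _ : Unit => A) (fun _ => m) k α ↔
    IsDivisorial (fun _ : Unit => A) (fun _ => m) k α

end KT2
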