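import Pool.Agent.KT2.St2
import Pool.Agent.PSQ.AbsMain

/-!
# KT2, module Abd

The theorem for abstract data in the complementary degrees: assembly (helper87).
-/

set_option autoImplicit false

namespace KT2

open Module Matrix NumberField Pool.Agent.Helper7
open Pool.Agent.Ball (rot HG Lorentz Sep)
open PSQ (W Inv BetR DRA)

theorem thm_Abd (hRot : St_Rot) (hBra : St_Bra) (hSlc : St_Slc)
    (hCxc : St_Cxc) (hFrm : St_Frm) (hFad : St_Fad) : St_Abd := by
  intro κ _ _ P L _ _ m F n k α hm hNA hB hA σ₀ hL hSep hdeg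
  have hϖ : (2 * Real.pi * Complex.I : ℂ) ≠ 0 := Complex.two_pi_I_ne_zero
  obtain ⟨U, V, hUV, hVU, hrot⟩ := hRot κ P L m F n k _ hm hB hA σ₀ hL hSep
  have hrot' : ∀ i j, U * rot i j * V ∈
      sAt n k (α : MultilinearMap ℂ (fun _ : Fin (2 * k) => W κ n) ℂ) F σ₀ := by
    intro i j
    obtain ⟨X, hX, hXe, -⟩ := hrot i j
    exact ⟨X, hX, hXe⟩
  have hnc := hBra κ _ P L m F n k _ hm hϖ hB hA hNA σ₀ U V hUV hVU hrot'
  have hsl := hSlc κ _ P L m F n k _ hm hϖ hB σ₀ U V hUV hVU hrot hnc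
  have hcx := hCxc κ _ P L m F hϖ hNA
  obtain ⟨T, S, _, _, _, _, pl, τ, e, hFr, -, -, -, -, -⟩ :=
    hFrm κ _ P L m F n k _ hϖ hB hA hcx hsl
  apply PSQ.descent P hϖ n α hB hA
  exact hFad κ _ P n k m α T S pl e (by omega) hFr hdeg

end KT2
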