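import Pool.Agent.KT2.St
import Pool.Agent.PSQ.AbsMain

/-!
# KT2, module Abs

The theorem for abstract data: assembly.
-/

set_option autoImplicit false

namespace KT2

open Module Matrix NumberField Pool.Agent.Helper7
open Pool.Agent.Ball (rot HG Lorentz Sep)
open PSQ (W Inv BetR DRA)

section

variable {κ : Type} [Fintype κ] [DecidableEq κ] {ϖ : ℂ} {P : PData κ ϖ} {L : Type} [Field L]
  [NumberField L] {m : ℕ} {F : UF P L m}

private lemma Abs_symm {σ τ : L →+* ℂ} (h : Ag F σ τ) : Ag F τ σ := fun x hx => (h x hx).symm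

private lemma Abs_trans {σ τ υ : L →+* ℂ} (h : Ag F σ τ) (h' : Ag F τ υ) : Ag F σ υ :=
  fun x hx => (h x hx).trans (h' x hx)

private lemma Abs_conj {σ τ : L →+* ℂ} (h : Ag F σ τ) :
    Ag F (ComplexEmbedding.conjugate σ) (ComplexEmbedding.conjugate τ) := by
  intro x hx
  rw [ComplexEmbedding.conjugate_coe_eq, ComplexEmbedding.conjugate_coe_eq, h x hx]

private lemma Abs_conj_conj (σ : L →+* ℂ) :
    ComplexEmbedding.conjugate (ComplexEmbedding.conjugate σ) = σ := by
  ext x
  rw [ComplexEmbedding.conjugate_coe_eq, ComplexEmbedding.conjugate_coe_eq, Complex.conj_conj]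

end

theorem thm_Abs (hRot : St_Rot) (_hTwi : St_Twi) (hBra : St_Bra) (hSlc : St_Slc)
    (hCxc : St_Cxc) (hFrm : St_Frm) (hFam : St_Fam) (hQua : St_Qua) : St_Abs := by
  intro κ _ _ P L _ _ m F n k α hm hNA hB hA σ₀ hL hSep hcase
  have hϖ : (2 * Real.pi * Complex.I : ℂ) ≠ 0 := Complex.two_pi_I_ne_zero
  obtain ⟨U, V, hUV, hVU, hrot⟩ := hRot κ P L m F n k _ hm hB hA σ₀ hL hSep
  have hrot' : ∀ i j, U * rot i j * V ∈
      sAt n k (α : MultilinearMap ℂ (fun _ : Fin (2 * k) => W κ n) ℂ) F σ₀ := by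
    intro i j
    obtain ⟨X, hX, hXe, -⟩ := hrot i j
    exact ⟨X, hX, hXe⟩
  have hnc := hBra κ _ P L m F n k _ hm hϖ hB hA hNA σ₀ U V hUV hVU hrot'
  have hsl := hSlc κ _ P L m F n k _ hm hϖ hB σ₀ U V hUV hVU hrot hnc
  have hcx := hCxc κ _ P L m F hϖ hNA
  obtain ⟨T, S, _, _, _, _, pl, τ, e, hFr, hsur, hpl, hnag, het, hef⟩ :=
    hFrm κ _ P L m F n k _ hϖ hB hA hcx hsl
  apply PSQ.descent P hϖ n α hB hA
  refine hFam κ _ P n k m _ T S pl e (by omega) hFr ?_
  rcases hcase with h | ⟨x, z, hx, D, hD⟩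
  · exact Or.inl h
  · refine Or.inr ?_
    have hmix : ∀ t t', Ag F (τ t) σ₀ → Ag F (τ t') (ComplexEmbedding.conjugate σ₀) → False := by
      intro t t' h h'
      apply hnag t t'
      have h2 := Abs_conj h'
      rw [Abs_conj_conj] at h2
      exact Abs_trans h (Abs_symm h2)
    have hS : ∀ s s' : S, s = s' := by
      intro s s'
      obtain ⟨t, rfl⟩ := hsur s
      obtain ⟨t', rfl⟩ := hsur s'
      rw [hpl]
      rcases hx (τ t) with ⟨h, -⟩ | ⟨h, -⟩ <;> rcases hx (τ t') with ⟨h', -⟩ | ⟨h', -⟩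
      · exact Abs_trans h (Abs_symm h')
      · exact (hmix t t' h h').elim
      · exact (hmix t' t h' h).elim
      · exact Abs_trans h (Abs_symm h')
    by_cases hex : ∃ t, Ag F (τ t) σ₀
    · obtain ⟨t₀, ht₀⟩ := hex
      have hall : ∀ t, Ag F (τ t) σ₀ ∧ τ t x = z := by
        intro t
        rcases hx (τ t) with h | ⟨h, -⟩
        · exact h
        · exact (hmix t₀ t ht₀ h).elim
      have hconj : ∀ t, ComplexEmbedding.conjugate (τ t) x = -z := by
        intro t
        rcases hx (ComplexEmbedding.conjugate (τ t)) with ⟨h, -⟩ | ⟨-, h⟩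
        · exact (hnag t t (Abs_trans (hall t).1 (Abs_symm h))).elim
        · exact h
      refine hQua κ _ P L m F n k _ (by omega) hϖ hB hA T S pl e z x hFr hS ?_ ?_ ⟨D, hD⟩
      · intro t j
        rw [het, (hall t).2]
      · intro t j
        rw [hef, hconj]
    · have hall : ∀ t, Ag F (τ t) (ComplexEmbedding.conjugate σ₀) ∧ τ t x = -z := by
        intro t
        rcases hx (τ t) with ⟨h, -⟩ | h
        · exact (hex ⟨t, h⟩).elim
        · exact h
      have hconj : ∀ t, ComplexEmbedding.conjugate (τ t) x = - -z := by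
        intro t
        rw [neg_neg]
        rcases hx (ComplexEmbedding.conjugate (τ t)) with ⟨-, h⟩ | ⟨h, -⟩
        · exact h
        · exact (hnag t t (Abs_trans (hall t).1 (Abs_symm h))).elim
      refine hQua κ _ P L m F n k _ (by omega) hϖ hB hA T S pl e (-z) x hFr hS ?_ ?_ ⟨D, hD⟩
      · intro t j
        rw [het, (hall t).2]
      · intro t j
        rw [hef, hconj]

end KT2
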