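import Pool.Agent.KT2.St

/-!
# KT2, module Bra: the Brauer step (helper43)
-/

set_option autoImplicit false

namespace KT2

open Module Matrix NumberField Pool.Agent.Helper7
open Pool.Agent.Ball (rot)
open Pool.Agent.Helper8.D (ent)
open PSQ (W Inv BetR DRA)
open BTL (ConfM)

section adj

variable {κ : Type} [Fintype κ] [DecidableEq κ] {ϖ : ℂ} (P : PData κ ϖ)

/-- the polarisation as an isomorphism to the dual space -/
private noncomputable def Bra_T : (κ → ℂ) ≃ₗ[ℂ] Module.Dual ℂ (κ → ℂ) :=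
  LinearMap.linearEquivOfInjective (P.ψ : (κ → ℂ) →ₗ[ℂ] Module.Dual ℂ (κ → ℂ))
    (by
      rw [← LinearMap.ker_eq_bot, LinearMap.ker_eq_bot']
      intro u hu
      exact P.hψnd u fun v => LinearMap.congr_fun hu v)
    (Subspace.dual_finrank_eq (K := ℂ) (V := κ → ℂ)).symm

private theorem Bra_T_apply (u v : κ → ℂ) : Bra_T P u v = P.ψ u v := rfl

/-- the adjoint -/
private noncomputable def Bra_adj (f : Module.End ℂ (κ → ℂ)) : Module.End ℂ (κ → ℂ) :=
  (Bra_T P).symm.toLinearMap ∘ₗ (LinearMap.dualMap f) ∘ₗ (Bra_T P).toLinearMap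

private theorem Bra_adj_left (f : Module.End ℂ (κ → ℂ)) (u v : κ → ℂ) :
    P.ψ (Bra_adj P f u) v = P.ψ u (f v) := by
  have h1 : Bra_T P (Bra_adj P f u) = LinearMap.dualMap f (Bra_T P u) := by
    show Bra_T P ((Bra_T P).symm (LinearMap.dualMap f (Bra_T P u))) = _
    exact (Bra_T P).apply_symm_apply _
  have h2 := LinearMap.congr_fun h1 v
  exact h2

private theorem Bra_adj_right (f : Module.End ℂ (κ → ℂ)) (u v : κ → ℂ) :
    P.ψ (f u) v = P.ψ u (Bra_adj P f v) := by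
  rw [P.hψalt, ← Bra_adj_left, P.hψalt, neg_neg]

private theorem Bra_adj_uniq (f g : Module.End ℂ (κ → ℂ))
    (h : ∀ u v, P.ψ (f u) v = P.ψ u (g v)) : Bra_adj P f = g := by
  apply LinearMap.ext
  intro v
  apply sub_eq_zero.1
  apply P.hψnd
  intro u
  rw [map_sub, LinearMap.sub_apply, P.hψalt (Bra_adj P f v) u, P.hψalt (g v) u, ← Bra_adj_right,
    ← h]
  ring

private theorem Bra_adj_mul (f g : Module.End ℂ (κ → ℂ)) :
    Bra_adj P (f * g) = Bra_adj P g * Bra_adj P f := by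
  refine Bra_adj_uniq P _ _ fun u v => ?_
  show P.ψ (f (g u)) v = P.ψ u (Bra_adj P g (Bra_adj P f v))
  rw [Bra_adj_right, Bra_adj_right]

private theorem Bra_adj_add (f g : Module.End ℂ (κ → ℂ)) :
    Bra_adj P (f + g) = Bra_adj P f + Bra_adj P g := by
  refine Bra_adj_uniq P _ _ fun u v => ?_
  show P.ψ (f u + g u) v = P.ψ u (Bra_adj P f v + Bra_adj P g v)
  rw [map_add, LinearMap.add_apply, map_add, ← Bra_adj_right, ← Bra_adj_right]

/-- vectors with rational pairings are rational -/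
private theorem Bra_rat (_hϖ : ϖ ≠ 0) (w : κ → ℂ)
    (hw : ∀ i, ∃ q : ℚ, P.ψ w (P.bB i) = ϖ * q) : w ∈ P.Q := by
  classical
  choose A0 hA0 using fun i j => P.hψQ _ (P.basis_mem i) _ (P.basis_mem j)
  choose q hq using hw
  set A : Matrix P.ι P.ι ℚ := Matrix.of A0 with hAdef
  have hA : ∀ i j, P.ψ (P.bB i) (P.bB j) = ϖ * (A i j : ℂ) := hA0
  have hdet : A.det ≠ 0 := by
    intro hdet
    obtain ⟨v, hv0, hv⟩ := Matrix.exists_mulVec_eq_zero_iff.mpr hdet
    apply hv0
    have h1 : ∑ j, (v j : ℂ) • P.bB j = 0 := by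
      apply P.hψnd
      intro u
      rw [P.hψalt, neg_eq_zero, ← P.bB.sum_repr u, map_sum P.ψ, LinearMap.sum_apply]
      refine Finset.sum_eq_zero fun i _ => ?_
      rw [map_smul, LinearMap.smul_apply, map_sum]
      have h2 : ∑ j, P.ψ (P.bB i) ((v j : ℂ) • P.bB j) = ϖ * (((A *ᵥ v) i : ℚ) : ℂ) := by
        simp only [map_smul, smul_eq_mul, hA i, Matrix.mulVec, dotProduct]
        push_cast
        rw [Finset.mul_sum]
        exact Finset.sum_congr rfl fun j _ => by ring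
      rw [h2, hv]
      simp
    have h2 := Fintype.linearIndependent_iff.mp P.bB.linearIndependent (fun j => (v j : ℂ)) h1
    funext j
    have h3 := h2 j
    show v j = 0
    exact_mod_cast h3
  have hunit : IsUnit A.det := isUnit_iff_ne_zero.mpr hdet
  set c : P.ι → ℚ := q ᵥ* A⁻¹ with hc
  have hcA : c ᵥ* A = q := by
    rw [hc, Matrix.vecMul_vecMul, Matrix.nonsing_inv_mul _ hunit, Matrix.vecMul_one]
  have hw : w = ∑ j, (c j : ℂ) • P.bB j := by
    apply sub_eq_zero.1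
    apply P.hψnd
    intro u
    rw [← P.bB.sum_repr u, map_sum]
    refine Finset.sum_eq_zero fun i _ => ?_
    rw [map_smul]
    have h1 : P.ψ (w - ∑ j, (c j : ℂ) • P.bB j) (P.bB i) = 0 := by
      rw [map_sub, LinearMap.sub_apply, hq, map_sum, LinearMap.sum_apply]
      have h2 : ∑ j, P.ψ ((c j : ℂ) • P.bB j) (P.bB i) = ϖ * (((c ᵥ* A) i : ℚ) : ℂ) := by
        simp only [map_smul, LinearMap.smul_apply, smul_eq_mul, hA, Matrix.vecMul, dotProduct]
        push_cast
        rw [Finset.mul_sum]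
        exact Finset.sum_congr rfl fun j _ => by ring
      rw [h2, hcA, sub_self]
    rw [h1, smul_zero]
  rw [hw]
  exact Submodule.sum_mem _ fun j _ => P.rat_smul_mem _ _ (P.basis_mem j)

/-- adjoints of rational operators are rational -/
private theorem Bra_adj_rat (hϖ : ϖ ≠ 0) (f : Module.End ℂ (κ → ℂ)) (hf : ∀ v ∈ P.Q, f v ∈ P.Q) :
    ∀ v ∈ P.Q, Bra_adj P f v ∈ P.Q := by
  intro v hv
  refine Bra_rat P hϖ _ fun i => ?_
  rw [Bra_adj_left]
  exact P.hψQ _ hv _ (hf _ (P.basis_mem i))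

variable (n k : ℕ) (α : MultilinearMap ℂ (fun _ : Fin (2 * k) => W κ n) ℂ)

/-- adjoints of endomorphisms are endomorphisms -/
private theorem Bra_adj_drb (hϖ : ϖ ≠ 0) (hB : BetR P n k α) (hA : DRA n k α)
    (f : Module.End ℂ (κ → ℂ)) (hf : IsDRB P P f) : IsDRB P P (Bra_adj P f) := by
  refine isDRB_of_rat_comm (fun _ : Unit => n) (fun _ => P) α hϖ hB hA () () (Bra_adj P f)
    (Bra_adj_rat P hϖ f hf.rat) fun Y hY _ v => ?_
  apply sub_eq_zero.1
  apply P.hψnd
  intro u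
  have e1 := hY.pol () (Bra_adj P f v) u
  have e2 : P.ψ (Bra_adj P f v) (Y.1 () u) = P.ψ v (f (Y.1 () u)) := Bra_adj_left P f _ _
  have e3 : P.ψ (Bra_adj P f v) u = P.ψ v (f u) := Bra_adj_left P f _ _
  have e4 : P.ψ (Bra_adj P f (Y.1 () v)) u = P.ψ (Y.1 () v) (f u) := Bra_adj_left P f _ _
  have e5 := hY.pol () v (f u)
  have e6 : Y.1 () (f u) = f (Y.1 () u) := hY.comm () () f hf u
  rw [map_sub, LinearMap.sub_apply, e4]
  rw [e2, e3] at e1
  rw [e6] at e5
  linear_combination e1 - e5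

end adj

section inv

variable {κ : Type} [Fintype κ] [DecidableEq κ] {ϖ : ℂ} (P : PData κ ϖ)

/-- the inverse of a rational operator is rational -/
private theorem Bra_inv (b c : Module.End ℂ (κ → ℂ)) (hb : ∀ v ∈ P.Q, b v ∈ P.Q)
    (hcb : c * b = 1) : ∀ v ∈ P.Q, c v ∈ P.Q := by
  have hfd : FiniteDimensional ℚ P.Q :=
    FiniteDimensional.span_of_finite ℚ (Set.finite_range P.bB)
  let b' : P.Q →ₗ[ℚ] P.Q :=
    { toFun := fun v => ⟨b v.1, hb v.1 v.2⟩
      map_add' := fun u v => Subtype.ext (map_add b u.1 v.1)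
      map_smul' := fun q v => Subtype.ext (by
        show b (q • v.1) = q • b v.1
        exact map_rat_smul b q v.1) }
  have hinj : Function.Injective b' := by
    intro u v huv
    apply Subtype.ext
    have h1 : b u.1 = b v.1 := congrArg Subtype.val huv
    have h2 := congrArg c h1
    have h3 : ∀ w, c (b w) = w := fun w => LinearMap.congr_fun hcb w
    rw [h3, h3] at h2
    exact h2
  have hsur := LinearMap.injective_iff_surjective.1 hinj
  intro v hv
  obtain ⟨u, hu⟩ := hsur ⟨v, hv⟩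
  have h1 : b u.1 = v := congrArg Subtype.val hu
  have h3 : c (b u.1) = u.1 := LinearMap.congr_fun hcb u.1
  rw [← h1, h3]
  exact u.2

variable (n k : ℕ) (α : MultilinearMap ℂ (fun _ : Fin (2 * k) => W κ n) ℂ)

omit [Fintype κ] [DecidableEq κ] in
private theorem Bra_smul1 (c : ℂ) (A B b : Module.End ℂ (κ → ℂ))
    (h : b * (A * B - B * A) = (A * B - B * A) * b) :
    b * ((c • A) * B - B * (c • A)) = ((c • A) * B - B * (c • A)) * b := by
  have e : (c • A) * B - B * (c • A) = c • (A * B - B * A) := by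
    rw [smul_mul_assoc, mul_smul_comm, smul_sub]
  rw [e, mul_smul_comm, h, smul_mul_assoc]

omit [Fintype κ] [DecidableEq κ] in
private theorem Bra_smul2 (c : ℂ) (A B b : Module.End ℂ (κ → ℂ))
    (h : b * (A * B - B * A) = (A * B - B * A) * b) :
    b * (A * (c • B) - (c • B) * A) = (A * (c • B) - (c • B) * A) * b := by
  have e : A * (c • B) - (c • B) * A = c • (A * B - B * A) := by
    rw [smul_mul_assoc, mul_smul_comm, smul_sub]
  rw [e, mul_smul_comm, h, smul_mul_assoc]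

/-- an operator which commutes with the rational brackets commutes with all brackets -/
private theorem Bra_all (hϖ : ϖ ≠ 0) (hB : BetR P n k α) (b : Module.End ℂ (κ → ℂ))
    (h : ∀ Y, IsBr P n k α Y → (∀ v ∈ P.Q, Y v ∈ P.Q) → b * Y = Y * b) :
    ∀ Y, IsBr P n k α Y → b * Y = Y * b := by
  have h1 : ∀ X' : GG (fun _ : Unit => κ), IsInv (fun _ : Unit => n) (fun _ => P) α X' →
      IsRatl (fun _ : Unit => P) X' → ∀ X : GG (fun _ : Unit => κ),
      IsInv (fun _ : Unit => n) (fun _ => P) α X →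
      b * (X.1 () * X'.1 () - X'.1 () * X.1 ()) = (X.1 () * X'.1 () - X'.1 () * X.1 ()) * b := by
    intro X' hX' hr' X hX
    have h2 := mem_span_of_isInv (fun _ : Unit => n) (fun _ => P) α hϖ hB X hX
    refine Submodule.span_induction (p := fun (X : GG (fun _ : Unit => κ)) _ =>
      b * (X.1 () * X'.1 () - X'.1 () * X.1 ()) = (X.1 () * X'.1 () - X'.1 () * X.1 ()) * b)
      ?_ ?_ ?_ ?_ h2
    · rintro Y ⟨hY, hr⟩
      refine h _ ⟨Y.1 (), X'.1 (), Y.2, X'.2, hY, hX', rfl⟩ fun v hv => ?_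
      show Y.1 () (X'.1 () v) - X'.1 () (Y.1 () v) ∈ P.Q
      exact Submodule.sub_mem _ (hr.1 () _ (hr'.1 () _ hv)) (hr'.1 () _ (hr.1 () _ hv))
    · show b * ((0 : Module.End ℂ (κ → ℂ)) * X'.1 () - X'.1 () * 0) =
        ((0 : Module.End ℂ (κ → ℂ)) * X'.1 () - X'.1 () * 0) * b
      simp
    · intro Y Z _ _ hY hZ
      show b * ((Y.1 () + Z.1 ()) * X'.1 () - X'.1 () * (Y.1 () + Z.1 ())) =
        ((Y.1 () + Z.1 ()) * X'.1 () - X'.1 () * (Y.1 () + Z.1 ())) * b
      have e : (Y.1 () + Z.1 ()) * X'.1 () - X'.1 () * (Y.1 () + Z.1 ()) =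
          (Y.1 () * X'.1 () - X'.1 () * Y.1 ()) + (Z.1 () * X'.1 () - X'.1 () * Z.1 ()) := by
        rw [add_mul, mul_add]
        abel
      rw [e, mul_add, hY, hZ, add_mul]
    · intro c Y _ hY
      exact Bra_smul1 c (Y.1 ()) (X'.1 ()) b hY
  rintro _ ⟨X, X', c, c', hX, hX', rfl⟩
  have h2 := mem_span_of_isInv (fun _ : Unit => n) (fun _ => P) α hϖ hB
    ((fun _ => X', c') : GG (fun _ : Unit => κ)) hX'
  refine Submodule.span_induction (p := fun (X' : GG (fun _ : Unit => κ)) _ =>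
    b * (X * X'.1 () - X'.1 () * X) = (X * X'.1 () - X'.1 () * X) * b) ?_ ?_ ?_ ?_ h2
  · rintro Y ⟨hY, hr⟩
    exact h1 Y hY hr ((fun _ => X, c) : GG (fun _ : Unit => κ)) hX
  · show b * (X * (0 : Module.End ℂ (κ → ℂ)) - 0 * X) = (X * (0 : Module.End ℂ (κ → ℂ)) - 0 * X) * b
    simp
  · intro Y Z _ _ hY hZ
    show b * (X * (Y.1 () + Z.1 ()) - (Y.1 () + Z.1 ()) * X) =
      (X * (Y.1 () + Z.1 ()) - (Y.1 () + Z.1 ()) * X) * b
    have e : X * (Y.1 () + Z.1 ()) - (Y.1 () + Z.1 ()) * X =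
        (X * Y.1 () - Y.1 () * X) + (X * Z.1 () - Z.1 () * X) := by
      rw [add_mul, mul_add]
      abel
    rw [e, mul_add, hY, hZ, add_mul]
  · intro a Y _ hY
    exact Bra_smul2 a X (Y.1 ()) b hY

end inv

/-- the Brauer step -/
theorem thm_Bra (hLin : St_Lin) (hKan : St_Kan) (hCom : St_Com) : St_Bra := by
  intro κ _ _ ϖ P L _ _ m F n k α hm hϖ hB hA hNo σ₀ U V hUV hVU hrot
  by_contra hcon
  push Not at hcon
  obtain ⟨b₀, hb₀, hbY, hbx⟩ := hKan κ ϖ P L m F n k α hϖ hB hA σ₀ U V hUV hVU hcon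
  obtain ⟨b, hbij, hbQ, hbΦ⟩ := hLin κ ϖ P
    ({p | IsBr P n k α p.1 ∧ (∀ v ∈ P.Q, p.1 v ∈ P.Q) ∧ p.2 = p.1} ∪
      {p | ∃ x, p = (F.ρ x, F.ρ (F.cc x))})
    (by
      rintro p (⟨-, h2, h3⟩ | ⟨x, rfl⟩)
      · rw [h3]
        exact ⟨h2, h2⟩
      · exact ⟨(F.hρ x).rat, (F.hρ _).rat⟩)
    ⟨b₀, hb₀, by
      rintro p (⟨h1, -, h3⟩ | ⟨x, rfl⟩)
      · rw [h3]
        exact hbY _ h1
      · exact hbx x⟩
  have hbY' : ∀ Y, IsBr P n k α Y → b * Y = Y * b :=
    Bra_all P n k α hϖ hB b fun Y hY hr => hbΦ (Y, Y) (Or.inl ⟨hY, hr, rfl⟩)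
  have hbx' : ∀ x, b * F.ρ x = F.ρ (F.cc x) * b := fun x =>
    hbΦ (F.ρ x, F.ρ (F.cc x)) (Or.inr ⟨x, rfl⟩)
  -- the inverse
  let be : (κ → ℂ) ≃ₗ[ℂ] (κ → ℂ) := LinearEquiv.ofBijective b hbij
  let c : Module.End ℂ (κ → ℂ) := be.symm.toLinearMap
  have hcb : c * b = 1 := by
    apply LinearMap.ext
    intro v
    exact be.symm_apply_apply v
  have hbc : b * c = 1 := by
    apply LinearMap.ext
    intro v
    exact be.apply_symm_apply v
  have hcQ := Bra_inv P b c hbQ hcb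
  -- adjoints of the elements of `L`
  have hρadj : ∀ x, Bra_adj P (F.ρ x) = F.ρ (F.cc x) := fun x =>
    Bra_adj_uniq P _ _ fun u v => F.hros x u v
  have hadj2 : ∀ f, Bra_adj P (Bra_adj P f) = f := fun f =>
    Bra_adj_uniq P _ _ fun u v => Bra_adj_left P f u v
  have hZcc : ∀ x, Zen F x → Zen F (F.cc x) := by
    intro x hx f hf v
    have h1 : Bra_adj P f * F.ρ x = F.ρ x * Bra_adj P f :=
      LinearMap.ext fun v => hx _ (Bra_adj_drb P n k α hϖ hB hA f hf) v
    have h2 := congrArg (Bra_adj P) h1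
    rw [Bra_adj_mul, Bra_adj_mul, hadj2, hρadj] at h2
    exact LinearMap.congr_fun h2.symm v
  have hcx : ∀ x, c * F.ρ x = F.ρ (F.cc x) * c := by
    intro x
    have h1 := hbx' (F.cc x)
    rw [F.cc_cc] at h1
    calc c * F.ρ x = c * (F.ρ x * b) * c := by rw [mul_assoc, mul_assoc, hbc, mul_one]
      _ = c * (b * F.ρ (F.cc x)) * c := by rw [h1]
      _ = F.ρ (F.cc x) * c := by rw [← mul_assoc c b, hcb, one_mul]
  have hcY : ∀ Y, IsBr P n k α Y → c * Y = Y * c := by
    intro Y hY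
    calc c * Y = c * (Y * b) * c := by rw [mul_assoc, mul_assoc, hbc, mul_one]
      _ = c * (b * Y) * c := by rw [hbY' Y hY]
      _ = Y * c := by rw [← mul_assoc c b, hcb, one_mul]
  have key : ∀ f, IsDRB P P f → IsDRB P P (b * f * c) := by
    intro f hf
    refine hCom κ ϖ P L m F n k α hm hϖ hB hA σ₀ U V hUV hVU hrot hcon (b * f * c)
      (fun v hv => hbQ _ (hf.rat _ (hcQ v hv))) (fun Y hY => ?_) fun x hx => ?_
    · have hfY : f * Y = Y * f := by
        obtain ⟨X, X', a, a', hX, hX', rfl⟩ := hY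
        have h1 : X * f = f * X := LinearMap.ext fun v => hX.comm () () f hf v
        have h2 : X' * f = f * X' := LinearMap.ext fun v => hX'.comm () () f hf v
        rw [mul_sub, sub_mul, ← mul_assoc, ← mul_assoc, ← h1, ← h2, mul_assoc, mul_assoc, ← h1,
          ← h2, mul_assoc, mul_assoc]
      calc b * f * c * Y = b * f * (c * Y) := by rw [mul_assoc]
        _ = b * (f * Y) * c := by rw [hcY Y hY]; simp only [mul_assoc]
        _ = b * Y * f * c := by rw [hfY]; simp only [mul_assoc]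
        _ = Y * (b * f * c) := by rw [hbY' Y hY]; simp only [mul_assoc]
    · have hfx : f * F.ρ (F.cc x) = F.ρ (F.cc x) * f :=
        LinearMap.ext fun v => hZcc x hx f hf v
      calc b * f * c * F.ρ x = b * f * (c * F.ρ x) := by rw [mul_assoc]
        _ = b * (f * F.ρ (F.cc x)) * c := by rw [hcx]; simp only [mul_assoc]
        _ = b * F.ρ (F.cc x) * f * c := by rw [hfx]; simp only [mul_assoc]
        _ = F.ρ x * (b * f * c) := by rw [hbx', F.cc_cc]; simp only [mul_assoc]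
  apply hNo
  refine ⟨fun f => Bra_adj P (b * f * c), fun f hf =>
    Bra_adj_drb P n k α hϖ hB hA _ (key f hf), fun f h _ _ => ⟨?_, ?_⟩, fun x _ => ?_⟩
  · show Bra_adj P (b * (f * h) * c) = Bra_adj P (b * h * c) * Bra_adj P (b * f * c)
    rw [← Bra_adj_mul]
    congr 1
    calc b * (f * h) * c = b * f * 1 * h * c := by rw [mul_one]; simp only [mul_assoc]
      _ = b * f * c * (b * h * c) := by rw [← hcb]; simp only [mul_assoc]
  · show Bra_adj P (b * (f + h) * c) = Bra_adj P (b * f * c) + Bra_adj P (b * h * c)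
    rw [← Bra_adj_add, mul_add, add_mul]
  · show Bra_adj P (b * F.ρ x * c) = F.ρ x
    rw [hbx', mul_assoc, hbc, mul_one, hρadj, F.cc_cc]

end KT2
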