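import Pool.Agent.KT2.St

/-!
# KT2 COM: a rational operator which commutes with the brackets and with the centre
-/

set_option autoImplicit false

namespace KT2

open Module Matrix NumberField Pool.Agent.Helper7
open Pool.Agent.Ball (rot)
open Pool.Agent.Helper8.D (ent ent_apply ent_act ent_mul)
open PSQ (W Inv BetR DRA)
open BTL (ConfM)

section sym

variable {κ : Type} [Fintype κ] [DecidableEq κ] {ϖ : ℂ} {P : PData κ ϖ} {n k : ℕ}
  {α : MultilinearMap ℂ (fun _ : Fin (2 * k) => W κ n) ℂ}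

lemma Com_add {X Y : Module.End ℂ (κ → ℂ)} {c d : ℂ} (hX : Inv P n k α X c)
    (hY : Inv P n k α Y d) : Inv P n k α (X + Y) (c + d) :=
  IsInv.add _ _ _ hX hY

lemma Com_smul {X : Module.End ℂ (κ → ℂ)} {c : ℂ} (a : ℂ) (hX : Inv P n k α X c) :
    Inv P n k α (a • X) (a * c) :=
  IsInv.smul _ _ _ a hX

lemma Com_br {X Y : Module.End ℂ (κ → ℂ)} {c d : ℂ} (hX : Inv P n k α X c)
    (hY : Inv P n k α Y d) : Inv P n k α (X * Y - Y * X) 0 := by
  have h : Inv P n k α (X * Y - Y * X) (c * d - d * c) := IsInv.bracket _ _ _ hX hY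
  have e : c * d - d * c = 0 := by ring
  rwa [e] at h

lemma Com_zero : Inv P n k α 0 0 := IsInv.zero _ _ _

lemma Com_hom : Inv P n k α ((1 / 2 : ℂ) • (1 : Module.End ℂ (κ → ℂ))) 1 :=
  Pool.Agent.Helper98.Ball.isInv_homothety _ _ _

variable {L : Type} [Field L] [NumberField L] {m : ℕ} (F : UF P L m)

lemma Com_comm {X : Module.End ℂ (κ → ℂ)} {c : ℂ} (hX : Inv P n k α X c) : F.Comm X :=
  fun x v => IsInv.comm hX () () (F.ρ x) (F.hρ x) v

/-- the good operators: symmetries of multiplier zero which commute with `f` -/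
def Com_G (P : PData κ ϖ) (n k : ℕ) (α : MultilinearMap ℂ (fun _ : Fin (2 * k) => W κ n) ℂ)
    (f : Module.End ℂ (κ → ℂ)) : Submodule ℂ (Module.End ℂ (κ → ℂ)) where
  carrier := {Y | Inv P n k α Y 0 ∧ f * Y = Y * f}
  zero_mem' := ⟨Com_zero, by rw [mul_zero, zero_mul]⟩
  add_mem' := by
    rintro X Y ⟨h1, h2⟩ ⟨h3, h4⟩
    refine ⟨?_, by rw [mul_add, add_mul, h2, h4]⟩
    have h := Com_add h1 h3
    rwa [add_zero] at h
  smul_mem' := by
    rintro c Y ⟨h1, h2⟩
    refine ⟨?_, by rw [mul_smul_comm, smul_mul_assoc, h2]⟩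
    have h := Com_smul c h1
    rwa [mul_zero] at h

end sym

/-- skew matrices are sums of rotations -/
lemma Com_skew {m : ℕ} (S : Matrix (Fin m) (Fin m) ℂ) (hS : S.transpose = -S) :
    S = ∑ i, ∑ j, (S i j / 2) • rot i j := by
  have h1 : S = ∑ i, ∑ j, S i j • Matrix.single i j (1 : ℂ) := by
    conv_lhs => rw [Matrix.matrix_eq_sum_single S]
    refine Finset.sum_congr rfl fun i _ => Finset.sum_congr rfl fun j _ => ?_
    rw [Matrix.smul_single, smul_eq_mul, mul_one]
  have h2 : -S = ∑ i, ∑ j, S i j • Matrix.single j i (1 : ℂ) := by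
    rw [← hS]
    conv_lhs => rw [Matrix.matrix_eq_sum_single S.transpose]
    rw [Finset.sum_comm]
    refine Finset.sum_congr rfl fun i _ => Finset.sum_congr rfl fun j _ => ?_
    rw [Matrix.smul_single, smul_eq_mul, mul_one, Matrix.transpose_apply]
  have h3 : ∑ i, ∑ j, (S i j / 2) • rot i j = (1 / 2 : ℂ) • (S - -S) := by
    have h4 : S - -S = (∑ i, ∑ j, S i j • Matrix.single i j (1 : ℂ)) -
        ∑ i, ∑ j, S i j • Matrix.single j i (1 : ℂ) := congrArg₂ (· - ·) h1 h2
    rw [h4]
    simp only [← Finset.sum_sub_distrib, Finset.smul_sum]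
    refine Finset.sum_congr rfl fun i _ => Finset.sum_congr rfl fun j _ => ?_
    unfold rot
    rw [smul_sub, smul_sub, smul_smul, smul_smul, show (1 / 2 : ℂ) * S i j = S i j / 2 by ring]
  rw [h3, sub_neg_eq_add, ← two_smul ℂ S, smul_smul]
  norm_num

/-- a rotation is a bracket of rotations -/
lemma Com_rot {m : ℕ} (i j l : Fin m) (hij : i ≠ j) (hil : i ≠ l) (hlj : l ≠ j) :
    rot i l * rot l j - rot l j * rot i l = rot i j := by
  unfold rot
  simp only [sub_mul, mul_sub]
  rw [Matrix.single_mul_single_same, Matrix.single_mul_single_of_ne _ _ _ _ hlj,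
    Matrix.single_mul_single_of_ne _ _ _ _ hil, Matrix.single_mul_single_of_ne _ _ _ _ hij,
    Matrix.single_mul_single_of_ne _ _ _ _ hij.symm,
    Matrix.single_mul_single_of_ne _ _ _ _ hlj.symm,
    Matrix.single_mul_single_of_ne _ _ _ _ hil.symm, Matrix.single_mul_single_same]
  simp


section main

variable {κ : Type} [Fintype κ] [DecidableEq κ] {ϖ : ℂ} {P : PData κ ϖ} {n k : ℕ}
  {α : MultilinearMap ℂ (fun _ : Fin (2 * k) => W κ n) ℂ} {L : Type} [Field L] [NumberField L]
  {m : ℕ} (F : UF P L m)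

/-- `U * S * V` with skew `S` is the matrix of a good operator -/
theorem Com_loc (hm : 3 ≤ m) (σ : L →+* ℂ) (U V : Matrix (Fin m) (Fin m) ℂ) (hVU : V * U = 1)
    (hrot : ∀ i j, U * rot i j * V ∈ sAt n k α F σ) (f : Module.End ℂ (κ → ℂ))
    (hbr : ∀ Y, IsBr P n k α Y → f * Y = Y * f) (S : Matrix (Fin m) (Fin m) ℂ)
    (hS : S.transpose = -S) :
    ∃ Y, Inv P n k α Y 0 ∧ f * Y = Y * f ∧ ent F σ Y = U * S * V := by
  have h1 : ∀ i j, U * rot i j * V ∈ (Com_G P n k α f).map (ent F σ) := by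
    intro i j
    by_cases hij : i = j
    · subst hij
      have h2 : rot i i = 0 := by
        unfold rot
        rw [sub_self]
      rw [h2, mul_zero, zero_mul]
      exact Submodule.zero_mem _
    · obtain ⟨l, hl⟩ : ∃ l, l ∉ ({i, j} : Finset (Fin m)) := by
        by_contra hcon
        push Not at hcon
        have h3 : (Finset.univ : Finset (Fin m)) ⊆ {i, j} := fun l _ => hcon l
        have h4 := Finset.card_le_card h3
        rw [Finset.card_univ, Fintype.card_fin] at h4
        have h5 := Finset.card_le_two (a := i) (b := j)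
        omega
      rw [Finset.mem_insert, Finset.mem_singleton, not_or] at hl
      obtain ⟨A, hA, hA'⟩ := hrot i l
      obtain ⟨B, hB, hB'⟩ := hrot l j
      refine ⟨A * B - B * A, ⟨Com_br hA hB, hbr _ ⟨A, B, 0, 0, hA, hB, rfl⟩⟩, ?_⟩
      rw [map_sub, ent_mul F σ A B (Com_comm F hB), ent_mul F σ B A (Com_comm F hA), hA', hB']
      have h2 : ∀ M N : Matrix (Fin m) (Fin m) ℂ, U * M * V * (U * N * V) = U * (M * N) * V := by
        intro M N
        calc U * M * V * (U * N * V) = U * M * (V * U) * N * V := by simp only [mul_assoc]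
          _ = U * (M * N) * V := by rw [hVU, mul_one]; simp only [mul_assoc]
      rw [h2, h2, ← sub_mul, ← mul_sub, Com_rot i j l hij (Ne.symm hl.1) hl.2]
  have h2 : U * S * V ∈ (Com_G P n k α f).map (ent F σ) := by
    rw [Com_skew S hS, Finset.mul_sum, Finset.sum_mul]
    refine Submodule.sum_mem _ fun i _ => ?_
    rw [Finset.mul_sum, Finset.sum_mul]
    refine Submodule.sum_mem _ fun j _ => ?_
    rw [mul_smul_comm, smul_mul_assoc]
    exact Submodule.smul_mem _ _ (h1 i j)
  obtain ⟨Y, hY, hY'⟩ := h2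
  exact ⟨Y, hY.1, hY.2, hY'⟩

end main

theorem thm_Com (hItw : St_Itw) (hTwi : St_Twi) : St_Com := by
  intro κ _ _ ϖ P L _ _ m F n k α hm hϖ hB hA σ₀ U V hUV hVU hrot hconf f hf hbr hcen
  -- every place
  have hpl : ∀ σ : L →+* ℂ, ∀ X, Inv P n k α X 0 → ∃ (a : ℂ) (Y : Module.End ℂ (κ → ℂ)),
      Inv P n k α Y 0 ∧ f * Y = Y * f ∧ ent F σ X = a • (1 : Matrix (Fin m) (Fin m) ℂ) +
        ent F σ Y := by
    intro σ X hX
    obtain ⟨τ, hτ⟩ := Pool.Agent.Helper84.exists_aut σ₀ σ
    have hτ' : ((τ.symm : ℂ ≃+* ℂ) : ℂ →+* ℂ).comp σ = σ₀ := by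
      rw [← hτ]
      ext x
      show τ.symm (τ (σ₀ x)) = σ₀ x
      exact τ.symm_apply_apply _
    have h1 : (ent F σ X).map τ.symm ∈ sAt n k α F σ₀ := by
      have h := (hTwi κ ϖ P L m F n k α hϖ hB τ.symm σ (ent F σ X)).1 ⟨X, hX, rfl⟩
      rwa [hτ'] at h
    obtain ⟨c, S, hS, hc⟩ := hconf _ h1
    have hmap : ∀ M : Matrix (Fin m) (Fin m) ℂ, M.map τ = τ.mapMatrix M := fun _ => rfl
    have h2 : ent F σ X = τ c • (1 : Matrix (Fin m) (Fin m) ℂ) +
        U.map τ * S.map τ * V.map τ := by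
      have h3 : ((ent F σ X).map τ.symm).map τ = ent F σ X := by
        ext a b
        exact τ.apply_symm_apply _
      rw [← h3, hc]
      have h4 : c • (1 : Matrix (Fin m) (Fin m) ℂ) = Matrix.scalar (Fin m) c := by
        rw [Matrix.scalar_apply, Matrix.smul_one_eq_diagonal]
      rw [hmap, map_add, map_mul, map_mul]
      congr 1
      ext a b
      show τ (c • (1 : Matrix (Fin m) (Fin m) ℂ) a b) =
        τ c • (1 : Matrix (Fin m) (Fin m) ℂ) a b
      rw [smul_eq_mul, smul_eq_mul, map_mul, Matrix.one_apply]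
      split_ifs <;> simp
    have h5 : ∀ i j, U.map τ * rot i j * V.map τ ∈ sAt n k α F σ := by
      intro i j
      have h := (hTwi κ ϖ P L m F n k α hϖ hB τ σ₀ _).1 (hrot i j)
      rw [hτ, hmap, map_mul, map_mul] at h
      have h6 : τ.mapMatrix (rot i j) = rot i j := by
        unfold rot
        rw [map_sub]
        congr 1
        · ext a b
          show τ (Matrix.single i j (1 : ℂ) a b) = _
          rw [Matrix.single_apply]
          split_ifs <;> simp
        · ext a b
          show τ (Matrix.single j i (1 : ℂ) a b) = _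
          rw [Matrix.single_apply]
          split_ifs <;> simp
      rw [h6] at h
      exact h
    have h7 : V.map τ * U.map τ = 1 := by
      rw [hmap, hmap, ← map_mul, hVU, map_one]
    have h8 : (S.map τ).transpose = -(S.map τ) := by
      ext a b
      have h9 := congrFun (congrFun hS a) b
      rw [Matrix.transpose_apply, Matrix.neg_apply] at h9
      show τ (S b a) = -τ (S a b)
      rw [h9, map_neg]
    obtain ⟨Y, hY1, hY2, hY3⟩ := Com_loc F hm σ _ _ h7 h5 f hbr _ h8
    exact ⟨τ c, Y, hY1, hY2, by rw [hY3]; exact h2⟩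
  -- symmetries of multiplier zero
  have h0 : ∀ X, Inv P n k α X 0 → ∀ v, X (f v) = f (X v) := by
    intro X hX v
    have hgoal := F.ext_e (X * f) (f * X) (fun σ j => ?_) v
    · exact hgoal
    obtain ⟨a, Y, hY1, hY2, hY3⟩ := hpl σ X hX
    -- the same relation at the embeddings which agree with `σ` on the centre
    have hτ : ∀ τ, Ag F σ τ → ∀ i, X (F.e τ i) = a • F.e τ i + Y (F.e τ i) := by
      intro τ hAg i
      obtain ⟨T, T', hT1, hT2, hT3⟩ := hItw κ ϖ P L m F n k α hϖ hB hA σ τ hAg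
      have e1 := hT3 X 0 hX
      have e2 := hT3 Y 0 hY1
      have e3 : ent F τ X = a • (1 : Matrix (Fin m) (Fin m) ℂ) + ent F τ Y := by
        have e4 : (ent F τ X - (a • (1 : Matrix (Fin m) (Fin m) ℂ) + ent F τ Y)) * T = 0 := by
          rw [sub_mul, add_mul, e1, e2, hY3, mul_add, smul_mul_assoc, one_mul, mul_smul_comm,
            mul_one, sub_self]
        have e5 : (ent F τ X - (a • (1 : Matrix (Fin m) (Fin m) ℂ) + ent F τ Y)) * T * T' = 0 := by
          rw [e4, zero_mul]
        rw [mul_assoc, hT1, mul_one] at e5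
        exact sub_eq_zero.1 e5
      rw [ent_act F τ X (Com_comm F hX) i, ent_act F τ Y (Com_comm F hY1) i, e3]
      simp only [Matrix.add_apply, add_smul, Finset.sum_add_distrib]
      congr 1
      rw [Finset.sum_eq_single i]
      · simp
      · intro b _ hb
        simp [hb]
      · intro h
        exact absurd (Finset.mem_univ _) h
    -- `f` maps the eigenspace of `σ` to the sum of these eigenspaces
    have hfe : ∀ τ i, F.co τ i (f (F.e σ j)) ≠ 0 → Ag F σ τ := by
      intro τ i hne x hx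
      have h1 : f (F.ρ x (F.e σ j)) = F.ρ x (f (F.e σ j)) := by
        have h := hcen x hx
        exact LinearMap.congr_fun h (F.e σ j)
      rw [F.rho_e, map_smul] at h1
      have h2 := congrArg (F.co τ i) h1
      have h3 : F.co τ i (F.ρ x (f (F.e σ j))) = τ x * F.co τ i (f (F.e σ j)) := by
        have h4 : ∀ w, F.co τ i (F.ρ x w) = (τ x • F.co τ i) w := by
          intro w
          refine F.ext_e ((F.co τ i).comp (F.ρ x)) (τ x • F.co τ i) (fun τ' i' => ?_) w
          rw [LinearMap.comp_apply, F.rho_e, map_smul, LinearMap.smul_apply, F.co_e]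
          split_ifs with h5
          · rw [h5.1]
          · simp
        rw [h4]
        rfl
      rw [h3, map_smul, smul_eq_mul] at h2
      exact mul_right_cancel₀ hne h2
    have hXf : X (f (F.e σ j)) = a • f (F.e σ j) + Y (f (F.e σ j)) := by
      have h1 : ∀ Z : Module.End ℂ (κ → ℂ), Z (f (F.e σ j)) =
          ∑ τ, ∑ i, F.co τ i (f (F.e σ j)) • Z (F.e τ i) := by
        intro Z
        conv_lhs => rw [F.hsum (f (F.e σ j))]
        rw [map_sum]
        refine Finset.sum_congr rfl fun τ _ => ?_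
        rw [map_sum]
        exact Finset.sum_congr rfl fun i _ => by rw [map_smul]
      have h2 : X (f (F.e σ j)) = (a • (1 : Module.End ℂ (κ → ℂ)) + Y) (f (F.e σ j)) := by
        rw [h1 X, h1 (a • (1 : Module.End ℂ (κ → ℂ)) + Y)]
        refine Finset.sum_congr rfl fun τ _ => Finset.sum_congr rfl fun i _ => ?_
        by_cases h3 : F.co τ i (f (F.e σ j)) = 0
        · rw [h3, zero_smul, zero_smul]
        · rw [hτ τ (hfe τ i h3) i]
          rfl
      rw [h2]
      rfl
    have hYf : Y (f (F.e σ j)) = f (Y (F.e σ j)) := (LinearMap.congr_fun hY2 (F.e σ j)).symm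
    show X (f (F.e σ j)) = f (X (F.e σ j))
    rw [hXf, hτ σ (fun _ _ => rfl) j, map_add, map_smul, hYf]
  -- all symmetries
  refine isDRB_of_comm P P f hf fun D v => ?_
  have hN : Inv P n k α (P.N D) (D ϖ / ϖ) :=
    isInv_N (fun _ : Unit => n) (fun _ => P) α hϖ hB hA D
  have h1 := h0 _ (by
    have h := Com_add hN (Com_smul (-(D ϖ / ϖ)) (Com_hom (P := P) (n := n) (k := k) (α := α)))
    rwa [mul_one, add_neg_cancel] at h) v
  have h2 : ∀ w, (P.N D + (-(D ϖ / ϖ)) • (1 / 2 : ℂ) • (1 : Module.End ℂ (κ → ℂ))) w =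
      P.N D w + (-(D ϖ / ϖ)) • (1 / 2 : ℂ) • w := fun _ => rfl
  rw [h2, h2, map_add, map_smul, map_smul] at h1
  exact add_right_cancel h1

end KT2
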