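import Pool.Agent.KT2.St

/-!
# KT2: the centre is not real
-/

set_option autoImplicit false

namespace KT2

open Module Matrix NumberField Pool.Agent.Helper7

theorem thm_Cxc : St_Cxc := by
  intro κ _ _ ϖ P L _ _ m F hϖ hNA σ hσ
  apply hNA
  classical
  choose θ0 hθ1 hθ2 using fun (f : Module.End ℂ (κ → ℂ)) (hf : IsDRB P P f) =>
    Pool.Agent.Helper71.AF.exists_adj P hϖ f hf
  have huniq : ∀ f g g' : Module.End ℂ (κ → ℂ), (∀ u v, P.ψ (f u) v = P.ψ u (g v)) →
      (∀ u v, P.ψ (f u) v = P.ψ u (g' v)) → g = g' := by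
    intro f g g' h h'
    apply LinearMap.ext
    intro v
    rw [← sub_eq_zero]
    apply Pool.Agent.Helper71.AF.ndr P
    intro u
    rw [map_sub, ← h, ← h', sub_self]
  refine ⟨fun f => if hf : IsDRB P P f then θ0 f hf else 0, ?_, ?_, ?_⟩
  · intro f hf
    show IsDRB P P (if hf : IsDRB P P f then θ0 f hf else 0)
    rw [dif_pos hf]
    exact hθ1 f hf
  · intro f h hf hh
    have hfh : IsDRB P P (f * h) := (Pool.Agent.Helper71.AF.DD P).mul_mem hf hh
    have hfh' : IsDRB P P (f + h) := (Pool.Agent.Helper71.AF.DD P).add_mem hf hh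
    show (if hf : IsDRB P P (f * h) then θ0 (f * h) hf else 0) =
        (if hf : IsDRB P P h then θ0 h hf else 0) * (if hf : IsDRB P P f then θ0 f hf else 0) ∧
      (if hf : IsDRB P P (f + h) then θ0 (f + h) hf else 0) =
        (if hf : IsDRB P P f then θ0 f hf else 0) + (if hf : IsDRB P P h then θ0 h hf else 0)
    rw [dif_pos hfh, dif_pos hfh', dif_pos hf, dif_pos hh]
    constructor
    · refine huniq (f * h) _ _ (hθ2 _ hfh) fun u v => ?_
      rw [Module.End.mul_apply, Module.End.mul_apply, hθ2 f hf, hθ2 h hh]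
    · refine huniq (f + h) _ _ (hθ2 _ hfh') fun u v => ?_
      rw [LinearMap.add_apply, LinearMap.add_apply, map_add, map_add, LinearMap.add_apply,
        hθ2 f hf, hθ2 h hh]
  · intro x hx
    have hcx : F.cc x = x := by
      apply σ.injective
      rw [F.hcc, ← ComplexEmbedding.conjugate_coe_eq]
      exact (hσ x hx).symm
    show (if hf : IsDRB P P (F.ρ x) then θ0 (F.ρ x) hf else 0) = F.ρ x
    rw [dif_pos (F.hρ x)]
    refine huniq (F.ρ x) _ _ (hθ2 _ (F.hρ x)) fun u v => ?_
    rw [F.hros, hcx]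

end KT2
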