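import Pool.Agent.KT2.Fam
import Pool.Agent.KT2.St2

/-!
# KT2 FAD: the first fundamental theorem for the powers, complementary degrees
-/

set_option autoImplicit false

namespace KT2

open Module Matrix NumberField Pool.Agent.Helper7
open Pool.Agent.Helper8.D (ent)
open PSQ (W Inv BetR DRA)

/-- the end of the proof of `thm_Fam`: from the general linear Lie algebras to pairings -/
theorem Fad_end (hFfp : St_Ffp) (κ : Type) [Fintype κ] [DecidableEq κ] (ϖ : ℂ) (P : PData κ ϖ)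
    (n k m : ℕ) (α : MultilinearMap ℂ (fun _ : Fin (2 * k) => W κ n) ℂ) (T S : Type) [Fintype T]
    [DecidableEq T] [Fintype S] [DecidableEq S] (pl : T → S)
    (e : Basis (Bool × T × Fin m) ℂ (κ → ℂ)) (hF : Frame n k α pl e P)
    (hG : GlK (fun t : Fin n × T => pl t.2) (Fam_basis κ n m T e) α) :
    α ∈ Submodule.span ℂ {M | ∃ (π : Equiv.Perm (Fin (2 * k)))
      (β : Fin k → (W κ n →ₗ[ℂ] W κ n →ₗ[ℂ] ℂ)),
      (∀ a, β a ∈ invB (fun _ : Unit => n) (fun _ => P) α) ∧
        M = (prodBilin β).domDomCongr π} := by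
  have hα := hFfp (W κ n) (Fin n × T) S m (2 * k) (fun t : Fin n × T => pl t.2)
    (Fam_basis κ n m T e) α hG
  have hsub : {Φ | PP {β : W κ n →ₗ[ℂ] W κ n →ₗ[ℂ] ℂ | ∃ t t' : Fin n × T,
      pl t.2 = pl t'.2 ∧ ∀ u v,
      β u v = ∑ i, (Fam_basis κ n m T e).repr u (true, t, i) *
        (Fam_basis κ n m T e).repr v (false, t', i)} Finset.univ Φ} ⊆
      (Fam_coe (2 * k) (W κ n)) '' {M | ∃ (π : Equiv.Perm (Fin (2 * k)))
        (β : Fin k → (W κ n →ₗ[ℂ] W κ n →ₗ[ℂ] ℂ)),
        (∀ a, β a ∈ invB (fun _ : Unit => n) (fun _ => P) α) ∧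
        M = (prodBilin β).domDomCongr π} := by
    intro Φ hΦ
    obtain ⟨π, β, hβ, hΦ'⟩ := PP.exists_perm hΦ
    refine ⟨(prodBilin β).domDomCongr π, ⟨π, β, fun a => ?_, rfl⟩, hΦ'.symm⟩
    obtain ⟨⟨p, μ⟩, ⟨p', μ'⟩, hμ, hb⟩ := hβ a
    have hμ2 : pl μ = pl μ' := hμ
    intro X hX u v
    obtain ⟨y, hyt, hyf⟩ := hF.act (X.1 ()) X.2 hX
    rw [hb, hb, hb]
    simp only [Fam_basis_repr]
    have e1 : ∀ w : W κ n, ∀ m'' : Fin n, lift (fun _ : Unit => n) X.1 w () m'' =
        X.1 () (w () m'') := fun w m'' => rfl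
    simp only [e1, Fam_coord_t pl e _ _ y hyt hyf, Fam_coord_f pl e _ _ y hyt hyf, hμ2]
    simp only [Finset.sum_mul, mul_sub, Finset.mul_sum, Finset.sum_sub_distrib]
    rw [Finset.sum_comm]
    have e2 : ∀ a b c d : ℂ, a = d → b = c → a + (b - d) = c := by
      intro a b c d h h'; rw [h, h']; ring
    refine e2 _ _ _ _ ?_ ?_
    · refine Finset.sum_congr rfl fun i _ => Finset.sum_congr rfl fun j _ => ?_
      ring
    · refine Finset.sum_congr rfl fun i _ => ?_
      ring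
  have h3 := Submodule.span_mono hsub hα
  rw [← Submodule.map_span] at h3
  obtain ⟨M, hM, hMα⟩ := h3
  have h4 : M = α := MultilinearMap.ext fun v => congrFun hMα v
  rw [h4] at hM
  exact hM

theorem thm_Fad (hWgd : St_Wgd) (hFfp : St_Ffp) : St_Fad := by
  intro κ _ _ ϖ P n k m α T S _ _ _ _ pl e hm hF hlt
  refine Fad_end hFfp κ ϖ P n k m _ T S pl e hF ?_
  have hcard : Fintype.card κ = 2 * (Fintype.card T * m) := by
    have h1 := Module.finrank_eq_card_basis e
    rw [Module.finrank_fintype_fun_eq_card, Fintype.card_prod, Fintype.card_prod, Fintype.card_bool,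
      Fintype.card_fin] at h1
    exact h1
  refine hWgd (W κ n) (Fin n × T) S m (2 * k) (fun t : Fin n × T => pl t.2)
    (Fam_basis κ n m T e) α hm (even_two_mul k) ?_ ?_
  · rw [Fintype.card_prod, Fintype.card_fin]
    rw [hcard] at hlt
    have h2 : 2 * (n * Fintype.card T * m) = n * (2 * (Fintype.card T * m)) := by ring
    rw [h2]
    exact hlt
  · intro y L hy hLt hLf
    obtain ⟨X, hX, hXt⟩ := Fam_sl hF y hy
    exact Fam_kill hF y X hX hXt L hLt hLf

end KT2
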