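import Pool.Agent.KT2.St

/-!
# KT2: the first fundamental theorem for the powers
-/

set_option autoImplicit false

namespace KT2

open Matrix Module Pool.Agent.Helper7
open PSQ (W Inv BetR DRA)

/-- the reindexing -/
def Fam_eqv (n m : ℕ) (T : Type) : (Σ _ : Unit, Σ _ : Fin n, Bool × T × Fin m) ≃
    (Bool × (Fin n × T) × Fin m) where
  toFun x := (x.2.2.1, (x.2.1, x.2.2.2.1), x.2.2.2.2)
  invFun x := ⟨(), x.2.1.1, (x.1, x.2.1.2, x.2.2)⟩
  left_inv _ := rfl
  right_inv _ := rfl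

/-- the basis of the power -/
noncomputable def Fam_basis (κ : Type) [Fintype κ] (n m : ℕ) (T : Type)
    (e : Basis (Bool × T × Fin m) ℂ (κ → ℂ)) :
    Basis (Bool × (Fin n × T) × Fin m) ℂ (W κ n) :=
  ((Pi.basis (fun _ : Unit => Pi.basis (fun _ : Fin n => e))).reindex (Fam_eqv n m T))

lemma Fam_basis_apply (κ : Type) [Fintype κ] (n m : ℕ) (T : Type)
    (e : Basis (Bool × T × Fin m) ℂ (κ → ℂ)) (s : Bool) (a : Fin n) (t : T) (i : Fin m) :
    Fam_basis κ n m T e (s, (a, t), i) = slotL (fun _ : Unit => n) () a (e (s, t, i)) := by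
  unfold Fam_basis
  rw [Basis.reindex_apply]
  show (Pi.basis (fun _ : Unit => Pi.basis (fun _ : Fin n => e))) ⟨(), a, (s, t, i)⟩ =
    slot (fun _ : Unit => n) () a (e (s, t, i))
  simp [slot]

lemma Fam_basis_repr (κ : Type) [Fintype κ] (n m : ℕ) (T : Type)
    (e : Basis (Bool × T × Fin m) ℂ (κ → ℂ)) (s : Bool) (a : Fin n) (t : T) (i : Fin m)
    (v : W κ n) :
    (Fam_basis κ n m T e).repr v (s, (a, t), i) = e.repr (v () a) (s, t, i) := by
  unfold Fam_basis
  rw [Basis.repr_reindex_apply]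
  show (Pi.basis (fun _ : Unit => Pi.basis (fun _ : Fin n => e))).repr v ⟨(), a, (s, t, i)⟩ = _
  rw [Pi.basis_repr, Pi.basis_repr]

lemma Fam_coord_t {κ : Type} [Fintype κ] {m : ℕ} {T S : Type} [DecidableEq T] (pl : T → S)
    (e : Basis (Bool × T × Fin m) ℂ (κ → ℂ)) (X : Module.End ℂ (κ → ℂ)) (c : ℂ)
    (y : S → Matrix (Fin m) (Fin m) ℂ)
    (ht : ∀ t j, X (e (true, t, j)) = ∑ i, y (pl t) i j • e (true, t, i))
    (hf : ∀ t i, X (e (false, t, i)) = c • e (false, t, i) - ∑ j, y (pl t) i j • e (false, t, j))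
    (w : κ → ℂ) (t : T) (i : Fin m) :
    e.repr (X w) (true, t, i) = ∑ j, y (pl t) i j * e.repr w (true, t, j) := by
  have h : (e.coord (true, t, i)) ∘ₗ X = ∑ j, y (pl t) i j • e.coord (true, t, j) := by
    refine e.ext ?_
    rintro ⟨s, t', j'⟩
    rw [LinearMap.comp_apply, LinearMap.sum_apply]
    cases s
    · rw [hf]
      simp
    · rw [ht]
      simp only [map_sum, map_smul, Basis.coord_apply, Basis.repr_self, Finsupp.single_apply,
        LinearMap.smul_apply, smul_eq_mul, Prod.mk.injEq, true_and]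
      by_cases hμ : t' = t
      · subst hμ
        simp
      · simp [hμ]
  have h2 := LinearMap.congr_fun h w
  rw [LinearMap.comp_apply, LinearMap.sum_apply] at h2
  exact h2

lemma Fam_coord_f {κ : Type} [Fintype κ] {m : ℕ} {T S : Type} [DecidableEq T] (pl : T → S)
    (e : Basis (Bool × T × Fin m) ℂ (κ → ℂ)) (X : Module.End ℂ (κ → ℂ)) (c : ℂ)
    (y : S → Matrix (Fin m) (Fin m) ℂ)
    (ht : ∀ t j, X (e (true, t, j)) = ∑ i, y (pl t) i j • e (true, t, i))
    (hf : ∀ t i, X (e (false, t, i)) = c • e (false, t, i) - ∑ j, y (pl t) i j • e (false, t, j))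
    (w : κ → ℂ) (t : T) (i : Fin m) :
    e.repr (X w) (false, t, i) = c * e.repr w (false, t, i) -
      ∑ j, y (pl t) j i * e.repr w (false, t, j) := by
  have h : (e.coord (false, t, i)) ∘ₗ X = c • e.coord (false, t, i) -
      ∑ j, y (pl t) j i • e.coord (false, t, j) := by
    refine e.ext ?_
    rintro ⟨s, t', j'⟩
    rw [LinearMap.comp_apply, LinearMap.sub_apply, LinearMap.sum_apply]
    cases s
    · rw [hf]
      simp only [map_sum, map_smul, map_sub, Basis.coord_apply, Basis.repr_self,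
        Finsupp.single_apply, LinearMap.smul_apply, smul_eq_mul, Prod.mk.injEq, true_and]
      by_cases hμ : t' = t
      · subst hμ
        simp
      · simp [hμ]
    · rw [ht]
      simp
  have h2 := LinearMap.congr_fun h w
  rw [LinearMap.comp_apply, LinearMap.sub_apply, LinearMap.sum_apply] at h2
  exact h2

/-- multilinear maps as functions -/
def Fam_coe (N : ℕ) (U : Type) [AddCommGroup U] [Module ℂ U] :
    MultilinearMap ℂ (fun _ : Fin N => U) ℂ →ₗ[ℂ] ((Fin N → U) → ℂ) where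
  toFun M := fun v => M v
  map_add' _ _ := rfl
  map_smul' _ _ := rfl

section

variable {κ : Type} [Fintype κ] [DecidableEq κ] {ϖ : ℂ} {P : PData κ ϖ} {n k : ℕ}
  {α : MultilinearMap ℂ (fun _ : Fin (2 * k) => W κ n) ℂ}

lemma Fam_add {X Y : Module.End ℂ (κ → ℂ)} (hX : Inv P n k α X 0) (hY : Inv P n k α Y 0) :
    Inv P n k α (X + Y) 0 := by
  have h := IsInv.add _ _ _ hX hY
  have e : ((fun _ : Unit => X + Y, (0 : ℂ)) : GG (fun _ : Unit => κ)) =
      ((fun _ => X, (0 : ℂ)) : GG (fun _ : Unit => κ)) + (fun _ => Y, (0 : ℂ)) := by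
    refine Prod.ext rfl ?_
    show (0 : ℂ) = 0 + 0
    rw [add_zero]
  show IsInv _ _ _ _
  rw [e]
  exact h

lemma Fam_smul (c : ℂ) {X : Module.End ℂ (κ → ℂ)} (hX : Inv P n k α X 0) :
    Inv P n k α (c • X) 0 := by
  have h := IsInv.smul (fun _ : Unit => n) (fun _ => P) α c hX
  have e : ((fun _ : Unit => c • X, (0 : ℂ)) : GG (fun _ : Unit => κ)) =
      c • ((fun _ => X, (0 : ℂ)) : GG (fun _ : Unit => κ)) := by
    refine Prod.ext rfl ?_
    show (0 : ℂ) = c • 0
    rw [smul_zero]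
  show IsInv _ _ _ _
  rw [e]
  exact h

lemma Fam_zero : Inv P n k α (0 : Module.End ℂ (κ → ℂ)) 0 :=
  IsInv.zero (fun _ : Unit => n) (fun _ => P) α

lemma Fam_sum {S : Type} (s : Finset S) (X : S → Module.End ℂ (κ → ℂ))
    (hX : ∀ a, Inv P n k α (X a) 0) : Inv P n k α (∑ a ∈ s, X a) 0 := by
  classical
  induction s using Finset.induction_on with
  | empty =>
    rw [Finset.sum_empty]
    exact Fam_zero
  | insert a s ha ih =>
    rw [Finset.sum_insert ha]
    exact Fam_add (hX a) ih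

/-- the operators of the frame on the power kill the form -/
lemma Fam_kill {m : ℕ} {T S : Type} [Fintype T] [DecidableEq T] [Fintype S] [DecidableEq S]
    {pl : T → S} {e : Basis (Bool × T × Fin m) ℂ (κ → ℂ)} (hF : Frame n k α pl e P)
    (y : S → Matrix (Fin m) (Fin m) ℂ) (X : Module.End ℂ (κ → ℂ)) (hX : Inv P n k α X 0)
    (hXt : ∀ t j, X (e (true, t, j)) = ∑ i, y (pl t) i j • e (true, t, i))
    (L : Module.End ℂ (W κ n))
    (hLt : ∀ t j, L (Fam_basis κ n m T e (true, t, j)) =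
      ∑ i, y (pl t.2) i j • Fam_basis κ n m T e (true, t, i))
    (hLf : ∀ t i, L (Fam_basis κ n m T e (false, t, i)) =
      -∑ j, y (pl t.2) i j • Fam_basis κ n m T e (false, t, j)) : actForm L α = 0 := by
  obtain ⟨y', hy't, hy'f⟩ := hF.act X 0 hX
  have hyy : ∀ t, y' (pl t) = y (pl t) := by
    intro t
    ext i j
    have h3 := congrArg (fun w => e.repr w (true, t, i)) ((hy't t j).symm.trans (hXt t j))
    simpa [Finsupp.single_apply] using h3
  have hL : L = lift (fun _ : Unit => n) (fun _ => X) := by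
    refine (Fam_basis κ n m T e).ext ?_
    rintro ⟨s, ⟨a, t⟩, i⟩
    cases s
    · rw [hLf, Fam_basis_apply, lift_slot, hy'f, zero_smul, zero_sub, map_neg, map_sum, hyy]
      simp only [Fam_basis_apply, map_smul]
    · rw [hLt, Fam_basis_apply, lift_slot, hXt, map_sum]
      simp only [Fam_basis_apply, map_smul]
  rw [hL]
  have h4 := hX.form
  have h5 : actForm (lift (fun _ : Unit => n) (fun _ => X)) α = ((k : ℂ) * 0) • α := h4
  rw [h5, mul_zero, zero_smul]

/-- the symmetry with given matrices of trace zero -/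
lemma Fam_sl {m : ℕ} {T S : Type} [Fintype T] [DecidableEq T] [Fintype S] [DecidableEq S]
    {pl : T → S} {e : Basis (Bool × T × Fin m) ℂ (κ → ℂ)} (hF : Frame n k α pl e P)
    (y : S → Matrix (Fin m) (Fin m) ℂ) (hy : ∀ s, (y s).trace = 0) :
    ∃ X, Inv P n k α X 0 ∧ ∀ t j, X (e (true, t, j)) = ∑ i, y (pl t) i j • e (true, t, i) := by
  choose X hX hXt using fun s => hF.sl s (y s) (hy s)
  refine ⟨∑ s, X s, Fam_sum _ X hX, fun t j => ?_⟩
  rw [LinearMap.sum_apply]
  simp only [hXt]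
  rw [Finset.sum_ite_eq]
  simp

/-- the symmetry with given matrices -/
lemma Fam_gl {m : ℕ} {T S : Type} [Fintype T] [DecidableEq T] [Fintype S] [DecidableEq S]
    {pl : T → S} {e : Basis (Bool × T × Fin m) ℂ (κ → ℂ)} (hm : 1 ≤ m)
    (hF : Frame n k α pl e P)
    (h : ∀ (s : S), ∃ X, Inv P n k α X 0 ∧
      ∀ t j, X (e (true, t, j)) = if pl t = s then e (true, t, j) else 0)
    (y : S → Matrix (Fin m) (Fin m) ℂ) :
    ∃ X, Inv P n k α X 0 ∧ ∀ t j, X (e (true, t, j)) = ∑ i, y (pl t) i j • e (true, t, i) := by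
  let c : S → ℂ := fun s => (y s).trace / m
  have hm0 : (m : ℂ) ≠ 0 := by
    have : m ≠ 0 := by omega
    exact_mod_cast this
  obtain ⟨X, hX, hXt⟩ := Fam_sl hF (fun s => y s - c s • (1 : Matrix (Fin m) (Fin m) ℂ))
    (fun s => by
      rw [Matrix.trace_sub, Matrix.trace_smul, Matrix.trace_one, Fintype.card_fin]
      show (y s).trace - (y s).trace / m * m = 0
      rw [div_mul_cancel₀ _ hm0, sub_self])
  choose Z hZ hZt using h
  refine ⟨X + ∑ s, c s • Z s, Fam_add hX (Fam_sum _ (fun s => c s • Z s)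
    fun s => Fam_smul (c s) (hZ s)), fun t j => ?_⟩
  rw [LinearMap.add_apply, LinearMap.sum_apply, hXt]
  simp only [LinearMap.smul_apply, hZt, smul_ite, smul_zero]
  rw [Finset.sum_ite_eq]
  simp only [Finset.mem_univ, if_true]
  have h1 : ∀ i, (y (pl t) - c (pl t) • (1 : Matrix (Fin m) (Fin m) ℂ)) i j • e (true, t, i) =
      y (pl t) i j • e (true, t, i) - (if i = j then c (pl t) • e (true, t, i) else 0) := by
    intro i
    rw [Matrix.sub_apply, Matrix.smul_apply, sub_smul, Matrix.one_apply]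
    by_cases hij : i = j
    · simp [hij]
    · simp [hij]
  simp only [h1]
  rw [Finset.sum_sub_distrib, Finset.sum_ite_eq']
  simp

end

theorem thm_Fam (hWgt : St_Wgt) (hFfp : St_Ffp) : St_Fam := by
  intro κ _ _ ϖ P n k m α T S _ _ _ _ pl e hm hF hcase
  have hG : GlK (fun t : Fin n × T => pl t.2) (Fam_basis κ n m T e) α := by
    rcases hcase with hlt | hX
    · refine hWgt (W κ n) (Fin n × T) S m (2 * k) (fun t : Fin n × T => pl t.2)
        (Fam_basis κ n m T e) α hm (even_two_mul k) hlt ?_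
      intro y L hy hLt hLf
      obtain ⟨X, hX, hXt⟩ := Fam_sl hF y hy
      exact Fam_kill hF y X hX hXt L hLt hLf
    · intro y L hLt hLf
      obtain ⟨X, hX, hXt⟩ := Fam_gl hm hF hX y
      exact Fam_kill hF y X hX hXt L hLt hLf
  have hα := hFfp (W κ n) (Fin n × T) S m (2 * k) (fun t : Fin n × T => pl t.2)
    (Fam_basis κ n m T e) α hG
  have hsub : {Φ | PP {β : W κ n →ₗ[ℂ] W κ n →ₗ[ℂ] ℂ | ∃ t t' : Fin n × T,
      pl t.2 = pl t'.2 ∧ ∀ u v,
      β u v = ∑ i, (Fam_basis κ n m T e).repr u (true, t, i) *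
        (Fam_basis κ n m T e).repr v (false, t', i)} Finset.univ Φ} ⊆
      (Fam_coe (2 * k) (W κ n)) '' {M | ∃ (π : Equiv.Perm (Fin (2 * k)))
        (β : Fin k → (W κ n →ₗ[ℂ] W κ n →ₗ[ℂ] ℂ)),
        (∀ a, β a ∈ invB (fun _ : Unit => n) (fun _ => P) α) ∧
        M = (prodBilin β).domDomCongr π} := by
    intro Φ hΦ
    obtain ⟨π, β, hβ, hΦ'⟩ := PP.exists_perm hΦ
    refine ⟨(prodBilin β).domDomCongr π, ⟨π, β, fun a => ?_, rfl⟩, hΦ'.symm⟩
    obtain ⟨⟨p, μ⟩, ⟨p', μ'⟩, hμ, hb⟩ := hβ a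
    have hμ2 : pl μ = pl μ' := hμ
    intro X hX u v
    obtain ⟨y, hyt, hyf⟩ := hF.act (X.1 ()) X.2 hX
    rw [hb, hb, hb]
    simp only [Fam_basis_repr]
    have e1 : ∀ w : W κ n, ∀ m'' : Fin n, lift (fun _ : Unit => n) X.1 w () m'' =
        X.1 () (w () m'') := fun w m'' => rfl
    simp only [e1, Fam_coord_t pl e _ _ y hyt hyf, Fam_coord_f pl e _ _ y hyt hyf, hμ2]
    simp only [Finset.sum_mul, mul_sub, Finset.mul_sum, Finset.sum_sub_distrib]
    rw [Finset.sum_comm]
    have e2 : ∀ a b c d : ℂ, a = d → b = c → a + (b - d) = c := by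
      intro a b c d h h'; rw [h, h']; ring
    refine e2 _ _ _ _ ?_ ?_
    · refine Finset.sum_congr rfl fun i _ => Finset.sum_congr rfl fun j _ => ?_
      ring
    · refine Finset.sum_congr rfl fun i _ => ?_
      ring
  have h3 := Submodule.span_mono hsub hα
  rw [← Submodule.map_span] at h3
  obtain ⟨M, hM, hMα⟩ := h3
  have h4 : M = α := MultilinearMap.ext fun v => congrFun hMα v
  rw [h4] at hM
  exact hM

end KT2
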