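import Pool.Agent.KT2.St
import Pool.Agent.KTP.Wrd

/-!
# KT2 [Ffp]: the first fundamental theorem for the product of general linear groups
-/

set_option autoImplicit false
set_option linter.unusedSectionVars false

namespace KT2

open Module Matrix Pool.Agent.Helper7

/-! ### products of pairings -/

section PP

variable {V : Type} [AddCommGroup V] [Module ℂ V] {R : Type} [Fintype R] [DecidableEq R]

theorem Ffp_PP_mul {𝓑 : Set (V →ₗ[ℂ] V →ₗ[ℂ] ℂ)} {A : Finset R} {Φ : (R → V) → ℂ}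
    (h : PP 𝓑 A Φ) {B : Finset R} {Ψ : (R → V) → ℂ} (h' : PP 𝓑 B Ψ) (hd : Disjoint A B) :
    PP 𝓑 (A ∪ B) (fun v => Φ v * Ψ v) := by
  induction h with
  | nil =>
    simp only [Finset.empty_union, one_mul]
    exact h'
  | @cons A Φ r r' β hβ _ hr hr' hne ih =>
    have h1 : insert r (insert r' A) ∪ B = insert r (insert r' (A ∪ B)) := by
      rw [Finset.insert_union, Finset.insert_union]
    rw [Finset.disjoint_insert_left, Finset.disjoint_insert_left] at hd
    have h2 : (fun v => β (v r) (v r') * Φ v * Ψ v) =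
        fun v => β (v r) (v r') * (Φ v * Ψ v) := by
      funext v
      ring
    rw [h1, h2]
    refine PP.cons r r' β hβ (ih hd.2.2) ?_ ?_ hne
    · rw [Finset.mem_union, not_or]
      exact ⟨hr, hd.1⟩
    · rw [Finset.mem_union, not_or]
      exact ⟨hr', hd.2.1⟩

theorem Ffp_PP_fin {𝓑 : Set (V →ₗ[ℂ] V →ₗ[ℂ] ℂ)} (h𝓑 : 𝓑.Finite) (A : Finset R) :
    {Φ : (R → V) → ℂ | PP 𝓑 A Φ}.Finite := by
  have : Finite 𝓑 := h𝓑.to_subtype
  refine (Set.finite_range (fun p : Σ k : Fin (Fintype.card R + 1),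
    ((Fin k → R) × (Fin k → R) × (Fin k → 𝓑)) => fun v : R → V =>
      ∏ x, (p.2.2.2 x).1 (v (p.2.1 x)) (v (p.2.2.1 x)))).subset ?_
  intro Φ hΦ
  obtain ⟨k, a, b, β, -, -, -, -, -, hcard, hβ, hv⟩ := PP.exists_list hΦ
  have hk : k < Fintype.card R + 1 := by
    have := Finset.card_le_univ A
    omega
  refine ⟨⟨⟨k, hk⟩, a, b, fun x => ⟨β x, hβ x⟩⟩, ?_⟩
  funext v
  exact (hv v).symm

end PP

section Frame

variable {U : Type} [AddCommGroup U] [Module ℂ U] {T S : Type} [Fintype T] [DecidableEq T]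
  [Fintype S] [DecidableEq S]

/-- the space of one place -/
abbrev Ffp_V (pl : T → S) (m : ℕ) (s : S) : Type := Bool × {t : T // pl t = s} × Fin m → ℂ

/-- its basis -/
noncomputable def Ffp_b (pl : T → S) (m : ℕ) (s : S) :
    Basis (Bool × {t : T // pl t = s} × Fin m) ℂ (Ffp_V pl m s) := Pi.basisFun ℂ _

/-- the pairings of a frame -/
def Ffp_B {V τ : Type} [AddCommGroup V] [Module ℂ V] {m : ℕ} (e : Basis (Bool × τ × Fin m) ℂ V)
    (rel : τ → τ → Prop) : Set (V →ₗ[ℂ] V →ₗ[ℂ] ℂ) :=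
  {β | ∃ t t' : τ, rel t t' ∧ ∀ u v,
    β u v = ∑ i, e.repr u (true, t, i) * e.repr v (false, t', i)}

theorem Ffp_B_fin {V τ : Type} [AddCommGroup V] [Module ℂ V] [Finite τ] {m : ℕ}
    (e : Basis (Bool × τ × Fin m) ℂ V) (rel : τ → τ → Prop) : (Ffp_B e rel).Finite := by
  classical
  have h : ∀ β : Ffp_B e rel, ∃ p : τ × τ, ∀ u v, β.1 u v =
      ∑ i, e.repr u (true, p.1, i) * e.repr v (false, p.2, i) := by
    rintro ⟨β, t, t', -, h⟩
    exact ⟨(t, t'), h⟩
  choose p hp using h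
  have hinj : Function.Injective p := by
    intro β β' h
    refine Subtype.ext (LinearMap.ext₂ fun u v => ?_)
    rw [hp β, hp β', h]
  have : Finite (Ffp_B e rel) := Finite.of_injective p hinj
  exact Set.toFinite _

variable {pl : T → S} {m : ℕ} (e : Basis (Bool × T × Fin m) ℂ U)

/-- the inclusion -/
noncomputable def Ffp_in (pl : T → S) (e : Basis (Bool × T × Fin m) ℂ U) (s : S) :
    Ffp_V pl m s →ₗ[ℂ] U :=
  (Ffp_b pl m s).constr ℂ fun q => e (q.1, q.2.1.1, q.2.2)

/-- the projection -/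
noncomputable def Ffp_pr (pl : T → S) (e : Basis (Bool × T × Fin m) ℂ U) (s : S) :
    U →ₗ[ℂ] Ffp_V pl m s :=
  LinearMap.pi fun q => e.coord (q.1, q.2.1.1, q.2.2)

theorem Ffp_in_b (s : S) (q : Bool × {t : T // pl t = s} × Fin m) :
    Ffp_in pl e s (Ffp_b pl m s q) = e (q.1, q.2.1.1, q.2.2) := by
  unfold Ffp_in
  rw [Basis.constr_basis]

theorem Ffp_pr_repr (s : S) (u : U) (q : Bool × {t : T // pl t = s} × Fin m) :
    (Ffp_b pl m s).repr (Ffp_pr pl e s u) q = e.repr u (q.1, q.2.1.1, q.2.2) := by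
  unfold Ffp_b Ffp_pr
  rw [Pi.basisFun_repr, LinearMap.pi_apply, Basis.coord_apply]

theorem Ffp_sum (u : U) : ∑ s, Ffp_in pl e s (Ffp_pr pl e s u) = u := by
  have h : ∑ s, (Ffp_in pl e s).comp (Ffp_pr pl e s) = LinearMap.id := by
    refine e.ext fun q => ?_
    obtain ⟨b, t, i⟩ := q
    rw [LinearMap.sum_apply, LinearMap.id_apply, Finset.sum_eq_single (pl t)]
    · rw [LinearMap.comp_apply]
      have h1 : Ffp_pr pl e (pl t) (e (b, t, i)) = Ffp_b pl m (pl t) (b, ⟨t, rfl⟩, i) := by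
        refine (Ffp_b pl m (pl t)).ext_elem fun q => ?_
        rw [Ffp_pr_repr, Basis.repr_self, Basis.repr_self, Finsupp.single_apply,
          Finsupp.single_apply]
        refine if_congr ?_ rfl rfl
        obtain ⟨b', ⟨t', ht'⟩, i'⟩ := q
        simp only [Prod.mk.injEq, Subtype.mk.injEq]
      rw [h1, Ffp_in_b]
    · intro s _ hs
      rw [LinearMap.comp_apply]
      have h1 : Ffp_pr pl e s (e (b, t, i)) = 0 := by
        refine (Ffp_b pl m s).ext_elem fun q => ?_
        rw [Ffp_pr_repr, Basis.repr_self, Finsupp.single_apply, map_zero, Finsupp.zero_apply,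
          if_neg]
        intro h2
        obtain ⟨b', ⟨t', ht'⟩, i'⟩ := q
        simp only [Prod.mk.injEq] at h2
        apply hs
        rw [← ht', h2.2.1]
      rw [h1, map_zero]
    · intro h
      exact absurd (Finset.mem_univ _) h
  have h1 := LinearMap.congr_fun h u
  rw [LinearMap.sum_apply, LinearMap.id_apply] at h1
  exact h1

variable {N : ℕ} {D : S → ℕ}

/-- the family of vectors of a word -/
noncomputable def Ffp_Y (W : (Σ s, Fin (D s)) ≃ Fin N) (y : ∀ s, Fin (D s) → Ffp_V pl m s) :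
    Fin N → U :=
  fun r => Ffp_in pl e (W.symm r).1 (y (W.symm r).1 (W.symm r).2)

theorem Ffp_Y_apply (W : (Σ s, Fin (D s)) ≃ Fin N) (y : ∀ s, Fin (D s) → Ffp_V pl m s) (s : S)
    (k : Fin (D s)) : Ffp_Y e W y (W ⟨s, k⟩) = Ffp_in pl e s (y s k) := by
  unfold Ffp_Y
  rw [Equiv.symm_apply_apply]

theorem Ffp_Y_update (W : (Σ s, Fin (D s)) ≃ Fin N) (y : ∀ s, Fin (D s) → Ffp_V pl m s) (s : S)
    [DecidableEq (Fin (D s))] (x : Fin (D s) → Ffp_V pl m s) (k : Fin (D s))
    (u : Ffp_V pl m s) :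
    Ffp_Y e W (Function.update y s (Function.update x k u)) =
      Function.update (Ffp_Y e W (Function.update y s x)) (W ⟨s, k⟩) (Ffp_in pl e s u) := by
  funext r
  obtain ⟨⟨j, l⟩, rfl⟩ := W.surjective r
  by_cases hj : j = s
  · subst hj
    by_cases hl : l = k
    · subst hl
      rw [Function.update_self, Ffp_Y_apply, Function.update_self, Function.update_self]
    · rw [Function.update_of_ne, Ffp_Y_apply, Ffp_Y_apply, Function.update_self,
        Function.update_self, Function.update_of_ne hl]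
      intro h
      have h1 := W.injective h
      simp only [Sigma.mk.injEq, heq_eq_eq, true_and] at h1
      exact hl h1
  · rw [Function.update_of_ne, Ffp_Y_apply, Ffp_Y_apply, Function.update_of_ne hj,
      Function.update_of_ne hj]
    intro h
    exact hj (congrArg Sigma.fst (W.injective h))

/-- the form in the slots of one place -/
noncomputable def Ffp_G (W : (Σ s, Fin (D s)) ≃ Fin N)
    (α : MultilinearMap ℂ (fun _ : Fin N => U) ℂ)
    (y : ∀ s, Fin (D s) → Ffp_V pl m s) (s : S) :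
    MultilinearMap ℂ (fun _ : Fin (D s) => Ffp_V pl m s) ℂ where
  toFun x := α (Ffp_Y e W (Function.update y s x))
  map_update_add' x k u u' := by
    rw [Ffp_Y_update, Ffp_Y_update, Ffp_Y_update, map_add, α.map_update_add]
  map_update_smul' x k a u := by
    rw [Ffp_Y_update, Ffp_Y_update, map_smul, α.map_update_smul]

theorem Ffp_G_apply (W : (Σ s, Fin (D s)) ≃ Fin N)
    (α : MultilinearMap ℂ (fun _ : Fin N => U) ℂ)
    (y : ∀ s, Fin (D s) → Ffp_V pl m s) (s : S) (x : Fin (D s) → Ffp_V pl m s) :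
    Ffp_G e W α y s x = α (Ffp_Y e W (Function.update y s x)) := rfl

theorem Ffp_inv (W : (Σ s, Fin (D s)) ≃ Fin N)
    (α : MultilinearMap ℂ (fun _ : Fin N => U) ℂ) (hα : GlK pl e α)
    (y : ∀ s, Fin (D s) → Ffp_V pl m s) (s : S) (y0 : Matrix (Fin m) (Fin m) ℂ)
    (L : Module.End ℂ (Ffp_V pl m s))
    (hL1 : ∀ t j, L (Ffp_b pl m s (true, t, j)) = ∑ i, y0 i j • Ffp_b pl m s (true, t, i))
    (hL2 : ∀ t i, L (Ffp_b pl m s (false, t, i)) = -∑ j, y0 i j • Ffp_b pl m s (false, t, j)) :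
    actForm L (Ffp_G e W α y s) = 0 := by
  obtain ⟨Y, hY⟩ : ∃ Y : S → Matrix (Fin m) (Fin m) ℂ, Y = fun s' => if s' = s then y0 else 0 :=
    ⟨_, rfl⟩
  obtain ⟨X, hX⟩ : ∃ X : Module.End ℂ U, X = e.constr ℂ (fun q : Bool × T × Fin m =>
      if q.1 = true then ∑ i', Y (pl q.2.1) i' q.2.2 • e (true, q.2.1, i')
      else -∑ j', Y (pl q.2.1) q.2.2 j' • e (false, q.2.1, j')) := ⟨_, rfl⟩
  have hX1 : ∀ t j, X (e (true, t, j)) = ∑ i, Y (pl t) i j • e (true, t, i) := by
    intro t j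
    rw [hX, Basis.constr_basis]
    exact if_pos rfl
  have hX2 : ∀ t i, X (e (false, t, i)) = -∑ j, Y (pl t) i j • e (false, t, j) := by
    intro t i
    rw [hX, Basis.constr_basis]
    exact if_neg (by simp)
  have hXs : ∀ u, X (Ffp_in pl e s u) = Ffp_in pl e s (L u) := by
    have h : X.comp (Ffp_in pl e s) = (Ffp_in pl e s).comp L := by
      refine (Ffp_b pl m s).ext fun q => ?_
      obtain ⟨b, t, i⟩ := q
      rw [LinearMap.comp_apply, LinearMap.comp_apply, Ffp_in_b]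
      have hYt : Y (pl t.1) = y0 := by rw [hY, t.2]; exact if_pos rfl
      cases b with
      | true =>
        rw [hL1, map_sum, hX1, hYt]
        refine Finset.sum_congr rfl fun j _ => ?_
        rw [map_smul, Ffp_in_b]
      | false =>
        rw [hL2, map_neg, map_sum, hX2, hYt]
        congr 1
        refine Finset.sum_congr rfl fun j _ => ?_
        rw [map_smul, Ffp_in_b]
    exact fun u => LinearMap.congr_fun h u
  have hX0 : ∀ s', s' ≠ s → ∀ u, X (Ffp_in pl e s' u) = 0 := by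
    intro s' hs'
    have h : X.comp (Ffp_in pl e s') = 0 := by
      refine (Ffp_b pl m s').ext fun q => ?_
      obtain ⟨b, t, i⟩ := q
      rw [LinearMap.comp_apply, Ffp_in_b, LinearMap.zero_apply]
      have hYt : Y (pl t.1) = 0 := by rw [hY, t.2]; exact if_neg hs'
      cases b with
      | true =>
        rw [hX1, hYt]
        exact Finset.sum_eq_zero fun j _ => by rw [Matrix.zero_apply, zero_smul]
      | false =>
        rw [hX2, hYt, neg_eq_zero]
        exact Finset.sum_eq_zero fun j _ => by rw [Matrix.zero_apply, zero_smul]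
    exact fun u => LinearMap.congr_fun h u
  have h0 := hα Y X hX1 hX2
  refine MultilinearMap.ext fun x => ?_
  have h1 := congrArg (fun g => g (Ffp_Y e W (Function.update y s x))) h0
  simp only [actForm_apply, _root_.zero_apply] at h1 ⊢
  rw [← Equiv.sum_comp W, Fintype.sum_sigma, Finset.sum_eq_single s] at h1
  · rw [← h1]
    refine Finset.sum_congr rfl fun k _ => ?_
    rw [Ffp_G_apply, Ffp_Y_update]
    congr 2
    rw [Ffp_Y_apply, Function.update_self, hXs]
  · intro j _ hj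
    refine Finset.sum_eq_zero fun l _ => ?_
    rw [Ffp_Y_apply, hX0 j hj]
    exact α.map_update_zero _ _
  · intro h0
    exact absurd (Finset.mem_univ _) h0

/-- the pairings of one place, pulled back -/
theorem Ffp_PP_map (W : (Σ s, Fin (D s)) ≃ Fin N) (s : S) {A : Finset (Fin (D s))}
    {Φ : (Fin (D s) → Ffp_V pl m s) → ℂ} (h : PP (Ffp_B (Ffp_b pl m s) fun _ _ => True) A Φ) :
    PP (Ffp_B e fun t t' => pl t = pl t') (A.image fun k => W ⟨s, k⟩)
      (fun v : Fin N → U => Φ fun k => Ffp_pr pl e s (v (W ⟨s, k⟩))) := by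
  have hW : ∀ (A : Finset (Fin (D s))) (k : Fin (D s)), k ∉ A →
      W ⟨s, k⟩ ∉ A.image fun k => W ⟨s, k⟩ := by
    intro A k hk h
    obtain ⟨l, hl, h1⟩ := Finset.mem_image.1 h
    have h2 := W.injective h1
    simp only [Sigma.mk.injEq, heq_eq_eq, true_and] at h2
    exact hk (h2 ▸ hl)
  induction h with
  | nil =>
    rw [Finset.image_empty]
    exact PP.nil
  | @cons A Φ r r' β hβ _ hr hr' hne ih =>
    rw [Finset.image_insert, Finset.image_insert]
    obtain ⟨t, t', -, hβ⟩ := hβ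
    have h1 : (fun v : Fin N → U => β (Ffp_pr pl e s (v (W ⟨s, r⟩)))
        (Ffp_pr pl e s (v (W ⟨s, r'⟩))) * Φ fun k => Ffp_pr pl e s (v (W ⟨s, k⟩))) =
        fun v => (β.compl₁₂ (Ffp_pr pl e s) (Ffp_pr pl e s)) (v (W ⟨s, r⟩)) (v (W ⟨s, r'⟩)) *
          Φ fun k => Ffp_pr pl e s (v (W ⟨s, k⟩)) := rfl
    rw [h1]
    refine PP.cons _ _ _ ⟨t.1, t'.1, t.2.trans t'.2.symm, fun u v => ?_⟩ ih (hW _ _ hr)
      (hW _ _ hr') ?_
    · rw [LinearMap.compl₁₂_apply, hβ]
      refine Finset.sum_congr rfl fun i _ => ?_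
      rw [Ffp_pr_repr, Ffp_pr_repr]
    · intro h2
      have h3 := W.injective h2
      simp only [Sigma.mk.injEq, heq_eq_eq, true_and] at h3
      exact hne h3

theorem Ffp_PP_prod (W : (Σ s, Fin (D s)) ≃ Fin N)
    (ω : ∀ s, (Fin (D s) → Ffp_V pl m s) → ℂ)
    (hω : ∀ s, PP (Ffp_B (Ffp_b pl m s) fun _ _ => True) Finset.univ (ω s)) (Q : Finset S) :
    PP (Ffp_B e fun t t' => pl t = pl t')
      (Q.biUnion fun s => Finset.univ.image fun k : Fin (D s) => W ⟨s, k⟩)
      (fun v : Fin N → U => ∏ s ∈ Q, ω s fun k => Ffp_pr pl e s (v (W ⟨s, k⟩))) := by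
  induction Q using Finset.induction_on with
  | empty =>
    simp only [Finset.biUnion_empty, Finset.prod_empty]
    exact PP.nil
  | insert s Q hs ih =>
    rw [Finset.biUnion_insert]
    have h1 : (fun v : Fin N → U => ∏ s ∈ insert s Q, ω s fun k =>
        Ffp_pr pl e s (v (W ⟨s, k⟩))) = fun v => (ω s fun k => Ffp_pr pl e s (v (W ⟨s, k⟩))) *
          ∏ s ∈ Q, ω s fun k => Ffp_pr pl e s (v (W ⟨s, k⟩)) := by
      funext v
      rw [Finset.prod_insert hs]
    rw [h1]
    refine Ffp_PP_mul (Ffp_PP_map e W s (hω s)) ih ?_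
    rw [Finset.disjoint_left]
    intro a ha ha'
    obtain ⟨k, -, rfl⟩ := Finset.mem_image.1 ha
    obtain ⟨s', hs', h2⟩ := Finset.mem_biUnion.1 ha'
    obtain ⟨l, -, h3⟩ := Finset.mem_image.1 h2
    have h4 : s' = s := congrArg Sigma.fst (W.injective h3)
    exact hs (h4 ▸ hs')

end Frame

theorem thm_Ffp (hFft : PSQ.St_Fft) (hPrd : Pool.Agent.KTP.St_Prd) : St_Ffp := by
  classical
  intro U _ _ T S _ _ _ _ m N pl e α hα
  have hsum : (fun v => α v) = ∑ w : Fin N → S, fun v : Fin N → U =>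
      α (fun r => Ffp_in pl e (w r) (Ffp_pr pl e (w r) (v r))) := by
    funext v
    rw [Finset.sum_apply]
    have h1 := α.map_sum (fun r s => Ffp_in pl e s (Ffp_pr pl e s (v r)))
    rw [← h1]
    congr 1
    funext r
    exact (Ffp_sum e (v r)).symm
  rw [hsum]
  refine Submodule.sum_mem _ fun w _ => ?_
  obtain ⟨D, hD⟩ : ∃ D : S → ℕ, D = fun s => Fintype.card {r // w r = s} := ⟨_, rfl⟩
  have hq : ∀ s, Nonempty (Fin (D s) ≃ {r // w r = s}) := by
    intro s
    rw [hD]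
    exact ⟨(Fintype.equivFin _).symm⟩
  have q : ∀ s, Fin (D s) ≃ {r // w r = s} := fun s => Classical.choice (hq s)
  obtain ⟨W, hW⟩ : ∃ W : (Σ s, Fin (D s)) ≃ Fin N, ∀ s k, w (W ⟨s, k⟩) = s :=
    ⟨(Equiv.sigmaCongrRight q).trans (Equiv.sigmaFiberEquiv w), fun s k => (q s k).2⟩
  have hf := hPrd S (fun s => Fin (D s) → Ffp_V pl m s)
    (fun s => Submodule.span ℂ {ω : (Fin (D s) → Ffp_V pl m s) → ℂ |
      PP (Ffp_B (Ffp_b pl m s) fun _ _ => True) Finset.univ ω})
    (fun s => FiniteDimensional.span_of_finite ℂ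
      (Ffp_PP_fin (Ffp_B_fin (Ffp_b pl m s) fun _ _ => True) Finset.univ))
    (fun y => α (Ffp_Y e W y)) (by
      intro s y
      have h1 := hFft (Ffp_V pl m s) {t : T // pl t = s} m (D s) (Ffp_b pl m s)
        (Ffp_G e W α y s) (fun y0 L hL1 hL2 => Ffp_inv e W α hα y s y0 L hL1 hL2)
      have h2 : {β : Ffp_V pl m s →ₗ[ℂ] Ffp_V pl m s →ₗ[ℂ] ℂ | ∃ t t' : {t : T // pl t = s},
          ∀ u v, β u v = ∑ i, (Ffp_b pl m s).repr u (true, t, i) *
            (Ffp_b pl m s).repr v (false, t', i)} =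
          Ffp_B (Ffp_b pl m s) fun _ _ => True := by
        ext β
        unfold Ffp_B
        simp only [Set.mem_ofPred_eq, true_and]
      rw [h2] at h1
      exact h1)
  have hf2 : (fun y => α (Ffp_Y e W y)) ∈ Submodule.span ℂ
      {g : (∀ s, Fin (D s) → Ffp_V pl m s) → ℂ |
        ∃ ω : ∀ s, (Fin (D s) → Ffp_V pl m s) → ℂ,
          (∀ s, ω s ∈ {ω : (Fin (D s) → Ffp_V pl m s) → ℂ |
            PP (Ffp_B (Ffp_b pl m s) fun _ _ => True) Finset.univ ω}) ∧
          g = fun y => ∏ s, ω s (y s)} := by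
    refine Submodule.span_le.mpr ?_ hf
    rintro g ⟨u, hu, rfl⟩
    exact Pool.Agent.KTP.Wrd_exp (fun s => {ω : (Fin (D s) → Ffp_V pl m s) → ℂ |
      PP (Ffp_B (Ffp_b pl m s) fun _ _ => True) Finset.univ ω}) u hu
  let Q : (Fin N → U) → (∀ s, Fin (D s) → Ffp_V pl m s) :=
    fun v s k => Ffp_pr pl e s (v (W ⟨s, k⟩))
  have hT : (fun v : Fin N → U => α (fun r => Ffp_in pl e (w r) (Ffp_pr pl e (w r) (v r)))) =
      LinearMap.funLeft ℂ ℂ Q (fun y => α (Ffp_Y e W y)) := by
    funext v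
    rw [LinearMap.funLeft_apply]
    congr 1
    funext r
    obtain ⟨⟨j, l⟩, rfl⟩ := W.surjective r
    rw [Ffp_Y_apply, hW j l]
  rw [hT]
  have h3 := Submodule.mem_map_of_mem (f := LinearMap.funLeft ℂ ℂ Q) hf2
  rw [Submodule.map_span] at h3
  refine Submodule.span_mono ?_ h3
  rintro g ⟨g', ⟨ω, hω, rfl⟩, rfl⟩
  have h4 := Ffp_PP_prod e W ω hω Finset.univ
  have h5 : (Finset.univ.biUnion fun s => Finset.univ.image fun k : Fin (D s) => W ⟨s, k⟩) =
      (Finset.univ : Finset (Fin N)) := by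
    apply Finset.eq_univ_of_forall
    intro r
    obtain ⟨⟨s, k⟩, rfl⟩ := W.surjective r
    exact Finset.mem_biUnion.2 ⟨s, Finset.mem_univ _,
      Finset.mem_image.2 ⟨k, Finset.mem_univ _, rfl⟩⟩
  rw [h5] at h4
  exact h4

end KT2
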