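import Pool.Agent.KT2.St2
import Pool.Agent.Helper7.AFT.Prod31
import Pool.Agent.PSQ.Bridge

/-!
# KT2, Fid: the theorem in the complementary degrees
-/

set_option autoImplicit false

namespace KT2

open Module Matrix NumberField Pool.Agent.Helper7
open Pool.Agent.GPC (AbVar Form IsGrothendieck IsDivisorial)
open Pool.Agent.Ball (rot gAt HG Lorentz Sep)
open PSQ (W Inv BetR DRA)

theorem thm_Fid (hAbd : St_Abd) (hFra : St_Fra) : St_FinD := by
  classical
  rintro A m k ⟨K, _, _, _, n, ρ, C, hn, hNA, hk⟩ α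
  refine ⟨fun hα => ?_, Pool.Agent.Helper7.isGrothendieck_of_isDivisorial _ _ k α⟩
  obtain ⟨F, σ₀, hF, hNF, hL, hone, hsep⟩ := hFra A K n ρ C hn hNA
  obtain ⟨hα1, hα2⟩ := hα
  have hB : BetR (pData A) m k (α : MultilinearMap ℂ (fun _ : Fin (2 * k) => W _ m) ℂ) := by
    intro v hv
    apply hα2
    intro r i m
    exact (mem_pData_Q _ _).mp (hv r i m)
  have hD : DRA m k (α : MultilinearMap ℂ
      (fun _ : Fin (2 * k) => W (Fin A.g ⊕ Fin A.g) m) ℂ) :=
    fun v hv => hα1 v fun r i m j => hv r i m j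
  refine isDivisorial_of_span (fun _ : Unit => A) (fun _ => m) k α ?_
  refine hAbd _ (pData A) K n F m k α hn hNF hB hD σ₀ hL hsep ?_
  rw [card_index]
  exact hk

end KT2
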