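import Pool.Agent.KT2.St
import Pool.Agent.Helper7.AFT.Prod31
import Pool.Agent.PSQ.Bridge

/-!
# KT2, Fin: the theorem
-/

set_option autoImplicit false

namespace KT2

open Module Matrix NumberField Pool.Agent.Helper7
open Pool.Agent.GPC (AbVar Form IsGrothendieck IsDivisorial)
open Pool.Agent.Ball (rot gAt HG Lorentz Sep)
open PSQ (W Inv BetR DRA)

theorem thm_Fin (hAbs : St_Abs) (hFra : St_Fra) (hTor : St_Tor) : St_FinT := by
  classical
  rintro A m k ⟨K, _, _, _, n, ρ, C, hn, hNA, hk⟩ α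
  refine ⟨fun hα => ?_, Pool.Agent.Helper7.isGrothendieck_of_isDivisorial _ _ k α⟩
  obtain ⟨F, σ₀, hF, hNF, hL, hone, hsep⟩ := hFra A K n ρ C hn hNA
  have hρ : (fun x v => F.ρ x v) = ρ := funext fun x => funext fun v => hF x v
  obtain ⟨hα1, hα2⟩ := hα
  have hB : BetR (pData A) m k (α : MultilinearMap ℂ (fun _ : Fin (2 * k) => W _ m) ℂ) := by
    intro v hv
    apply hα2
    intro r i m
    exact (mem_pData_Q _ _).mp (hv r i m)
  have hD : DRA m k (α : MultilinearMap ℂ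
      (fun _ : Fin (2 * k) => W (Fin A.g ⊕ Fin A.g) m) ℂ) :=
    fun v hv => hα1 v fun r i m j => hv r i m j
  refine isDivisorial_of_span (fun _ : Unit => A) (fun _ => m) k α ?_
  refine hAbs _ (pData A) K n F m k α hn hNF hB hD σ₀ hL hsep ?_
  rcases hk with h | ⟨d, J, hd, hJ, hJJ, hJc, hJz⟩
  · exact Or.inl h
  · refine Or.inr (hTor A K n F σ₀ d J hn (fun τ hτ => ?_) hd hJ hJJ hJc hJz)
    rw [hρ]
    exact hone τ hτ

end KT2
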