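import Pool.Agent.KT2.St
import Pool.Agent.Helper8.B.Main2

/-!
# KT2: the frame of an abelian variety
-/

set_option autoImplicit false

namespace KT2

open Module Matrix NumberField Pool.Agent.Helper7
open Pool.Agent.GPC
open Pool.Agent.Helper7 Pool.Agent.Helper39.AF Pool.Agent.Helper71.AF
open Pool.Agent.Ball (rot gAt HG Lorentz Sep hf Definite indef_of_not_pure hf_conj_place)
open Pool.Agent.Helper83.Ball (conj_conj' HG_herm definite_of_pure lorentz_of_one)
open scoped ComplexConjugate

/-- the frame -/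
theorem Fra_uf (A : AbVar) (K : Type) [Field K] [NumberField K] [IsCMField K] (m : ℕ)
    (ρ : K → A.H1 → A.H1) (C : A.IsMultCen K m ρ) :
    ∃ F : UF (pData A) K m, ∀ x v, F.ρ x v = ρ x v := by
  obtain ⟨R, hR⟩ : ∃ R : K →+* Module.End ℂ A.H1, ∀ x v, R x v = ρ x v :=
    ⟨{  toFun := fun x => IsLinearMap.mk' _ (C.endo x).linear
        map_one' := LinearMap.ext C.one
        map_mul' := fun x y => LinearMap.ext (C.mul x y)
        map_add' := fun x y => LinearMap.ext (C.add x y)
        map_zero' := LinearMap.ext fun v => by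
          have h := C.add 0 0 v
          rw [add_zero] at h
          have h2 : ρ 0 v = 0 := by
            have h3 := congrArg (fun w => w - ρ 0 v) h
            simp only [sub_self, add_sub_cancel_right] at h3
            exact h3.symm
          exact h2 }, fun x v => rfl⟩
  have hE : ∀ x, A.IsEnd (R x) := by
    intro x
    have h1 : (fun v => R x v) = ρ x := funext (hR x)
    have h2 := C.endo x
    rw [← h1] at h2
    exact h2
  have hQ : ∀ x, ∀ v ∈ (pData A).Q, R x v ∈ (pData A).Q :=
    fun x v hv => (isDRB_of_isEnd A _ (hE x)).rat v hv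
  obtain ⟨lam, h1, h2, eb, h3⟩ := exists_Kbasis (pData A) R hQ m
    (by rw [card_index, mul_comm, C.rank])
  exact ⟨{  ρ := R
            hρ := fun x => isDRB_of_isEnd A _ (hE x)
            cc := cmConj K
            hcc := fun σ x => IsCMField.complexEmbedding_complexConj K σ x
            hros := fun x u v => by rw [hR, hR]; exact C.rosati x u v
            hcen := fun f hf hc => by
              obtain ⟨x, hx⟩ := C.centralizer f (isEnd_of_isDRB A f hf) fun x v => by
                rw [← hR, ← hR]; exact hc x v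
              exact ⟨x, fun v => by rw [hR]; exact hx v⟩
            hnd := hnd_pData A
            lam := lam
            lam_rat := h1
            gen := h2
            eb := eb
            heb := h3 }, hR⟩

/-- the product of endomorphisms -/
lemma Fra_comp (A : AbVar) (f h : A.H1 → A.H1) (hf : A.IsEnd f) (hh : A.IsEnd h) :
    A.IsEnd (f ∘ h) where
  linear := (IsLinearMap.mk' f hf.linear ∘ₗ IsLinearMap.mk' h hh.linear).isLinear
  betti v hv := hf.betti _ (hh.betti v hv)
  deRham v hv := hf.deRham _ (hh.deRham v hv)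
  hodge v hv := hf.hodge _ (hh.hodge v hv)

/-- the sum of endomorphisms -/
lemma Fra_add (A : AbVar) (f h : A.H1 → A.H1) (hf : A.IsEnd f) (hh : A.IsEnd h) :
    A.IsEnd (f + h) := by
  have h1 : IsDRB (pData A) (pData A) (IsLinearMap.mk' f hf.linear) := isDRB_of_isEnd A _ hf
  have h2 : IsDRB (pData A) (pData A) (IsLinearMap.mk' h hh.linear) := isDRB_of_isEnd A _ hh
  have h3 : IsDRB (pData A) (pData A)
      (IsLinearMap.mk' f hf.linear + IsLinearMap.mk' h hh.linear) :=
    { rat := fun v hv => Submodule.add_mem _ (h1.rat v hv) (h2.rat v hv)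
      alg := fun a b => (h1.alg a b).add (h2.alg a b) }
  exact isEnd_of_isDRB A _ h3

/-- central elements -/
lemma Fra_zen (A : AbVar) (K : Type) [Field K] [NumberField K] (n : ℕ)
    (ρ : K → A.H1 → A.H1) (F : UF (pData A) K n) (hF : ∀ x v, F.ρ x v = ρ x v) (x : K) :
    Zen F x ↔ ∀ f, A.IsEnd f → ∀ v, f (ρ x v) = ρ x (f v) := by
  constructor
  · intro h f hf v
    have h1 := h (IsLinearMap.mk' f hf.linear) (isDRB_of_isEnd A _ hf) v
    rw [hF, hF] at h1
    exact h1
  · intro h f hf v
    rw [hF, hF]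
    exact h f (isEnd_of_isDRB A f hf) v

/-- agreement on the centre -/
lemma Fra_ag (A : AbVar) (K : Type) [Field K] [NumberField K] (n : ℕ)
    (ρ : K → A.H1 → A.H1) (F : UF (pData A) K n) (hF : ∀ x v, F.ρ x v = ρ x v)
    (σ τ : K →+* ℂ) : Ag F σ τ ↔ A.AgreeCen ρ σ τ := by
  unfold Ag AbVar.AgreeCen
  constructor
  · intro h x hx
    exact h x ((Fra_zen A K n ρ F hF x).mpr hx)
  · intro h x hx
    exact h x ((Fra_zen A K n ρ F hF x).mp hx)

/-- no anti-automorphism -/
lemma Fra_anti (A : AbVar) (K : Type) [Field K] [NumberField K] [IsCMField K] (n : ℕ)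
    (ρ : K → A.H1 → A.H1) (C : A.IsMultCen K n ρ) (F : UF (pData A) K n)
    (hF : ∀ x v, F.ρ x v = ρ x v) (hA : A.NoAnti) : NoAnti F := by
  classical
  rintro ⟨θ, h1, h2, h3⟩
  apply hA
  refine ⟨fun f => if h : A.IsEnd f then θ (IsLinearMap.mk' f h.linear) else f, ?_, ?_, ?_⟩
  · intro f hf
    simp only [dif_pos hf]
    exact isEnd_of_isDRB A _ (h1 _ (isDRB_of_isEnd A _ hf))
  · intro f h hf hh
    have hc := Fra_comp A f h hf hh
    have ha := Fra_add A f h hf hh
    obtain ⟨h4, h5⟩ := h2 (IsLinearMap.mk' f hf.linear) (IsLinearMap.mk' h hh.linear)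
      (isDRB_of_isEnd A _ hf) (isDRB_of_isEnd A _ hh)
    simp only [dif_pos hf, dif_pos hh, dif_pos hc, dif_pos ha]
    constructor
    · have h6 : IsLinearMap.mk' (f ∘ h) hc.linear =
          IsLinearMap.mk' f hf.linear * IsLinearMap.mk' h hh.linear := LinearMap.ext fun v => rfl
      rw [h6, h4]
      rfl
    · have h6 : IsLinearMap.mk' (f + h) ha.linear =
          IsLinearMap.mk' f hf.linear + IsLinearMap.mk' h hh.linear := LinearMap.ext fun v => rfl
      rw [h6, h5]
      rfl
  · intro f hf hc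
    simp only [dif_pos hf]
    obtain ⟨x, hx⟩ := C.centralizer f hf fun y v => hc (ρ y) (C.endo y) v
    have h4 : IsLinearMap.mk' f hf.linear = F.ρ x := LinearMap.ext fun v => by
      rw [hF]
      exact hx v
    have h5 : Zen F x := by
      rw [Fra_zen A K n ρ F hF x]
      intro h hh v
      rw [← hx, ← hx]
      exact (hc h hh v).symm
    rw [h4, h3 x h5]
    funext v
    rw [hF]
    exact (hx v).symm

theorem thm_Fra : St_Fra := by
  intro A K _ _ _ n ρ C hn hA
  obtain ⟨F, hF⟩ := Fra_uf A K n ρ C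
  obtain ⟨σ₁, hs1, hs2⟩ := C.signature
  have hag := Fra_ag A K n ρ F hF
  have hL := lorentz_of_one F ρ hF σ₁ (hs1 σ₁ fun _ _ => rfl)
  refine ⟨F, ComplexEmbedding.conjugate σ₁, hF, Fra_anti A K n ρ C F hF hA, hL, ?_, ?_⟩
  · intro τ hτ
    rw [conj_conj', hag] at hτ
    exact hs1 τ hτ
  · intro τ h1 h2
    rw [conj_conj'] at h2
    rw [hag] at h1 h2
    obtain ⟨g, h3, h4⟩ := hs2 τ h2 h1
    obtain ⟨⟨v, hv⟩, ⟨w, hw⟩⟩ := indef_of_not_pure F ρ hF _ h3
    have h5 : (g : ℂ →+* ℂ).comp (ComplexEmbedding.conjugate σ₁) =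
        ComplexEmbedding.conjugate ((g : ℂ →+* ℂ).comp σ₁) :=
      Pool.Agent.Ball.comp_conj (fun _ : Unit => pData A) () g σ₁ F
    refine ⟨g, HG_herm F _, ⟨fun a => conj (w a), ?_⟩, ⟨fun a => conj (v a), ?_⟩,
      definite_of_pure F ρ hF _ h4⟩
    · rw [h5, hf_conj_place]
      linarith
    · rw [h5, hf_conj_place]
      linarith

end KT2
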