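import Pool.Agent.KT2.St

/-!
# KT2, FRM: the frame
-/

set_option autoImplicit false

namespace KT2

open Module Matrix NumberField Pool.Agent.Helper7
open Pool.Agent.Helper8.D (ent ent_act)
open PSQ (W Inv BetR DRA)
open scoped ComplexConjugate

section frm

variable {κ : Type} [Fintype κ] [DecidableEq κ] {ϖ : ℂ} {P : PData κ ϖ} {L : Type} [Field L]
  [NumberField L] {m : ℕ} (F : UF P L m)

omit [NumberField L] in
theorem Frm_cc (σ : L →+* ℂ) :
    ComplexEmbedding.conjugate (ComplexEmbedding.conjugate σ) = σ := by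
  refine RingHom.ext fun y => ?_
  rw [ComplexEmbedding.conjugate_coe_eq, ComplexEmbedding.conjugate_coe_eq, Complex.conj_conj]

omit [NumberField L] in
theorem Frm_cinj {σ τ : L →+* ℂ}
    (h : ComplexEmbedding.conjugate σ = ComplexEmbedding.conjugate τ) : σ = τ := by
  rw [← Frm_cc σ, h, Frm_cc]

/-! ### Agreement on the centre -/

theorem Frm_symm {σ τ : L →+* ℂ} (h : Ag F σ τ) : Ag F τ σ := fun x hx => (h x hx).symm

theorem Frm_trans {σ τ υ : L →+* ℂ} (h : Ag F σ τ) (h' : Ag F τ υ) : Ag F σ υ :=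
  fun x hx => (h x hx).trans (h' x hx)

theorem Frm_conj {σ τ : L →+* ℂ} (h : Ag F σ τ) :
    Ag F (ComplexEmbedding.conjugate σ) (ComplexEmbedding.conjugate τ) := by
  intro x hx
  rw [ComplexEmbedding.conjugate_coe_eq, ComplexEmbedding.conjugate_coe_eq, h x hx]

/-- A number for every class. -/
theorem Frm_num : ∃ r : (L →+* ℂ) → ℕ, ∀ σ τ, r σ = r τ ↔ Ag F σ τ := by
  classical
  let s : Setoid (L →+* ℂ) :=
    ⟨Ag F, fun _ _ _ => rfl, fun h => Frm_symm F h, fun h h' => Frm_trans F h h'⟩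
  let q : (L →+* ℂ) → Quotient s := fun σ => Quotient.mk s σ
  obtain ⟨f, hf⟩ : ∃ f : Quotient s → ℕ, Function.Injective f := by
    have : Finite (Quotient s) := inferInstance
    obtain ⟨n, ⟨e⟩⟩ := Finite.exists_equiv_fin (Quotient s)
    exact ⟨fun x => (e x : ℕ), fun a b h => e.injective (Fin.ext h)⟩
  refine ⟨fun σ => f (q σ), fun σ τ => ?_⟩
  rw [hf.eq_iff]
  exact Quotient.eq (r := s)

/-! ### The vectors -/

theorem Frm_iso (τ τ' : L →+* ℂ) (h : τ' ≠ ComplexEmbedding.conjugate τ) (u v : κ → ℂ)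
    (hu : ∀ y, F.ρ y u = τ y • u) (hv : ∀ y, F.ρ y v = τ' y • v) : P.ψ u v = 0 := by
  by_contra hne
  apply h
  refine RingHom.ext fun y => ?_
  have h1 := F.hros (F.cc y) u v
  rw [F.cc_cc, hu, hv, map_smul, LinearMap.smul_apply, map_smul, smul_eq_mul, smul_eq_mul,
    F.hcc] at h1
  rw [ComplexEmbedding.conjugate_coe_eq]
  exact (mul_right_cancel₀ hne h1).symm

/-- The pairing matrix. -/
noncomputable def Frm_G (σ : L →+* ℂ) : Matrix (Fin m) (Fin m) ℂ :=
  Matrix.of fun a b => P.ψ (F.e σ a) (F.e (ComplexEmbedding.conjugate σ) b)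

theorem Frm_det (σ : L →+* ℂ) : IsUnit (Frm_G F σ).det := by
  rw [isUnit_iff_ne_zero]
  intro h0
  obtain ⟨v, hv, h1⟩ := Matrix.exists_mulVec_eq_zero_iff.mpr h0
  apply hv
  have h2 : (∑ b, v b • F.e (ComplexEmbedding.conjugate σ) b) = 0 := by
    apply P.hψnd
    intro w
    rw [P.hψalt, neg_eq_zero]
    rw [F.hsum w, map_sum P.ψ, LinearMap.sum_apply]
    refine Finset.sum_eq_zero fun τ _ => ?_
    rw [map_sum P.ψ, LinearMap.sum_apply]
    refine Finset.sum_eq_zero fun a _ => ?_
    rw [map_smul, LinearMap.smul_apply]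
    by_cases h3 : τ = σ
    · have h4 := congrFun h1 a
      rw [Matrix.mulVec, dotProduct, Pi.zero_apply] at h4
      rw [h3, map_sum]
      have h5 : ∑ b, P.ψ (F.e σ a) (v b • F.e (ComplexEmbedding.conjugate σ) b) = 0 := by
        rw [← h4]
        refine Finset.sum_congr rfl fun b _ => ?_
        rw [map_smul, smul_eq_mul, Frm_G, Matrix.of_apply, mul_comm]
      rw [h5, smul_zero]
    · rw [Frm_iso F τ (ComplexEmbedding.conjugate σ) (fun h => h3 (Frm_cinj h).symm) _ _
        (fun y => F.rho_e y τ a) (fun y => ?_), smul_zero]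
      rw [map_sum, Finset.smul_sum]
      refine Finset.sum_congr rfl fun b _ => ?_
      rw [map_smul, F.rho_e, smul_comm]
  funext b
  have h3 : F.co (ComplexEmbedding.conjugate σ) b
      (∑ b, v b • F.e (ComplexEmbedding.conjugate σ) b) = v b := by
    classical
    rw [map_sum, Finset.sum_eq_single b]
    · rw [map_smul, F.co_e, if_pos ⟨rfl, rfl⟩, smul_eq_mul, mul_one]
    · intro b' _ hb
      rw [map_smul, F.co_e, if_neg (fun h => hb h.2.symm), smul_zero]
    · intro h
      exact absurd (Finset.mem_univ _) h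
  rw [← h3, h2, map_zero, Pi.zero_apply]

/-- The dual vectors. -/
noncomputable def Frm_d (σ : L →+* ℂ) (i : Fin m) : κ → ℂ :=
  ∑ b, (Frm_G F σ)⁻¹ b i • F.e (ComplexEmbedding.conjugate σ) b

theorem Frm_d_eig (σ : L →+* ℂ) (i : Fin m) (y : L) : F.ρ y (Frm_d F σ i) =
    ComplexEmbedding.conjugate σ y • Frm_d F σ i := by
  unfold Frm_d
  rw [map_sum, Finset.smul_sum]
  refine Finset.sum_congr rfl fun b _ => ?_
  rw [map_smul, F.rho_e, smul_comm]

theorem Frm_d_dual (σ : L →+* ℂ) (a i : Fin m) :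
    P.ψ (F.e σ a) (Frm_d F σ i) = if a = i then 1 else 0 := by
  unfold Frm_d
  rw [map_sum]
  have h1 : ∑ b, P.ψ (F.e σ a) ((Frm_G F σ)⁻¹ b i •
      F.e (ComplexEmbedding.conjugate σ) b) = (Frm_G F σ * (Frm_G F σ)⁻¹) a i := by
    rw [Matrix.mul_apply]
    refine Finset.sum_congr rfl fun b _ => ?_
    rw [map_smul, smul_eq_mul, Frm_G, Matrix.of_apply, mul_comm]
  rw [h1, Matrix.mul_nonsing_inv _ (Frm_det F σ), Matrix.one_apply]

/-- The vectors of the first half. -/
noncomputable def Frm_u (σ : L →+* ℂ) (M : Matrix (Fin m) (Fin m) ℂ) (j : Fin m) : κ → ℂ :=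
  ∑ i, M i j • F.e σ i

/-- The vectors of the second half. -/
noncomputable def Frm_w (σ : L →+* ℂ) (M : Matrix (Fin m) (Fin m) ℂ) (j : Fin m) : κ → ℂ :=
  ∑ i, M j i • Frm_d F σ i

theorem Frm_u_eig (σ : L →+* ℂ) (M : Matrix (Fin m) (Fin m) ℂ) (j : Fin m) (y : L) :
    F.ρ y (Frm_u F σ M j) = σ y • Frm_u F σ M j := by
  unfold Frm_u
  rw [map_sum, Finset.smul_sum]
  refine Finset.sum_congr rfl fun b _ => ?_
  rw [map_smul, F.rho_e, smul_comm]

theorem Frm_w_eig (σ : L →+* ℂ) (M : Matrix (Fin m) (Fin m) ℂ) (j : Fin m) (y : L) :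
    F.ρ y (Frm_w F σ M j) = ComplexEmbedding.conjugate σ y • Frm_w F σ M j := by
  unfold Frm_w
  rw [map_sum, Finset.smul_sum]
  refine Finset.sum_congr rfl fun b _ => ?_
  rw [map_smul, Frm_d_eig, smul_comm]

theorem Frm_uw (σ : L →+* ℂ) (M M' : Matrix (Fin m) (Fin m) ℂ) (h : M' * M = 1) (i j : Fin m) :
    P.ψ (Frm_u F σ M i) (Frm_w F σ M' j) = if i = j then 1 else 0 := by
  unfold Frm_u Frm_w
  rw [map_sum P.ψ, LinearMap.sum_apply]
  have h1 : ∀ a, P.ψ (M a i • F.e σ a) (∑ b, M' j b • Frm_d F σ b) = M' j a * M a i := by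
    intro a
    rw [map_smul, LinearMap.smul_apply, map_sum, Finset.sum_eq_single a]
    · rw [map_smul, Frm_d_dual, if_pos rfl, smul_eq_mul, smul_eq_mul, mul_one, mul_comm]
    · intro b _ hb
      rw [map_smul, Frm_d_dual, if_neg (Ne.symm hb), smul_zero]
    · intro ha
      exact absurd (Finset.mem_univ _) ha
  rw [Finset.sum_congr rfl fun a _ => h1 a, ← Matrix.mul_apply, h, Matrix.one_apply]
  by_cases hij : i = j
  · rw [if_pos hij, if_pos hij.symm]
  · rw [if_neg hij, if_neg (Ne.symm hij)]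

theorem Frm_u_act (σ σ' : L →+* ℂ) (M : Matrix (Fin m) (Fin m) ℂ) (X : Module.End ℂ (κ → ℂ))
    (hX : F.Comm X) (h : ent F σ X * M = M * ent F σ' X) (j : Fin m) :
    X (Frm_u F σ M j) = ∑ i, ent F σ' X i j • Frm_u F σ M i := by
  unfold Frm_u
  rw [map_sum]
  have h1 : ∀ i, X (M i j • F.e σ i) = ∑ a, (ent F σ X a i * M i j) • F.e σ a := by
    intro i
    rw [map_smul, ent_act F σ X hX, Finset.smul_sum]
    refine Finset.sum_congr rfl fun a _ => ?_
    rw [smul_smul, mul_comm]
  have h2 : ∀ i, ent F σ' X i j • ∑ a, M a i • F.e σ a =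
      ∑ a, (M a i * ent F σ' X i j) • F.e σ a := by
    intro i
    rw [Finset.smul_sum]
    refine Finset.sum_congr rfl fun a _ => ?_
    rw [smul_smul, mul_comm]
  have e1 : ∑ i, X (M i j • F.e σ i) = ∑ a, (ent F σ X * M) a j • F.e σ a := by
    rw [Finset.sum_congr rfl fun i _ => h1 i, Finset.sum_comm]
    refine Finset.sum_congr rfl fun a _ => ?_
    rw [← Finset.sum_smul, Matrix.mul_apply]
  have e2 : ∑ i, ent F σ' X i j • ∑ a, M a i • F.e σ a =
      ∑ a, (M * ent F σ' X) a j • F.e σ a := by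
    rw [Finset.sum_congr rfl fun i _ => h2 i, Finset.sum_comm]
    refine Finset.sum_congr rfl fun a _ => ?_
    rw [← Finset.sum_smul, Matrix.mul_apply]
  rw [e1, e2, h]

/-! ### The basis -/

variable {T : Type} [Fintype T] [DecidableEq T] (τ : T → (L →+* ℂ))
  (M M' : T → Matrix (Fin m) (Fin m) ℂ)

/-- The vectors of the frame. -/
noncomputable def Frm_v : Bool × T × Fin m → (κ → ℂ)
  | (true, t, j) => Frm_u F (τ t) (M t) j
  | (false, t, j) => Frm_w F (τ t) (M' t) j

variable (hinj : Function.Injective τ)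
  (hnc : ∀ t t', τ t ≠ ComplexEmbedding.conjugate (τ t'))
  (hM : ∀ t, M' t * M t = 1)

omit [Fintype T] [DecidableEq T] in
include hnc in
theorem Frm_uu (t t' : T) (a b : Fin m) :
    P.ψ (Frm_u F (τ t) (M t) a) (Frm_u F (τ t') (M t') b) = 0 :=
  Frm_iso F (τ t) (τ t') (hnc t' t) _ _ (fun y => Frm_u_eig F _ _ a y)
    fun y => Frm_u_eig F _ _ b y

omit [Fintype T] in
include hinj hM in
theorem Frm_uw' (t t' : T) (i j : Fin m) :
    P.ψ (Frm_u F (τ t) (M t) i) (Frm_w F (τ t') (M' t') j) = if t = t' ∧ i = j then 1 else 0 := by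
  by_cases h : t = t'
  · subst h
    rw [Frm_uw F _ _ _ (hM t)]
    by_cases hij : i = j
    · rw [if_pos hij, if_pos ⟨rfl, hij⟩]
    · rw [if_neg hij, if_neg (fun h => hij h.2)]
  · rw [if_neg (fun h' => h h'.1)]
    exact Frm_iso F (τ t) (ComplexEmbedding.conjugate (τ t'))
      (fun h2 => h (hinj (Frm_cinj h2).symm)) _ _ (fun y => Frm_u_eig F _ _ i y)
      fun y => Frm_w_eig F _ _ j y

include hinj hnc hM in
theorem Frm_li : LinearIndependent ℂ (Frm_v F τ M M') := by
  classical
  rw [Fintype.linearIndependent_iff]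
  intro g hg
  rw [Fintype.sum_prod_type, Fintype.sum_bool, Fintype.sum_prod_type, Fintype.sum_prod_type] at hg
  have hf : ∀ t i, g (false, t, i) = 0 := by
    intro t i
    have h1 := congrArg (P.ψ (Frm_u F (τ t) (M t) i)) hg
    rw [map_add, map_sum, map_sum, map_zero, Finset.sum_eq_zero, zero_add,
      Finset.sum_eq_single t, map_sum, Finset.sum_eq_single i] at h1
    · rw [map_smul] at h1
      have h2 : P.ψ (Frm_u F (τ t) (M t) i) (Frm_v F τ M M' (false, t, i)) = 1 := by
        show P.ψ (Frm_u F (τ t) (M t) i) (Frm_w F (τ t) (M' t) i) = 1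
        rw [Frm_uw' F τ M M' hinj hM, if_pos ⟨rfl, rfl⟩]
      rw [h2, smul_eq_mul, mul_one] at h1
      exact h1
    · intro b _ hb
      rw [map_smul]
      show g (false, t, b) • P.ψ (Frm_u F (τ t) (M t) i) (Frm_w F (τ t) (M' t) b) = 0
      rw [Frm_uw' F τ M M' hinj hM, if_neg (fun h => hb h.2.symm), smul_zero]
    · intro hi
      exact absurd (Finset.mem_univ _) hi
    · intro t' _ ht'
      rw [map_sum]
      refine Finset.sum_eq_zero fun b _ => ?_
      rw [map_smul]
      show g (false, t', b) • P.ψ (Frm_u F (τ t) (M t) i) (Frm_w F (τ t') (M' t') b) = 0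
      rw [Frm_uw' F τ M M' hinj hM, if_neg (fun h => ht' h.1.symm), smul_zero]
    · intro hi
      exact absurd (Finset.mem_univ _) hi
    · intro t' _
      rw [map_sum]
      refine Finset.sum_eq_zero fun b _ => ?_
      rw [map_smul]
      show g (true, t', b) • P.ψ (Frm_u F (τ t) (M t) i) (Frm_u F (τ t') (M t') b) = 0
      rw [Frm_uu F τ M hnc, smul_zero]
  have ht : ∀ t i, g (true, t, i) = 0 := by
    intro t i
    have h1 := congrArg (fun v => P.ψ v (Frm_w F (τ t) (M' t) i)) hg
    simp only [hf, zero_smul, Finset.sum_const_zero, add_zero, map_zero,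
      LinearMap.zero_apply] at h1
    rw [map_sum, LinearMap.sum_apply, Finset.sum_eq_single t, map_sum, LinearMap.sum_apply,
      Finset.sum_eq_single i] at h1
    · rw [map_smul, LinearMap.smul_apply] at h1
      have h2 : P.ψ (Frm_v F τ M M' (true, t, i)) (Frm_w F (τ t) (M' t) i) = 1 := by
        show P.ψ (Frm_u F (τ t) (M t) i) (Frm_w F (τ t) (M' t) i) = 1
        rw [Frm_uw' F τ M M' hinj hM, if_pos ⟨rfl, rfl⟩]
      rw [h2, smul_eq_mul, mul_one] at h1
      exact h1
    · intro b _ hb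
      rw [map_smul, LinearMap.smul_apply]
      show g (true, t, b) • P.ψ (Frm_u F (τ t) (M t) b) (Frm_w F (τ t) (M' t) i) = 0
      rw [Frm_uw' F τ M M' hinj hM, if_neg (fun h => hb h.2), smul_zero]
    · intro hi
      exact absurd (Finset.mem_univ _) hi
    · intro t' _ ht'
      rw [map_sum, LinearMap.sum_apply]
      refine Finset.sum_eq_zero fun b _ => ?_
      rw [map_smul, LinearMap.smul_apply]
      show g (true, t', b) • P.ψ (Frm_u F (τ t') (M t') b) (Frm_w F (τ t) (M' t) i) = 0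
      rw [Frm_uw' F τ M M' hinj hM, if_neg (fun h => ht' h.1), smul_zero]
    · intro hi
      exact absurd (Finset.mem_univ _) hi
  rintro ⟨b | b, t, i⟩
  · exact hf t i
  · exact ht t i

variable (hcov : ∀ σ, ∃ t, τ t = σ ∨ τ t = ComplexEmbedding.conjugate σ)

omit [DecidableEq T] in
include F hinj hnc hcov in
theorem Frm_card : Fintype.card (Bool × T × Fin m) = finrank ℂ (κ → ℂ) := by
  classical
  rw [finrank_eq_card_basis F.eb, Fintype.card_prod, Fintype.card_prod, Fintype.card_prod,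
    ← mul_assoc, ← Fintype.card_prod]
  congr 1
  refine Fintype.card_congr (Equiv.ofBijective
    (fun b : Bool × T => if b.1 then τ b.2 else ComplexEmbedding.conjugate (τ b.2)) ⟨?_, ?_⟩)
  · rintro ⟨b | b, t⟩ ⟨b' | b', t'⟩ hb
    · simp only [Bool.false_eq_true, if_false] at hb
      rw [hinj (Frm_cinj hb)]
    · simp only [Bool.false_eq_true, if_false, if_true] at hb
      exact absurd hb.symm (hnc t' t)
    · simp only [Bool.false_eq_true, if_false, if_true] at hb
      exact absurd hb (hnc t t')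
    · simp only [if_true] at hb
      rw [hinj hb]
  · intro σ
    obtain ⟨t, h | h⟩ := hcov σ
    · exact ⟨(true, t), by simp [h]⟩
    · refine ⟨(false, t), ?_⟩
      simp only [Bool.false_eq_true, if_false]
      rw [h, Frm_cc]

include hinj hnc hM hcov in
theorem Frm_basis : ∃ e : Basis (Bool × T × Fin m) ℂ (κ → ℂ),
    (∀ t j, e (true, t, j) = Frm_u F (τ t) (M t) j) ∧
    ∀ t j, e (false, t, j) = Frm_w F (τ t) (M' t) j := by
  have hli := Frm_li F τ M M' hinj hnc hM
  have hsp := hli.span_eq_top_of_card_eq_finrank' (Frm_card F τ hinj hnc hcov)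
  exact ⟨Basis.mk hli (le_of_eq hsp.symm), fun t j => Basis.mk_apply _ _ _,
    fun t j => Basis.mk_apply _ _ _⟩

omit [Fintype T] in
include hinj hnc hM in
/-- The action on the second half. -/
theorem Frm_false (e : Basis (Bool × T × Fin m) ℂ (κ → ℂ))
    (het : ∀ t j, e (true, t, j) = Frm_u F (τ t) (M t) j)
    (hef : ∀ t j, e (false, t, j) = Frm_w F (τ t) (M' t) j)
    (X : Module.End ℂ (κ → ℂ)) (c : ℂ) (hX : F.Comm X)
    (hψ : ∀ u v, P.ψ (X u) v + P.ψ u (X v) = c * P.ψ u v) (y : T → Matrix (Fin m) (Fin m) ℂ)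
    (hy : ∀ t j, X (e (true, t, j)) = ∑ i, y t i j • e (true, t, i)) (t : T) (i : Fin m) :
    X (e (false, t, i)) = c • e (false, t, i) - ∑ j, y t i j • e (false, t, j) := by
  have hψe : ∀ t t' i j, P.ψ (e (true, t, i)) (e (false, t', j)) =
      if t = t' ∧ i = j then 1 else 0 := by
    intro t t' i j
    rw [het, hef, Frm_uw' F τ M M' hinj hM]
  have hefe : ∀ t j x, F.ρ x (e (false, t, j)) =
      ComplexEmbedding.conjugate (τ t) x • e (false, t, j) := by
    intro t j x
    rw [hef, Frm_w_eig]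
  rw [← sub_eq_zero]
  apply P.hψnd
  intro w
  rw [P.hψalt, neg_eq_zero]
  set d := X (e (false, t, i)) - (c • e (false, t, i) - ∑ j, y t i j • e (false, t, j)) with hd
  have hdy : ∀ x, F.ρ x d = ComplexEmbedding.conjugate (τ t) x • d := by
    intro x
    have e1 : F.ρ x (X (e (false, t, i))) =
        ComplexEmbedding.conjugate (τ t) x • X (e (false, t, i)) := by
      rw [← hX, hefe, map_smul]
    rw [hd, map_sub, map_sub, map_smul, map_sum, e1, hefe, smul_sub, smul_sub,
      Finset.smul_sum, smul_comm c]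
    congr 2
    refine Finset.sum_congr rfl fun j _ => ?_
    rw [map_smul, hefe, smul_comm]
  have hw : w ∈ Submodule.span ℂ (Set.range e) := by rw [e.span_eq]; trivial
  induction hw using Submodule.span_induction with
  | mem u hu =>
    obtain ⟨⟨b, t', a⟩, rfl⟩ := hu
    cases b with
    | false =>
      refine Frm_iso F (ComplexEmbedding.conjugate (τ t')) (ComplexEmbedding.conjugate (τ t))
        (fun h => ?_) _ _ (fun x => hefe t' a x) hdy
      exact hnc t (t') (Frm_cinj h)
    | true =>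
      have h3 := hψ (e (true, t', a)) (e (false, t, i))
      rw [hy t' a, map_sum, LinearMap.sum_apply] at h3
      have h4 : ∑ b, P.ψ (y t' b a • e (true, t', b)) (e (false, t, i)) =
          if t' = t then y t i a else 0 := by
        by_cases ht : t' = t
        · subst ht
          rw [if_pos rfl, Finset.sum_eq_single i]
          · rw [map_smul, LinearMap.smul_apply, hψe, if_pos ⟨rfl, rfl⟩, smul_eq_mul, mul_one]
          · intro b _ hb
            rw [map_smul, LinearMap.smul_apply, hψe, if_neg (fun h => hb h.2), smul_zero]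
          · intro hi
            exact absurd (Finset.mem_univ _) hi
        · rw [if_neg ht]
          refine Finset.sum_eq_zero fun b _ => ?_
          rw [map_smul, LinearMap.smul_apply, hψe, if_neg (fun h => ht h.1), smul_zero]
      have h5 : ∑ j, P.ψ (e (true, t', a)) (y t i j • e (false, t, j)) =
          if t' = t then y t i a else 0 := by
        by_cases ht : t' = t
        · subst ht
          rw [if_pos rfl, Finset.sum_eq_single a]
          · rw [map_smul, hψe, if_pos ⟨rfl, rfl⟩, smul_eq_mul, mul_one]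
          · intro b _ hb
            rw [map_smul, hψe, if_neg (fun h => hb h.2.symm), smul_zero]
          · intro hi
            exact absurd (Finset.mem_univ _) hi
        · rw [if_neg ht]
          refine Finset.sum_eq_zero fun b _ => ?_
          rw [map_smul, hψe, if_neg (fun h => ht h.1), smul_zero]
      rw [h4] at h3
      rw [hd, map_sub, map_sub, map_smul, map_sum, h5, smul_eq_mul]
      linear_combination h3
  | zero => rw [map_zero, LinearMap.zero_apply]
  | add u v _ _ hu hv => rw [map_add, LinearMap.add_apply, hu, hv, add_zero]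
  | smul t u _ hu => rw [map_smul, LinearMap.smul_apply, hu, smul_zero]

end frm

theorem thm_Frm (hItw : St_Itw) : St_Frm := by
  intro κ _ _ ϖ P L _ _ m F n k α hϖ hB hD hcx hsl
  classical
  obtain ⟨r, hr⟩ := Frm_num F
  have hcxr : ∀ σ, r σ ≠ r (ComplexEmbedding.conjugate σ) := fun σ h => hcx σ ((hr _ _).1 h)
  have hrc : ∀ σ τ, r σ = r τ → r (ComplexEmbedding.conjugate σ) =
      r (ComplexEmbedding.conjugate τ) := fun σ τ h => (hr _ _).2 (Frm_conj F ((hr _ _).1 h))
  let T : Type := {σ : L →+* ℂ // r σ < r (ComplexEmbedding.conjugate σ)}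
  let S : Type := {s : ℕ // ∃ t : T, r t.1 = s}
  have fT : Fintype T := Fintype.ofFinite T
  have fS : Fintype S := by
    have h1 : Finite S := (Set.finite_range fun t : T => r t.1).to_subtype
    exact Fintype.ofFinite S
  let pl : T → S := fun t => ⟨r t.1, t, rfl⟩
  have hsurj : ∀ s : S, ∃ t : T, pl t = s := by
    rintro ⟨s, t, ht⟩
    exact ⟨t, Subtype.ext ht⟩
  choose rep hrep using hsurj
  have hpl : ∀ t t' : T, pl t = pl t' ↔ Ag F t.1 t'.1 := by
    intro t t'
    rw [← hr]
    exact Subtype.ext_iff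
  have hncA : ∀ t t' : T, ¬ Ag F t.1 (ComplexEmbedding.conjugate t'.1) := by
    intro t t' h
    have h1 := (hr _ _).2 h
    have h2 := hrc _ _ h1
    rw [Frm_cc] at h2
    have h3 := t.2
    have h4 := t'.2
    omega
  have hinj : Function.Injective (fun t : T => t.1) := Subtype.val_injective
  have hnc : ∀ t t' : T, t.1 ≠ ComplexEmbedding.conjugate t'.1 := by
    intro t t' h
    exact hncA t t' (fun x _ => by rw [h])
  have hcov : ∀ σ : L →+* ℂ, ∃ t : T, t.1 = σ ∨ t.1 = ComplexEmbedding.conjugate σ := by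
    intro σ
    rcases lt_or_gt_of_ne (hcxr σ) with h | h
    · exact ⟨⟨σ, h⟩, Or.inl rfl⟩
    · exact ⟨⟨ComplexEmbedding.conjugate σ, by rw [Frm_cc]; exact h⟩, Or.inr rfl⟩
  have hI : ∀ t : T, ∃ A A' : Matrix (Fin m) (Fin m) ℂ, A * A' = 1 ∧ A' * A = 1 ∧
      ∀ X c, Inv P n k α X c → ent F t.1 X * A = A * ent F (rep (pl t)).1 X := by
    intro t
    exact hItw κ ϖ P L m F n k α hϖ hB hD _ _ ((hpl _ _).1 (hrep (pl t)))
  choose M M' hMM' hM'M hMX using hI
  obtain ⟨e, het, hef⟩ := Frm_basis F (fun t : T => t.1) M M' hinj hnc hM'M hcov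
  have hcomm : ∀ X c, Inv P n k α X c → F.Comm X := fun X c hX x v =>
    IsInv.comm hX () () (F.ρ x) (F.hρ x) v
  have hact : ∀ X c, Inv P n k α X c → ∀ t j, X (e (true, t, j)) =
      ∑ i, ent F (rep (pl t)).1 X i j • e (true, t, i) := by
    intro X c hX t j
    rw [het, Frm_u_act F t.1 (rep (pl t)).1 (M t) X (hcomm X c hX) (hMX t X c hX)]
    refine Finset.sum_congr rfl fun i _ => ?_
    rw [het]
  refine ⟨T, S, fT, inferInstance, fS, inferInstance, pl, fun t => t.1, e, ⟨?_, ?_⟩,
    fun s => ⟨rep s, hrep s⟩, hpl, hncA, ?_, ?_⟩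
  · intro X c hX
    refine ⟨fun s => ent F (rep s).1 X, hact X c hX, ?_⟩
    exact Frm_false F (fun t : T => t.1) M M' hinj hnc hM'M e het hef X c (hcomm X c hX)
      (fun u v => IsInv.pol hX () u v) (fun t => ent F (rep (pl t)).1 X) (hact X c hX)
  · intro s y hy
    obtain ⟨X, hX, hXy, hX0⟩ := hsl (rep s).1 y hy
    refine ⟨X, hX, fun t j => ?_⟩
    by_cases h : pl t = s
    · rw [if_pos h, hact X 0 hX t j, h, hXy]
    · rw [if_neg h]
      have h1 : ent F t.1 X = 0 := hX0 _ (fun h2 => h (((hpl _ _).2 h2).trans (hrep s)))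
        (hncA t (rep s))
      rw [het, Frm_u, map_sum]
      refine Finset.sum_eq_zero fun i _ => ?_
      rw [map_smul, ent_act F t.1 X (hcomm X 0 hX), h1]
      simp
  · intro t j x
    rw [het, Frm_u_eig]
  · intro t j x
    rw [hef, Frm_w_eig]

end KT2
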