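import Pool.Agent.KT2.St
import Pool.Agent.Helper84.AutC

/-!
# KT2, module KAN: conformal matrices give an antilinear intertwiner
-/

set_option autoImplicit false

namespace KT2

open Module Matrix NumberField Pool.Agent.Helper7
open Pool.Agent.Helper8.D (ent ent_apply ent_act ent_mul)
open PSQ (W Inv BetR DRA)
open BTL (ConfM)

section mat

variable {m : ℕ}

private theorem Kan_cancel {U V : Matrix (Fin m) (Fin m) ℂ} (hVU : V * U = 1)
    (X : Matrix (Fin m) (Fin m) ℂ) : V * (U * X) = X := by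
  rw [← Matrix.mul_assoc, hVU, Matrix.one_mul]

/-- brackets of conformal matrices are skew -/
private theorem Kan_bracket {U V M N : Matrix (Fin m) (Fin m) ℂ} (hVU : V * U = 1)
    (hM : ConfM U V M) (hN : ConfM U V N) :
    ∃ S : Matrix (Fin m) (Fin m) ℂ, Sᵀ = -S ∧ M * N - N * M = U * S * V := by
  obtain ⟨a, S, hS, rfl⟩ := hM
  obtain ⟨b, T, hT, rfl⟩ := hN
  refine ⟨S * T - T * S, ?_, ?_⟩
  · rw [Matrix.transpose_sub, Matrix.transpose_mul, Matrix.transpose_mul, hS, hT]
    simp only [Matrix.neg_mul, Matrix.mul_neg, neg_neg, neg_sub]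
  · have h1 : U * S * V * (U * T * V) = U * (S * T) * V := by
      simp only [Matrix.mul_assoc]
      rw [Kan_cancel hVU]
    have h2 : U * T * V * (U * S * V) = U * (T * S) * V := by
      simp only [Matrix.mul_assoc]
      rw [Kan_cancel hVU]
    rw [Matrix.add_mul, Matrix.add_mul, Matrix.mul_add, Matrix.mul_add, Matrix.mul_add,
      Matrix.mul_add, h1, h2, Matrix.mul_sub, Matrix.sub_mul]
    simp only [Matrix.smul_mul, Matrix.mul_smul, Matrix.one_mul, Matrix.mul_one]
    rw [smul_comm a b]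
    abel

private theorem Kan_map (τ : ℂ ≃+* ℂ) {U V M : Matrix (Fin m) (Fin m) ℂ} (h : ConfM U V M) :
    ConfM (U.map τ) (V.map τ) (M.map τ) := by
  obtain ⟨c, S, hS, rfl⟩ := h
  refine ⟨τ c, S.map τ, ?_, ?_⟩
  · ext i j
    have h1 : S j i = -S i j := congrFun (congrFun hS i) j
    show τ (S j i) = -τ (S i j)
    rw [h1, map_neg]
  · ext i j
    rw [Matrix.map_apply, Matrix.add_apply, map_add, Matrix.add_apply, ← Matrix.map_mul,
      ← Matrix.map_mul]
    congr 1
    rw [Matrix.smul_apply, Matrix.smul_apply, smul_eq_mul, smul_eq_mul, map_mul,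
      Matrix.one_apply]
    split_ifs
    · rw [map_one]
    · rw [map_zero]

/-- the intertwiner -/
private theorem Kan_mat {G G' U V : Matrix (Fin m) (Fin m) ℂ} (hUV : U * V = 1) (hVU : V * U = 1)
    (hG : G * G' = 1) (hG' : G' * G = 1) :
    ∃ B B' : Matrix (Fin m) (Fin m) ℂ, B * B' = 1 ∧ B' * B = 1 ∧
      ∀ A' S : Matrix (Fin m) (Fin m) ℂ, Sᵀ = -S → A'ᵀ * G + G * (U * S * V) = 0 →
        A' * B = B * (U * S * V) := by
  have e1 : G'ᵀ * Gᵀ = 1 := by rw [← Matrix.transpose_mul, hG, Matrix.transpose_one]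
  have e2 : Gᵀ * G'ᵀ = 1 := by rw [← Matrix.transpose_mul, hG', Matrix.transpose_one]
  have e3 : Vᵀ * Uᵀ = 1 := by rw [← Matrix.transpose_mul, hUV, Matrix.transpose_one]
  have e4 : Uᵀ * Vᵀ = 1 := by rw [← Matrix.transpose_mul, hVU, Matrix.transpose_one]
  refine ⟨G'ᵀ * (Vᵀ * V), U * (Uᵀ * Gᵀ), ?_, ?_, ?_⟩
  · simp only [Matrix.mul_assoc]
    rw [Kan_cancel hVU, Kan_cancel e3, e1]
  · simp only [Matrix.mul_assoc]
    rw [Kan_cancel e2, Kan_cancel e4, hUV]
  · intro A' S hS h
    have h1 : Gᵀ * A' = -((U * S * V)ᵀ * Gᵀ) := by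
      have h2 := congrArg Matrix.transpose h
      rw [Matrix.transpose_add, Matrix.transpose_mul, Matrix.transpose_mul,
        Matrix.transpose_transpose, Matrix.transpose_zero] at h2
      exact eq_neg_of_add_eq_zero_left h2
    have h3 : A' = -(G'ᵀ * ((U * S * V)ᵀ * Gᵀ)) := by
      rw [← Matrix.mul_neg, ← h1, Kan_cancel e1]
    have h4 : (U * S * V)ᵀ * Vᵀ = -(Vᵀ * S) := by
      rw [← Matrix.transpose_mul, Matrix.mul_assoc U, Kan_cancel hVU, Matrix.transpose_mul, hS,
        Matrix.mul_neg]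
    rw [h3, Matrix.neg_mul]
    simp only [Matrix.mul_assoc] at h4 ⊢
    rw [Kan_cancel e2, Kan_cancel hVU, ← Matrix.mul_assoc _ Vᵀ V, h4, Matrix.neg_mul,
      Matrix.mul_neg, neg_neg, Matrix.mul_assoc]

end mat

section

variable {κ : Type} [Fintype κ] [DecidableEq κ] {ϖ : ℂ} {P : PData κ ϖ} {L : Type} [Field L]
  [NumberField L] {m : ℕ}

private theorem Kan_comm (F : UF P L m) {n k : ℕ}
    {α : MultilinearMap ℂ (fun _ : Fin (2 * k) => W κ n) ℂ}
    {X : Module.End ℂ (κ → ℂ)} {c : ℂ} (hX : Inv P n k α X c) : F.Comm X :=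
  F.comm_of_isInv (fun _ : Unit => n) (fun _ => P) α () hX

/-- the Gram matrix of two conjugate eigenspaces -/
private noncomputable def Kan_G (F : UF P L m) (σ : L →+* ℂ) : Matrix (Fin m) (Fin m) ℂ :=
  Matrix.of fun a b => P.ψ (F.e (ComplexEmbedding.conjugate σ) a) (F.e σ b)

private theorem Kan_G_inv (F : UF P L m) (σ : L →+* ℂ) :
    ∃ G' : Matrix (Fin m) (Fin m) ℂ, Kan_G F σ * G' = 1 ∧ G' * Kan_G F σ = 1 := by
  classical
  have hu : IsUnit (Kan_G F σ) := by
    rw [← Matrix.mulVec_injective_iff_isUnit]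
    intro u v huv
    have h1 : Kan_G F σ *ᵥ (u - v) = 0 := by
      rw [Matrix.mulVec_sub]
      exact sub_eq_zero.mpr huv
    refine sub_eq_zero.mp ?_
    have h2 : (∑ b, (u - v) b • F.e σ b) = 0 := by
      apply P.hψnd
      intro w
      rw [P.hψalt, neg_eq_zero]
      refine F.ext_e (P.ψ.flip (∑ b, (u - v) b • F.e σ b)) 0 (fun τ a => ?_) w
      show P.ψ (F.e τ a) (∑ b, (u - v) b • F.e σ b) = 0
      rw [map_sum]
      by_cases hτ : τ = ComplexEmbedding.conjugate σ
      · subst hτ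
        have h3 : ∑ b, P.ψ (F.e (ComplexEmbedding.conjugate σ) a) (F.e σ b) * (u - v) b = 0 :=
          congrFun h1 a
        rw [← h3]
        refine Finset.sum_congr rfl fun b _ => ?_
        rw [map_smul, smul_eq_mul, mul_comm]
      · refine Finset.sum_eq_zero fun b _ => ?_
        rw [map_smul, F.psi_e, smul_zero]
        intro h
        apply hτ
        rw [h]
        exact (ComplexEmbedding.involutive_conjugate L τ).symm
    funext b
    have h4 := congrArg (F.co σ b) h2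
    rw [map_sum, Finset.sum_eq_single b, map_smul, F.co_e, if_pos ⟨rfl, rfl⟩, smul_eq_mul,
      mul_one, map_zero] at h4
    · exact h4
    · intro j _ hj
      rw [map_smul, F.co_e, if_neg (fun h => hj h.2.symm), smul_zero]
    · intro h
      exact absurd (Finset.mem_univ _) h
  obtain ⟨u, hu⟩ := hu
  refine ⟨(u⁻¹ : (Matrix (Fin m) (Fin m) ℂ)ˣ), ?_, ?_⟩
  · rw [← hu]
    exact u.mul_inv
  · rw [← hu]
    exact u.inv_mul

/-- the matrices of a symmetry of multiplier zero at two conjugate embeddings -/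
private theorem Kan_G_rel (F : UF P L m) {n k : ℕ}
    {α : MultilinearMap ℂ (fun _ : Fin (2 * k) => W κ n) ℂ} {Y : Module.End ℂ (κ → ℂ)}
    (hY : Inv P n k α Y 0) (σ : L →+* ℂ) :
    (ent F (ComplexEmbedding.conjugate σ) Y)ᵀ * Kan_G F σ + Kan_G F σ * ent F σ Y = 0 := by
  have hc : F.Comm Y := Kan_comm F hY
  ext a b
  have h1 := hY.pol () (F.e (ComplexEmbedding.conjugate σ) a) (F.e σ b)
  have h2 : P.ψ (Y (F.e (ComplexEmbedding.conjugate σ) a)) (F.e σ b) +
      P.ψ (F.e (ComplexEmbedding.conjugate σ) a) (Y (F.e σ b)) = 0 := by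
    refine h1.trans ?_
    exact zero_mul _
  rw [ent_act F _ Y hc, ent_act F σ Y hc, map_sum, LinearMap.sum_apply, map_sum] at h2
  rw [Matrix.add_apply, Matrix.mul_apply, Matrix.mul_apply, Matrix.zero_apply, ← h2]
  congr 1
  · refine Finset.sum_congr rfl fun i _ => ?_
    rw [map_smul, LinearMap.smul_apply, smul_eq_mul]
    rfl
  · refine Finset.sum_congr rfl fun i _ => ?_
    rw [map_smul, smul_eq_mul, mul_comm]
    rfl

/-- symmetries are conformal -/
private theorem Kan_conf (F : UF P L m) {n k : ℕ}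
    {α : MultilinearMap ℂ (fun _ : Fin (2 * k) => W κ n) ℂ} {U V : Matrix (Fin m) (Fin m) ℂ}
    (σ : L →+* ℂ) (hc : ∀ M ∈ sAt n k α F σ, ConfM U V M) {X : Module.End ℂ (κ → ℂ)} {c : ℂ}
    (hX : Inv P n k α X c) : ConfM U V (ent F σ X) := by
  have h1 : Inv P n k α (X + (-c) • ((1 / 2 : ℂ) • (1 : Module.End ℂ (κ → ℂ)))) 0 := by
    have h2 := IsInv.add _ _ _ hX
      (IsInv.smul _ _ _ (-c) (Pool.Agent.Helper98.Ball.isInv_homothety (fun _ : Unit => n)
        (fun _ => P) α))
    have e : ((fun _ => X + (-c) • ((1 / 2 : ℂ) • (1 : Module.End ℂ (κ → ℂ))), 0) :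
        GG (fun _ : Unit => κ)) = ((fun _ => X, c) : GG (fun _ : Unit => κ)) +
        (-c) • ((fun _ => (1 / 2 : ℂ) • (1 : Module.End ℂ _), 1) : GG (fun _ : Unit => κ)) := by
      refine Prod.ext rfl ?_
      show (0 : ℂ) = c + (-c) * 1
      ring
    show IsInv _ _ _ _
    rw [e]
    exact h2
  obtain ⟨a, S, hS, h3⟩ := hc _ ⟨_, h1, rfl⟩
  have h4 : ent F σ (1 : Module.End ℂ (κ → ℂ)) = 1 := by
    classical
    ext a b
    rw [ent_apply, Module.End.one_apply, F.co_e, Matrix.one_apply]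
    simp
  rw [map_add, map_smul, map_smul, h4] at h3
  refine ⟨a + c * (1 / 2), S, hS, ?_⟩
  rw [add_smul, add_right_comm, ← h3, smul_smul]
  rw [add_assoc, ← add_smul]
  simp

private theorem Kan_one (hTwi : St_Twi) (F : UF P L m) {n k : ℕ}
    {α : MultilinearMap ℂ (fun _ : Fin (2 * k) => W κ n) ℂ} (hϖ : ϖ ≠ 0) (hB : BetR P n k α)
    (σ₀ : L →+* ℂ) (U V : Matrix (Fin m) (Fin m) ℂ) (hUV : U * V = 1) (hVU : V * U = 1)
    (hc : ∀ M ∈ sAt n k α F σ₀, ConfM U V M) (σ : L →+* ℂ) :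
    ∃ B B' : Matrix (Fin m) (Fin m) ℂ, B * B' = 1 ∧ B' * B = 1 ∧
      ∀ Y, IsBr P n k α Y →
        ent F (ComplexEmbedding.conjugate σ) Y * B = B * ent F σ Y := by
  obtain ⟨τ, hτ⟩ := Pool.Agent.Helper84.exists_aut σ₀ σ
  have hc' : ∀ M ∈ sAt n k α F σ, ConfM (U.map τ) (V.map τ) M := by
    intro M hM
    have h1 := (hTwi κ ϖ P L m F n k α hϖ hB τ.symm σ M).1 hM
    have h2 : (τ.symm : ℂ →+* ℂ).comp σ = σ₀ := by
      rw [← hτ]
      ext x
      exact τ.symm_apply_apply (σ₀ x)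
    rw [h2] at h1
    have h3 := Kan_map τ (hc _ h1)
    have h4 : (M.map τ.symm).map τ = M := by
      ext i j
      exact τ.apply_symm_apply _
    rwa [h4] at h3
  have hUV' : U.map τ * V.map τ = 1 := by
    rw [← Matrix.map_mul, hUV]
    exact Matrix.map_one _ (map_zero τ) (map_one τ)
  have hVU' : V.map τ * U.map τ = 1 := by
    rw [← Matrix.map_mul, hVU]
    exact Matrix.map_one _ (map_zero τ) (map_one τ)
  obtain ⟨G', hG, hG'⟩ := Kan_G_inv F σ
  obtain ⟨B, B', hB1, hB2, hBm⟩ := Kan_mat hUV' hVU' hG hG'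
  refine ⟨B, B', hB1, hB2, ?_⟩
  rintro Y ⟨X, X', c, c', hX, hX', rfl⟩
  have h5 : ent F σ (X * X' - X' * X) = ent F σ X * ent F σ X' - ent F σ X' * ent F σ X := by
    rw [map_sub, ent_mul F σ X X' (Kan_comm F hX'), ent_mul F σ X' X (Kan_comm F hX)]
  obtain ⟨S, hS, h6⟩ := Kan_bracket hVU' (Kan_conf F σ hc' hX) (Kan_conf F σ hc' hX')
  rw [h5, h6]
  refine hBm _ S hS ?_
  rw [← h6, ← h5]
  refine Kan_G_rel (n := n) (k := k) (α := α) F ?_ σ
  have h7 := IsInv.bracket _ _ _ hX hX'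
  have e : ((fun _ => X * X' - X' * X, 0) : GG (fun _ : Unit => κ)) =
      ((fun _ => X, c) : GG (fun _ : Unit => κ)) * (fun _ => X', c') -
        (fun _ => X', c') * (fun _ => X, c) := by
    refine Prod.ext rfl ?_
    show (0 : ℂ) = c * c' - c' * c
    ring
  show IsInv _ _ _ _
  rw [e]
  exact h7

end

theorem thm_Kan (hTwi : St_Twi) : St_Kan := by
  intro κ _ _ ϖ P L _ _ m F n k α hϖ hB hA σ₀ U V hUV hVU hc
  choose B B' hB1 hB2 hB3 using fun σ => Kan_one hTwi F hϖ hB σ₀ U V hUV hVU hc σ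
  let b : Module.End ℂ (κ → ℂ) := F.eb.constr ℂ
    (fun s => ∑ i, B s.1 i s.2 • F.e (ComplexEmbedding.conjugate s.1) i)
  have hb : ∀ σ j, b (F.e σ j) = ∑ i, B σ i j • F.e (ComplexEmbedding.conjugate σ) i := by
    intro σ j
    show F.eb.constr ℂ _ (F.eb (σ, j)) = _
    rw [Basis.constr_basis]
  have hcc : ∀ σ : L →+* ℂ, ComplexEmbedding.conjugate (ComplexEmbedding.conjugate σ) = σ :=
    fun σ => ComplexEmbedding.involutive_conjugate L σ
  have hsurj : Function.Surjective b := by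
    have h1 : ∀ τ l, F.e τ l ∈ LinearMap.range b := by
      intro τ l
      refine ⟨∑ j, B' (ComplexEmbedding.conjugate τ) j l • F.e (ComplexEmbedding.conjugate τ) j,
        ?_⟩
      rw [map_sum]
      simp only [map_smul, hb, hcc, Finset.smul_sum, smul_smul]
      rw [Finset.sum_comm]
      have h2 : ∀ i, ∑ j, (B' (ComplexEmbedding.conjugate τ) j l *
          B (ComplexEmbedding.conjugate τ) i j) • F.e τ i =
          ((1 : Matrix (Fin m) (Fin m) ℂ) i l) • F.e τ i := by
        intro i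
        rw [← Finset.sum_smul, ← hB1 (ComplexEmbedding.conjugate τ), Matrix.mul_apply]
        congr 1
        exact Finset.sum_congr rfl fun j _ => mul_comm _ _
      simp only [h2]
      rw [Finset.sum_eq_single l, Matrix.one_apply_eq, one_smul]
      · intro i _ hi
        rw [Matrix.one_apply_ne hi, zero_smul]
      · intro h
        exact absurd (Finset.mem_univ _) h
    intro v
    have h3 : v ∈ LinearMap.range b := by
      rw [F.hsum v]
      exact Submodule.sum_mem _ fun σ _ => Submodule.sum_mem _ fun j _ =>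
        Submodule.smul_mem _ _ (h1 σ j)
    exact h3
  refine ⟨b, ⟨LinearMap.injective_iff_surjective.2 hsurj, hsurj⟩, ?_, ?_⟩
  · intro Y hY
    have hYc : F.Comm Y := by
      obtain ⟨X, X', c, c', hX, hX', rfl⟩ := hY
      intro x v
      simp only [LinearMap.sub_apply, Module.End.mul_apply, map_sub]
      rw [Kan_comm F hX', Kan_comm F hX, Kan_comm F hX, Kan_comm F hX']
    refine LinearMap.ext fun v => F.ext_e (b * Y) (Y * b) (fun σ j => ?_) v
    rw [Module.End.mul_apply, Module.End.mul_apply, ent_act F σ Y hYc, map_sum, hb, map_sum]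
    simp only [map_smul, hb, ent_act F _ Y hYc, Finset.smul_sum, smul_smul]
    rw [Finset.sum_comm]
    conv_rhs => rw [Finset.sum_comm]
    refine Finset.sum_congr rfl fun i _ => ?_
    rw [← Finset.sum_smul, ← Finset.sum_smul]
    congr 1
    have h4 := congrFun (congrFun (hB3 σ Y hY) i) j
    rw [Matrix.mul_apply, Matrix.mul_apply] at h4
    rw [Finset.sum_congr rfl fun l _ => mul_comm (ent F σ Y l j) (B σ i l), ← h4]
    exact Finset.sum_congr rfl fun l _ => mul_comm _ _
  · intro x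
    refine LinearMap.ext fun v => F.ext_e (b * F.ρ x) (F.ρ (F.cc x) * b) (fun σ j => ?_) v
    rw [Module.End.mul_apply, Module.End.mul_apply, F.rho_e, map_smul, hb, map_sum,
      Finset.smul_sum]
    refine Finset.sum_congr rfl fun i _ => ?_
    rw [map_smul, F.rho_e, smul_smul, smul_smul, ComplexEmbedding.conjugate_coe_eq, F.hcc,
      Complex.conj_conj, mul_comm]

end KT2
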