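import Pool.Agent.KT2.St

/-!
# KT2: an intertwiner over the complex numbers gives one over the rational numbers
-/

set_option autoImplicit false

namespace KT2

open Module Matrix NumberField Pool.Agent.Helper7

/-- The entries of a complex matrix are rational combinations of complex numbers which are linearly
independent over `ℚ`. -/
lemma Lin_decomp {ι : Type} (B : Matrix ι ι ℂ) [Finite ι] :
    ∃ (r : ℕ) (t : Fin r → ℂ) (C : Fin r → Matrix ι ι ℚ), LinearIndependent ℚ t ∧
      ∀ i j, B i j = ∑ k, t k * (C k i j : ℂ) := by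
  classical
  let V : Submodule ℚ ℂ := Submodule.span ℚ (Set.range fun p : ι × ι => B p.1 p.2)
  have : FiniteDimensional ℚ V := FiniteDimensional.span_of_finite ℚ (Set.finite_range _)
  have hm : ∀ i j, B i j ∈ V := fun i j => Submodule.subset_span ⟨(i, j), rfl⟩
  let t := Module.finBasis ℚ V
  refine ⟨Module.finrank ℚ V, fun k => (t k : ℂ),
    fun k => Matrix.of fun i j => t.repr ⟨B i j, hm i j⟩ k, ?_, fun i j => ?_⟩
  · exact t.linearIndependent.map' V.subtype (Submodule.ker_subtype V)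
  · have h := congrArg (fun v : V => (v : ℂ)) (t.sum_repr ⟨B i j, hm i j⟩)
    simp only [Submodule.coe_sum, Submodule.coe_smul, Rat.smul_def] at h
    rw [← h]
    exact Finset.sum_congr rfl fun k _ => mul_comm _ _

/-- An invertible complex solution of rational linear equations `B A = A' B` gives an invertible
rational one. -/
lemma Lin_mat {ι : Type} [Fintype ι] [DecidableEq ι] (S : Set (Matrix ι ι ℚ × Matrix ι ι ℚ))
    (B : Matrix ι ι ℂ) (hB : B.det ≠ 0)
    (h : ∀ p ∈ S, B * p.1.map (algebraMap ℚ ℂ) = p.2.map (algebraMap ℚ ℂ) * B) :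
    ∃ B₀ : Matrix ι ι ℚ, B₀.det ≠ 0 ∧ ∀ p ∈ S, B₀ * p.1 = p.2 * B₀ := by
  obtain ⟨r, t, C, ht, hC⟩ := Lin_decomp B
  have hsol : ∀ k, ∀ p ∈ S, C k * p.1 = p.2 * C k := by
    intro k p hp
    ext i j
    have h1 := congrFun (congrFun (h p hp) i) j
    rw [Matrix.mul_apply, Matrix.mul_apply] at h1
    have h2 : ∑ k, ((C k * p.1) i j - (p.2 * C k) i j) • t k = 0 := by
      have e1 : ∑ l, B i l * p.1.map (algebraMap ℚ ℂ) l j = ∑ k, ((C k * p.1) i j) • t k := by
        simp only [hC, Matrix.mul_apply, Matrix.map_apply, Rat.smul_def, Rat.cast_sum,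
          Rat.cast_mul, Finset.sum_mul, eq_ratCast]
        rw [Finset.sum_comm]
        exact Finset.sum_congr rfl fun k _ => Finset.sum_congr rfl fun l _ => by ring
      have e2 : ∑ l, p.2.map (algebraMap ℚ ℂ) i l * B l j = ∑ k, ((p.2 * C k) i j) • t k := by
        simp only [hC, Matrix.mul_apply, Matrix.map_apply, Rat.smul_def, Rat.cast_sum,
          Rat.cast_mul, Finset.sum_mul, Finset.mul_sum, eq_ratCast]
        rw [Finset.sum_comm]
        exact Finset.sum_congr rfl fun k _ => Finset.sum_congr rfl fun l _ => by ring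
      rw [e1, e2] at h1
      simp only [sub_smul, Finset.sum_sub_distrib]
      rw [h1, sub_self]
    exact sub_eq_zero.mp (Fintype.linearIndependent_iff.mp ht _ h2 k)
  -- the determinant as a polynomial
  let D : MvPolynomial (Fin r) ℚ :=
    (Matrix.of fun i j => ∑ k, MvPolynomial.X k * MvPolynomial.C (C k i j)).det
  have hev : ∀ (R : Type) [CommRing R] [Algebra ℚ R] (x : Fin r → R),
      MvPolynomial.aeval x D = (Matrix.of fun i j => ∑ k, x k * algebraMap ℚ R (C k i j)).det := by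
    intro R _ _ x
    rw [AlgHom.map_det]
    congr 1
    ext i j
    simp [AlgHom.mapMatrix_apply]
  have hD : D ≠ 0 := by
    intro h0
    have h1 := hev ℂ t
    rw [h0, map_zero] at h1
    apply hB
    rw [h1]
    congr 1
    ext i j
    rw [Matrix.of_apply, hC]
    simp
  obtain ⟨x, hx⟩ : ∃ x : Fin r → ℚ, MvPolynomial.eval x D ≠ 0 := by
    by_contra hcon
    simp only [not_exists, not_not] at hcon
    exact hD (MvPolynomial.funext fun x => by rw [hcon x, map_zero])
  refine ⟨∑ k, x k • C k, ?_, fun p hp => ?_⟩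
  · have h1 := hev ℚ x
    rw [MvPolynomial.aeval_eq_eval] at h1
    rw [h1] at hx
    have h2 : (∑ k, x k • C k) = Matrix.of fun i j => ∑ k, x k * algebraMap ℚ ℚ (C k i j) := by
      ext i j
      simp [Matrix.sum_apply]
    rw [h2]
    exact hx
  · rw [Finset.sum_mul, Finset.mul_sum]
    exact Finset.sum_congr rfl fun k _ => by rw [Matrix.smul_mul, Matrix.mul_smul, hsol k p hp]

/-- The matrix of a rational operator. -/
lemma Lin_rat {κ : Type} [Fintype κ] [DecidableEq κ] {ϖ : ℂ} (P : PData κ ϖ) [DecidableEq P.ι]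
    (f : Module.End ℂ (κ → ℂ)) (hf : ∀ v ∈ P.Q, f v ∈ P.Q) :
    ∃ A : Matrix P.ι P.ι ℚ, A.map (algebraMap ℚ ℂ) = LinearMap.toMatrix P.bB P.bB f := by
  choose A hA using fun i j => P.repr_rat (f (P.bB j)) (hf _ (P.basis_mem j)) i
  refine ⟨Matrix.of A, ?_⟩
  ext i j
  rw [Matrix.map_apply, Matrix.of_apply, LinearMap.toMatrix_apply, hA, eq_ratCast]

/-- **LIN.** -/
theorem thm_Lin : St_Lin := by
  classical
  intro κ _ _ ϖ P Φ hΦ ⟨b, hb, hbΦ⟩
  choose! A hA using fun (p : Module.End ℂ (κ → ℂ) × Module.End ℂ (κ → ℂ)) (hp : p ∈ Φ) =>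
    Lin_rat P p.1 (hΦ p hp).1
  choose! A' hA' using fun (p : Module.End ℂ (κ → ℂ) × Module.End ℂ (κ → ℂ)) (hp : p ∈ Φ) =>
    Lin_rat P p.2 (hΦ p hp).2
  obtain ⟨B₀, hdet, hB₀⟩ := Lin_mat ((fun p => (A p, A' p)) '' Φ) (LinearMap.toMatrix P.bB P.bB b)
    (by
      have h1 : IsUnit b := (Module.End.isUnit_iff b).2 hb
      have h2 : IsUnit (LinearMap.toMatrix P.bB P.bB b) := by
        have := h1.map (LinearMap.toMatrixAlgEquiv P.bB)
        exact this
      exact ((Matrix.isUnit_iff_isUnit_det _).1 h2).ne_zero)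
    (by
      rintro _ ⟨p, hp, rfl⟩
      rw [hA p hp, hA' p hp, ← LinearMap.toMatrix_mul, ← LinearMap.toMatrix_mul, hbΦ p hp])
  have hunit : IsUnit (B₀.map (algebraMap ℚ ℂ)) := by
    rw [Matrix.isUnit_iff_isUnit_det]
    have h1 : (B₀.map (algebraMap ℚ ℂ)).det = algebraMap ℚ ℂ B₀.det := by
      rw [RingHom.map_det]
      rfl
    rw [h1]
    exact (isUnit_iff_ne_zero.2 hdet).map (algebraMap ℚ ℂ)
  refine ⟨Matrix.toLin P.bB P.bB (B₀.map (algebraMap ℚ ℂ)), ?_, ?_, fun p hp => ?_⟩
  · rw [← Module.End.isUnit_iff]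
    exact hunit.map (Matrix.toLinAlgEquiv P.bB)
  · intro v hv
    unfold PData.Q at hv
    induction hv using Submodule.span_induction with
    | mem x hx =>
      obtain ⟨j, rfl⟩ := hx
      rw [Matrix.toLin_self]
      refine Submodule.sum_mem _ fun i _ => ?_
      have h1 : (B₀.map (algebraMap ℚ ℂ)) i j • P.bB i = (B₀ i j) • P.bB i := by
        rw [Matrix.map_apply, algebraMap_smul]
      rw [h1]
      exact Submodule.smul_mem _ _ (P.basis_mem i)
    | zero => rw [map_zero]; exact Submodule.zero_mem _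
    | add x y _ _ hx hy => rw [map_add]; exact Submodule.add_mem _ hx hy
    | smul q x _ hx =>
      have h1 : Matrix.toLin P.bB P.bB (B₀.map (algebraMap ℚ ℂ)) (q • x) =
          q • Matrix.toLin P.bB P.bB (B₀.map (algebraMap ℚ ℂ)) x := by
        rw [← algebraMap_smul ℂ q x, map_smul, algebraMap_smul]
      rw [h1]
      exact Submodule.smul_mem _ _ hx
  · apply (LinearMap.toMatrix P.bB P.bB).injective
    rw [LinearMap.toMatrix_mul, LinearMap.toMatrix_mul, LinearMap.toMatrix_toLin, ← hA p hp,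
      ← hA' p hp]
    have h1 := hB₀ (A p, A' p) ⟨p, hp, rfl⟩
    have h2 := congrArg (fun M : Matrix P.ι P.ι ℚ => M.map (algebraMap ℚ ℂ)) h1
    simpa only [Matrix.map_mul] using h2

end KT2
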