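import Pool.Agent.KT2.St

/-!
# KT2, module Qua

The centre of the Lie algebra, for a quadratic centre of the endomorphism algebra.
-/

set_option autoImplicit false

namespace KT2

open Module Matrix NumberField Pool.Agent.Helper7
open PSQ (W Inv BetR DRA)

/-- The identity is a symmetry with multiplier `2`. -/
private lemma Qua_isInv_id {κ : Type} [Fintype κ] [DecidableEq κ] {ϖ : ℂ} (P : PData κ ϖ)
    (n k : ℕ) (α : MultilinearMap ℂ (fun _ : Fin (2 * k) => W κ n) ℂ) :
    IsInv (fun _ : Unit => n) (fun _ => P) α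
      ((fun _ => (LinearMap.id : Module.End ℂ (κ → ℂ))), (2 : ℂ)) where
  comm i j f hf v := rfl
  pol i u v := by
    show P.ψ u v + P.ψ u v = 2 * P.ψ u v
    ring
  form := by
    apply MultilinearMap.ext
    intro v
    rw [actForm_apply, _root_.smul_apply, smul_eq_mul]
    have h : ∀ r, α (Function.update v r
        (lift (fun _ : Unit => n) (fun _ => (LinearMap.id : Module.End ℂ (κ → ℂ))) (v r))) = α v := by
      intro r
      have h1 : lift (fun _ : Unit => n) (fun _ => (LinearMap.id : Module.End ℂ (κ → ℂ))) (v r) =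
        v r := rfl
      rw [h1, Function.update_eq_self]
    rw [Finset.sum_congr rfl fun r _ => h r, Finset.sum_const, Finset.card_univ, Fintype.card_fin,
      nsmul_eq_mul]
    push_cast
    ring

/-- A linear combination of symmetries of multiplier zero. -/
private lemma Qua_inv_comb {κ : Type} [Fintype κ] [DecidableEq κ] {ϖ : ℂ} {P : PData κ ϖ}
    {n k : ℕ} {α : MultilinearMap ℂ (fun _ : Fin (2 * k) => W κ n) ℂ}
    {X Y : Module.End ℂ (κ → ℂ)} (c : ℂ) (hX : Inv P n k α X 0) (hY : Inv P n k α Y 0) :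
    Inv P n k α (X + c • Y) 0 := by
  have h := IsInv.add _ _ _ hX (IsInv.smul _ _ _ c hY)
  have e : ((fun _ : Unit => X, (0 : ℂ)) : GG (fun _ : Unit => κ)) +
      c • ((fun _ : Unit => Y, (0 : ℂ)) : GG (fun _ : Unit => κ)) =
      ((fun _ : Unit => X + c • Y), (0 : ℂ)) := by
    refine Prod.ext rfl ?_
    show (0 : ℂ) + c • (0 : ℂ) = 0
    rw [smul_zero, add_zero]
  rw [e] at h
  exact h

/-- The comparison operator, made of multiplier zero. -/
private lemma Qua_inv_N {κ : Type} [Fintype κ] [DecidableEq κ] {ϖ : ℂ} (P : PData κ ϖ)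
    (n k : ℕ) (α : MultilinearMap ℂ (fun _ : Fin (2 * k) => W κ n) ℂ) (hϖ : ϖ ≠ 0)
    (hB : BetR P n k α) (hA : DRA n k α) (D : Derivation ℚ ℂ ℂ) :
    Inv P n k α (P.N D + (-(D ϖ / ϖ / 2)) • LinearMap.id) 0 := by
  have hN := isInv_N (fun _ : Unit => n) (fun _ => P) α hϖ hB hA D
  have h := IsInv.add _ _ _ hN (IsInv.smul _ _ _ (-(D ϖ / ϖ / 2)) (Qua_isInv_id P n k α))
  have e : ((fun _ : Unit => P.N D, D ϖ / ϖ) : GG (fun _ : Unit => κ)) +
      (-(D ϖ / ϖ / 2)) • ((fun _ : Unit => (LinearMap.id : Module.End ℂ (κ → ℂ)), (2 : ℂ)) :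
        GG (fun _ : Unit => κ)) =
      ((fun _ : Unit => P.N D + (-(D ϖ / ϖ / 2)) • LinearMap.id), (0 : ℂ)) := by
    refine Prod.ext rfl ?_
    show D ϖ / ϖ + (-(D ϖ / ϖ / 2)) • (2 : ℂ) = 0
    rw [smul_eq_mul]
    ring
  rw [e] at h
  exact h

/-- The trace in the frame. -/
private lemma Qua_trace {κ : Type} [Fintype κ] {m : ℕ} {T : Type} [Fintype T] [DecidableEq T]
    (e : Basis (Bool × T × Fin m) ℂ (κ → ℂ)) (A B : Matrix (Fin m) (Fin m) ℂ) (z w : ℂ)
    (Y : Module.End ℂ (κ → ℂ))
    (h1 : ∀ t j, Y (e (true, t, j)) = z • ∑ i, A i j • e (true, t, i))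
    (h2 : ∀ t i, Y (e (false, t, i)) = w • ∑ j, B i j • e (false, t, j)) :
    LinearMap.trace ℂ (κ → ℂ) Y = Fintype.card T * (z * A.trace + w * B.trace) := by
  classical
  have key : ∀ (M : Matrix (Fin m) (Fin m) ℂ) (b : Bool) (t : T) (j : Fin m) (c : ℂ)
      (g : Fin m → ℂ), e.repr (c • ∑ i, g i • e (b, t, i)) (b, t, j) = c * g j := by
    intro M b t j c g
    rw [map_smul, map_sum, Finsupp.smul_apply, smul_eq_mul, Finsupp.finsetSum_apply]
    congr 1
    rw [Finset.sum_eq_single j]
    · rw [map_smul, Finsupp.smul_apply, smul_eq_mul, e.repr_self, Finsupp.single_eq_same, mul_one]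
    · intro i _ hi
      rw [map_smul, Finsupp.smul_apply, smul_eq_mul, e.repr_self, Finsupp.single_apply, if_neg,
        mul_zero]
      intro h
      apply hi
      have := congrArg (fun p : Bool × T × Fin m => p.2.2) h
      exact this
    · intro h
      exact absurd (Finset.mem_univ _) h
  rw [LinearMap.trace_eq_matrix_trace ℂ e, Matrix.trace, Fintype.sum_prod_type, Fintype.sum_bool]
  have ht : ∑ y : T × Fin m, (LinearMap.toMatrix e e Y).diag (true, y) =
      Fintype.card T * (z * A.trace) := by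
    rw [Fintype.sum_prod_type]
    have : ∀ t : T, ∑ j, (LinearMap.toMatrix e e Y).diag (true, t, j) = z * A.trace := by
      intro t
      rw [Matrix.trace, Finset.mul_sum]
      refine Finset.sum_congr rfl fun j _ => ?_
      rw [Matrix.diag_apply, LinearMap.toMatrix_apply, h1, key A]
      rfl
    rw [Finset.sum_congr rfl fun t _ => this t, Finset.sum_const, Finset.card_univ, nsmul_eq_mul]
  have hf : ∑ y : T × Fin m, (LinearMap.toMatrix e e Y).diag (false, y) =
      Fintype.card T * (w * B.trace) := by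
    rw [Fintype.sum_prod_type]
    have : ∀ t : T, ∑ j, (LinearMap.toMatrix e e Y).diag (false, t, j) = w * B.trace := by
      intro t
      rw [Matrix.trace, Finset.mul_sum]
      refine Finset.sum_congr rfl fun j _ => ?_
      rw [Matrix.diag_apply, LinearMap.toMatrix_apply, h2, key A]
      rfl
    rw [Finset.sum_congr rfl fun t _ => this t, Finset.sum_const, Finset.card_univ, nsmul_eq_mul]
  rw [ht, hf]
  ring

theorem thm_Qua : St_Qua := by
  intro κ _ _ ϖ P L _ _ m F n k α hm hϖ hB hA T S _ _ _ _ pl e z x hFr hS hxt hxf hT s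
  classical
  obtain ⟨D, hD⟩ := hT
  set μ : ℂ := D ϖ / ϖ / 2 with hμ
  set X₀ : Module.End ℂ (κ → ℂ) := P.N D + (-μ) • LinearMap.id with hX₀
  have hX : Inv P n k α X₀ 0 := Qua_inv_N P n k α hϖ hB hA D
  obtain ⟨y, hy1, hy2⟩ := hFr.act X₀ 0 hX
  -- the trace of the matrix is not zero
  have htr : (y s).trace ≠ 0 := by
    intro h0
    apply hD
    have e1 : LinearMap.trace ℂ (κ → ℂ) (X₀ * F.ρ x) =
        Fintype.card T * (z * (y s).trace + z * (y s).trace) := by
      refine Qua_trace e (y s) (y s) z z _ ?_ ?_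
      · intro t j
        rw [Module.End.mul_apply, hxt, map_smul, hy1, hS (pl t) s]
      · intro t i
        rw [Module.End.mul_apply, hxf, map_smul, hy2, hS (pl t) s, zero_smul, zero_sub, smul_neg,
          neg_smul, neg_neg]
    have e2 : LinearMap.trace ℂ (κ → ℂ) (F.ρ x) =
        Fintype.card T * (z * (1 : Matrix (Fin m) (Fin m) ℂ).trace +
          (-z) * (1 : Matrix (Fin m) (Fin m) ℂ).trace) := by
      refine Qua_trace e 1 1 z (-z) _ ?_ ?_
      · intro t j
        rw [hxt]
        congr 1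
        rw [Finset.sum_eq_single j]
        · rw [Matrix.one_apply_eq, one_smul]
        · intro i _ hi
          rw [Matrix.one_apply_ne hi, zero_smul]
        · intro h
          exact absurd (Finset.mem_univ _) h
      · intro t i
        rw [hxf]
        congr 1
        rw [Finset.sum_eq_single i]
        · rw [Matrix.one_apply_eq, one_smul]
        · intro j _ hj
          rw [Matrix.one_apply_ne (Ne.symm hj), zero_smul]
        · intro h
          exact absurd (Finset.mem_univ _) h
    have e3 : P.N D * F.ρ x = X₀ * F.ρ x + μ • F.ρ x := by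
      apply LinearMap.ext
      intro v
      show P.N D (F.ρ x v) = (P.N D (F.ρ x v) + (-μ) • (F.ρ x v)) + μ • F.ρ x v
      rw [neg_smul, neg_add_cancel_right]
    rw [e3, map_add, map_smul, e1, e2, h0]
    simp
  -- the matrix of trace zero
  set c : ℂ := m / (y s).trace with hc
  obtain ⟨X₁, hX1, hX1e⟩ := hFr.sl s (1 - c • y s) (by
    rw [Matrix.trace_sub, Matrix.trace_smul, smul_eq_mul, Matrix.trace_one, Fintype.card_fin, hc,
      div_mul_cancel₀ _ htr, sub_self])
  refine ⟨X₁ + c • X₀, Qua_inv_comb c hX1 hX, ?_⟩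
  intro t j
  rw [LinearMap.add_apply, LinearMap.smul_apply, hX1e, hy1, hS (pl t) s, if_pos rfl, if_pos rfl,
    Finset.smul_sum, ← Finset.sum_add_distrib]
  rw [Finset.sum_eq_single j]
  · rw [Matrix.sub_apply, Matrix.smul_apply, Matrix.one_apply_eq, smul_smul, ← add_smul,
      smul_eq_mul, sub_add_cancel, one_smul]
  · intro i _ hi
    rw [Matrix.sub_apply, Matrix.smul_apply, Matrix.one_apply_ne hi, smul_smul, ← add_smul,
      smul_eq_mul, sub_add_cancel, zero_smul]
  · intro h
    exact absurd (Finset.mem_univ _) h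

end KT2
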