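import Pool.Agent.KT2.St
import Pool.Agent.Helper8.B.Final2

/-!
# KT2 ROT: rotations at a place of the centre
-/

set_option autoImplicit false

open scoped ComplexConjugate

namespace KT2

open Module Matrix NumberField Pool.Agent.Helper7
open Pool.Agent.Ball
open Pool.Agent.Helper8.D (ent ent_apply ent_act ent_mul)
open Pool.Agent.Helper28.GPC (tw isInv_tw entry_tw tw_star tw_snd)
open PSQ (W Inv BetR DRA)

section family

variable {I : Type} [Fintype I] [DecidableEq I] (n : I → ℕ)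
  {κ : I → Type} [∀ i, Fintype (κ i)] [∀ i, DecidableEq (κ i)] {ϖ : ℂ}
  (P : ∀ i, PData (κ i) ϖ)
  {k : ℕ} (α : MultilinearMap ℂ (fun _ : Fin (2 * k) => HW κ n) ℂ)
  (i : I) {K : Type} [Field K] [NumberField K] {m : ℕ} (F : UF (P i) K m)

/-- the symmetries which vanish at all places with the property `A`: matrices at `σ` -/
noncomputable def Rot_cA (A : (K →+* ℂ) → Prop) (σ : K →+* ℂ) :
    Submodule ℂ (Matrix (Fin m) (Fin m) ℂ) where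
  carrier := {M | ∃ X, IsInv n P α X ∧ X.2 = 0 ∧ ent F σ (X.1 i) = M ∧
    ∀ τ, A τ → ent F τ (X.1 i) = 0}
  zero_mem' := ⟨0, IsInv.zero n P α, rfl, by
    show ent F σ (0 : Module.End ℂ (κ i → ℂ)) = 0
    rw [map_zero], fun τ _ => by
    show ent F τ (0 : Module.End ℂ (κ i → ℂ)) = 0
    rw [map_zero]⟩
  add_mem' := by
    rintro _ _ ⟨X, hX, h2, rfl, h4⟩ ⟨Y, hY, h3, rfl, h5⟩
    refine ⟨X + Y, hX.add n P α hY, ?_, ?_, fun τ h6 => ?_⟩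
    · show X.2 + Y.2 = 0
      rw [h2, h3, add_zero]
    · show ent F σ (X.1 i + Y.1 i) = _
      rw [map_add]
    · show ent F τ (X.1 i + Y.1 i) = 0
      rw [map_add, h4 τ h6, h5 τ h6, add_zero]
  smul_mem' := by
    rintro c _ ⟨X, hX, h2, rfl, h4⟩
    refine ⟨c • X, hX.smul n P α c, ?_, ?_, fun τ h6 => ?_⟩
    · show c • X.2 = 0
      rw [h2, smul_zero]
    · show ent F σ (c • X.1 i) = _
      rw [map_smul]
    · show ent F τ (c • X.1 i) = 0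
      rw [map_smul, h4 τ h6, smul_zero]

lemma Rot_cA_le (A : (K →+* ℂ) → Prop) (σ : K →+* ℂ) :
    Rot_cA n P α i F A σ ≤ gAt n P α i F σ := by
  rintro _ ⟨X, hX, h2, rfl, -⟩
  exact ⟨X, hX, h2, rfl⟩

lemma Rot_cA_br (A : (K →+* ℂ) → Prop) (σ : K →+* ℂ) :
    ∀ M ∈ gAt n P α i F σ, ∀ N ∈ Rot_cA n P α i F A σ,
      M * N - N * M ∈ Rot_cA n P α i F A σ := by
  rintro _ ⟨X, hX, h2, rfl⟩ _ ⟨Y, hY, h3, rfl, h5⟩
  refine ⟨X * Y - Y * X, hX.bracket n P α hY, ?_, ent_br n P α i F σ hX hY, fun τ h6 => ?_⟩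
  · show X.2 * Y.2 - Y.2 * X.2 = 0
    ring
  · rw [ent_br n P α i F τ hX hY, h5 τ h6, mul_zero, zero_mul, sub_zero]

variable (hϖ : ϖ ≠ 0)
  (hB : ∀ v : Fin (2 * k) → HW κ n, (∀ r, IsRatP n P (v r)) → ∃ q : ℚ, α v = ϖ ^ k * q)
  (hA : ∀ v : Fin (2 * k) → HW κ n, (∀ r i m j, IsAlgebraic ℚ (v r i m j)) →
      IsAlgebraic ℚ (α v))

include hϖ hB hA in
/-- concentration at a Lorentzian place -/
theorem Rot_conc (hm : 3 ≤ m) (σ₀ : K →+* ℂ) (hL : Lorentz (HG F σ₀))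
    (A : (K →+* ℂ) → Prop) (hsep : ∀ τ, A τ → Sep P i F σ₀ τ) :
    ∃ B : Matrix (Fin m) (Fin m) ℂ, B ∈ Rot_cA n P α i F A σ₀ ∧
      (∀ u v, hf (HG F σ₀) (B *ᵥ u) v + hf (HG F σ₀) u (B *ᵥ v) = 0) ∧
      (∀ v : Fin m → ℂ, v ∈ Submodule.span ℂ {w | ∃ r : ℝ, B *ᵥ w = (r : ℂ) • w}) ∧ B ≠ 0 := by
  classical
  obtain ⟨Y, hY, hY2, hY0, hYs, -⟩ := exists_hyper_at n P α i F σ₀
    (fun W hW hst => Pool.Agent.Helper98.Ball.M2 n P α i F hϖ hB hA _ W hW hst) hL.1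
    (hL.exists_pos (by omega)) (hL.2.imp fun _ h => h.1)
  obtain ⟨hsk, hdg⟩ := hYs σ₀
  have hne : ent F σ₀ (Y.1 i) ≠ 0 := by
    intro h
    apply hY0 0
    rw [h, zero_smul]
  obtain ⟨hZ, hI⟩ := mat_ideal hm (HG F σ₀) hL hL.nondeg (gAt n P α i F σ₀)
    (gAt_br n P α i F σ₀) (gAt_adj n P α i F hϖ hB σ₀) (gAt_irr n P α i F hϖ hB hA σ₀)
    (ent F σ₀ (Y.1 i)) ⟨Y, hY, hY2, rfl⟩ hsk hdg hne
  have key : ∀ S : Finset (K →+* ℂ), (∀ τ ∈ S, A τ) →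
      IsIdl n P α (S.inf fun τ => vanAt P i F τ) ∧
      ent F σ₀ (Y.1 i) ∈ kAt n P α i F (S.inf fun τ => vanAt P i F τ) σ₀ := by
    intro S
    induction S using Finset.induction_on with
    | empty =>
      intro _
      rw [Finset.inf_empty]
      exact ⟨IsIdl.top n P α, kAt_top n P α i F σ₀ ⟨Y, hY, hY2, rfl⟩⟩
    | insert τ S _ ih =>
      intro h
      obtain ⟨h1, h2⟩ := ih fun τ hτ => h τ (Finset.mem_insert_of_mem hτ)
      have h3 := h τ (Finset.mem_insert_self _ _)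
      rw [Finset.inf_insert]
      have h5 := isIdl_vanAt n P α i F hϖ hB τ
      refine ⟨h5.inf h1, ?_⟩
      refine conc_inf n P α i F σ₀ _ hZ hI h5 h1 ?_ h2 (kAt_adj n P α i F hϖ hB (h5.inf h1) σ₀)
      exact hI _ (kAt_le n P α i F _ σ₀) (kAt_br n P α i F h5 σ₀)
        (kAt_adj n P α i F hϖ hB h5 σ₀)
        (exists_sep n P α i F hϖ hB hA σ₀ τ (hsep τ h3))
  obtain ⟨-, X, hX, hX2, hXJ, hXe⟩ := key (Finset.univ.filter fun τ => A τ)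
    (fun τ hτ => (Finset.mem_filter.mp hτ).2)
  refine ⟨ent F σ₀ (Y.1 i), ⟨X, hX, hX2, hXe, fun τ h1 => ?_⟩, hsk, hdg, hne⟩
  have h3 : (Finset.univ.filter fun τ => A τ).inf
      (fun τ => vanAt P i F τ) ≤ vanAt P i F τ :=
    Finset.inf_le (Finset.mem_filter.mpr ⟨Finset.mem_univ _, h1⟩)
  exact (h3 hXJ).1

end family

theorem thm_Rot : St_Rot := by
  intro κ _ _ P L _ _ m F n k α hm hB hA σ₀ hL hsep
  have hϖ : (2 * Real.pi * Complex.I : ℂ) ≠ 0 := Complex.two_pi_I_ne_zero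
  obtain ⟨B, hBc, hBs, hBd, hB0⟩ := Rot_conc (fun _ : Unit => n) (fun _ : Unit => P) α () F hϖ
    hB hA hm σ₀ hL (fun τ => ¬ Ag F τ σ₀ ∧ ¬ Ag F τ (ComplexEmbedding.conjugate σ₀))
    (fun τ h => hsep τ h.1 h.2)
  obtain ⟨U, V, h1, h2, h3⟩ := Pool.Agent.Helper36.Ball.M5' hm (HG F σ₀) hL hL.nondeg
    (gAt (fun _ : Unit => n) (fun _ : Unit => P) α () F σ₀)
    (Rot_cA (fun _ : Unit => n) (fun _ : Unit => P) α () F
      (fun τ => ¬ Ag F τ σ₀ ∧ ¬ Ag F τ (ComplexEmbedding.conjugate σ₀)) σ₀)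
    (gAt_br (fun _ : Unit => n) (fun _ : Unit => P) α () F σ₀)
    (Rot_cA_le (fun _ : Unit => n) (fun _ : Unit => P) α () F _ σ₀)
    (Rot_cA_br (fun _ : Unit => n) (fun _ : Unit => P) α () F _ σ₀)
    (gAt_adj (fun _ : Unit => n) (fun _ : Unit => P) α () F hϖ hB σ₀)
    (gAt_irr (fun _ : Unit => n) (fun _ : Unit => P) α () F hϖ hB hA σ₀)
    B hBc hBs hBd hB0
  refine ⟨U, V, h1, h2, fun i j => ?_⟩
  obtain ⟨X, hX, hX2, hX3, hX4⟩ := h3 i j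
  refine ⟨X.1 (), ?_, hX3, fun τ h5 h6 => hX4 τ ⟨h5, h6⟩⟩
  have h4 : X = ((fun _ : Unit => X.1 ()), (0 : ℂ)) := by
    refine Prod.ext ?_ hX2
    funext u
    rfl
  show IsInv (fun _ : Unit => n) (fun _ => P) α ((fun _ : Unit => X.1 ()), (0 : ℂ))
  rw [← h4]
  exact hX

end KT2
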