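import Pool.Agent.KT2.Rot
import Pool.Agent.BTL.Max

/-!
# KT2 SLC: all matrices of trace zero
-/

set_option autoImplicit false

namespace KT2

open Module Matrix NumberField Pool.Agent.Helper7
open Pool.Agent.Ball (rot gAt)
open Pool.Agent.Helper8.D (ent)
open PSQ (W Inv BetR DRA)
open BTL (ConfM)

/-- a matrix which commutes with all rotations is scalar -/
theorem Slc_scalar {m : ℕ} (hm : 3 ≤ m) (T : Matrix (Fin m) (Fin m) ℂ)
    (h : ∀ i j, T * rot i j = rot i j * T) :
    T = T ⟨0, by omega⟩ ⟨0, by omega⟩ • (1 : Matrix (Fin m) (Fin m) ℂ) := by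
  have key : ∀ i j a b : Fin m, (if b = j then T a i else 0) - (if b = i then T a j else 0) =
      (if a = i then T j b else 0) - (if a = j then T i b else 0) := fun i j a b => by
    rw [← BTL.Max_mul_rot, ← BTL.Max_rot_mul, h]
  have hd : ∀ i j : Fin m, T i i = T j j := by
    intro i j
    by_cases hij : i = j
    · rw [hij]
    · have h1 := key i j i j
      rw [if_pos rfl, if_pos rfl, if_neg (fun e => hij e.symm), if_neg hij, sub_zero, sub_zero] at h1
      exact h1
  have ho : ∀ l i : Fin m, l ≠ i → T l i = 0 := by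
    intro l i hli
    obtain ⟨j, hj1, hj2⟩ : ∃ j : Fin m, j ≠ l ∧ j ≠ i := by
      have h1 : ({l, i} : Finset (Fin m)).card < (Finset.univ : Finset (Fin m)).card := by
        refine lt_of_le_of_lt (Finset.card_insert_le _ _) ?_
        rw [Finset.card_singleton, Finset.card_univ, Fintype.card_fin]
        omega
      obtain ⟨j, -, hj⟩ := Finset.exists_mem_notMem_of_card_lt_card h1
      refine ⟨j, fun e => hj ?_, fun e => hj ?_⟩
      · rw [e]
        exact Finset.mem_insert_self _ _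
      · rw [e]
        exact Finset.mem_insert_of_mem (Finset.mem_singleton_self _)
    have h1 := key i j l j
    rw [if_pos rfl, if_neg hj2, if_neg hli, if_neg (fun e => hj1 e.symm), sub_zero, sub_zero] at h1
    exact h1
  ext a b
  rw [Matrix.smul_apply, Matrix.one_apply]
  by_cases hab : a = b
  · subst hab
    rw [if_pos rfl, smul_eq_mul, mul_one]
    exact hd _ _
  · rw [if_neg hab, smul_zero]
    exact ho a b hab

theorem Slc_rot_transpose {m : ℕ} (i j : Fin m) :
    (rot i j : Matrix (Fin m) (Fin m) ℂ)ᵀ = -rot i j := by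
  unfold rot
  rw [Matrix.transpose_sub, Matrix.transpose_single, Matrix.transpose_single, neg_sub]

/-- a matrix all of whose brackets with rotations are a scalar plus a skew matrix is conformal -/
theorem Slc_conf {m : ℕ} (hm : 3 ≤ m) (M : Matrix (Fin m) (Fin m) ℂ)
    (h : ∀ i j, ∃ (c : ℂ) (S : Matrix (Fin m) (Fin m) ℂ), Sᵀ = -S ∧
      M * rot i j - rot i j * M = c • (1 : Matrix (Fin m) (Fin m) ℂ) + S) :
    ∃ (c : ℂ) (S : Matrix (Fin m) (Fin m) ℂ), Sᵀ = -S ∧
      M = c • (1 : Matrix (Fin m) (Fin m) ℂ) + S := by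
  have hsk : ∀ i j, (M * rot i j - rot i j * M)ᵀ = -(M * rot i j - rot i j * M) := by
    intro i j
    obtain ⟨c, S, hS, he⟩ := h i j
    have htS : S.trace = 0 := by
      have h1 := congrArg Matrix.trace hS
      rw [Matrix.trace_transpose, Matrix.trace_neg] at h1
      linear_combination h1 / 2
    have hc : c = 0 := by
      have h1 := congrArg Matrix.trace he
      rw [Matrix.trace_sub, Matrix.trace_mul_comm, sub_self, Matrix.trace_add, Matrix.trace_smul,
        Matrix.trace_one, htS, add_zero, smul_eq_mul, Fintype.card_fin] at h1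
      have h2 : (m : ℂ) ≠ 0 := by
        have : m ≠ 0 := by omega
        exact_mod_cast this
      exact (mul_eq_zero.1 h1.symm).resolve_right h2
    rw [he, hc, zero_smul, zero_add, hS]
  have hT : ∀ i j, (M + Mᵀ) * rot i j = rot i j * (M + Mᵀ) := by
    intro i j
    have h1 := hsk i j
    rw [Matrix.transpose_sub, Matrix.transpose_mul, Matrix.transpose_mul, Slc_rot_transpose] at h1
    rw [Matrix.add_mul, Matrix.mul_add]
    have h2 : -rot i j * Mᵀ - Mᵀ * -rot i j = -(M * rot i j - rot i j * M) := h1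
    rw [Matrix.neg_mul, Matrix.mul_neg] at h2
    have h3 : Mᵀ * rot i j - rot i j * Mᵀ + (M * rot i j - rot i j * M) = 0 := by
      rw [← sub_eq_zero] at h2
      rw [← h2]
      abel
    rw [← sub_eq_zero, ← h3]
    abel
  have h4 := Slc_scalar hm (M + Mᵀ) hT
  set c := (M + Mᵀ) ⟨0, by omega⟩ ⟨0, by omega⟩ with hc
  refine ⟨c / 2, M - (c / 2) • 1, ?_, by abel⟩
  have h5 : Mᵀ = c • (1 : Matrix (Fin m) (Fin m) ℂ) - M := by
    rw [← h4]
    abel
  rw [Matrix.transpose_sub, Matrix.transpose_smul, Matrix.transpose_one, h5]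
  have h6 : c • (1 : Matrix (Fin m) (Fin m) ℂ) = (c / 2) • 1 + (c / 2) • 1 := by
    rw [← add_smul]
    congr 1
    ring
  rw [h6]
  abel

section

variable {κ : Type} [Fintype κ] [DecidableEq κ] {ϖ : ℂ} {P : PData κ ϖ} {L : Type} [Field L]
  [NumberField L] {m : ℕ}

theorem Slc_mem (F : UF P L m) (n k : ℕ)
    (α : MultilinearMap ℂ (fun _ : Fin (2 * k) => W κ n) ℂ) (σ₀ : L →+* ℂ)
    (M : Matrix (Fin m) (Fin m) ℂ) :
    M ∈ zAt n k α F σ₀ ↔ M ∈ Rot_cA (fun _ : Unit => n) (fun _ : Unit => P) α () F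
      (fun τ => ¬ Ag F τ σ₀ ∧ ¬ Ag F τ (ComplexEmbedding.conjugate σ₀)) σ₀ := by
  constructor
  · rintro ⟨X, hX, hX3, hX4⟩
    exact ⟨((fun _ : Unit => X), (0 : ℂ)), hX, rfl, hX3, fun τ h => hX4 τ h.1 h.2⟩
  · rintro ⟨X, hX, hX2, hX3, hX4⟩
    refine ⟨X.1 (), ?_, hX3, fun τ h5 h6 => hX4 τ ⟨h5, h6⟩⟩
    have h4 : X = ((fun _ : Unit => X.1 ()), (0 : ℂ)) := by
      refine Prod.ext ?_ hX2
      funext u
      rfl
    show IsInv (fun _ : Unit => n) (fun _ => P) α ((fun _ : Unit => X.1 ()), (0 : ℂ))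
    rw [← h4]
    exact hX

end

theorem thm_Slc (hTwi : St_Twi) : St_Slc := by
  intro κ _ _ ϖ P L _ _ m F n k α hm hϖ hB σ₀ U V hUV hVU hrot hM σ y hy
  obtain ⟨M, ⟨X, hX, hXM⟩, hc⟩ := hM
  set A : (L →+* ℂ) → Prop :=
    fun τ => ¬ Ag F τ σ₀ ∧ ¬ Ag F τ (ComplexEmbedding.conjugate σ₀) with hA
  set G := Rot_cA (fun _ : Unit => n) (fun _ : Unit => P) α () F A σ₀ with hG
  have hMg : M ∈ gAt (fun _ : Unit => n) (fun _ : Unit => P) α () F σ₀ :=
    ⟨((fun _ : Unit => X), (0 : ℂ)), hX, rfl, hXM⟩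
  have hbr := Rot_cA_br (fun _ : Unit => n) (fun _ : Unit => P) α () F A σ₀
  have hle := Rot_cA_le (fun _ : Unit => n) (fun _ : Unit => P) α () F A σ₀
  have hrot' : ∀ i j, U * rot i j * V ∈ G := fun i j => (Slc_mem F n k α σ₀ _).1 (hrot i j)
  have hnc : ∃ N ∈ G, ¬ ConfM U V N := by
    by_contra hcon
    push Not at hcon
    apply hc
    obtain ⟨c, S, hS, he⟩ := Slc_conf hm (V * M * U) (fun i j => by
      obtain ⟨c, S, hS, he⟩ := hcon _ (hbr M hMg _ (hrot' i j))
      refine ⟨c, S, hS, ?_⟩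
      have h1 : V * (M * (U * rot i j * V) - U * rot i j * V * M) * U =
          V * M * U * rot i j - rot i j * (V * M * U) := by
        have e1 : V * (M * (U * rot i j * V)) * U = V * M * U * rot i j * (V * U) := by
          simp only [Matrix.mul_assoc]
        have e2 : V * (U * rot i j * V * M) * U = V * U * (rot i j * (V * M * U)) := by
          simp only [Matrix.mul_assoc]
        rw [Matrix.mul_sub, Matrix.sub_mul, e1, e2, hVU, Matrix.mul_one, Matrix.one_mul]
      rw [← h1, he, Matrix.mul_add, Matrix.add_mul]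
      have e3 : V * (U * S * V) * U = V * U * S * (V * U) := by
        simp only [Matrix.mul_assoc]
      rw [e3, hVU, Matrix.one_mul, Matrix.mul_one, Matrix.mul_smul, Matrix.mul_one,
        Matrix.smul_mul, hVU])
    refine ⟨c, S, hS, ?_⟩
    have e4 : M = U * (V * M * U) * V := by
      have e5 : U * (V * M * U) * V = U * V * M * (U * V) := by
        simp only [Matrix.mul_assoc]
      rw [e5, hUV, Matrix.one_mul, Matrix.mul_one]
    rw [e4, he, Matrix.mul_add, Matrix.add_mul, Matrix.mul_smul, Matrix.mul_one,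
      Matrix.smul_mul, hUV]
  have hall := BTL.thm_Max m G U V hm hUV hVU (fun B hB C hC => hbr B (hle hB) C hC) hrot' hnc
  obtain ⟨τ, hτ⟩ := Pool.Agent.Helper84.exists_aut σ₀ σ
  have hτs : (y.map τ.symm).trace = 0 := by
    have h1 : (y.map τ.symm).trace = τ.symm y.trace := by
      rw [Matrix.trace, Matrix.trace, map_sum]
      rfl
    rw [h1, hy, map_zero]
  have h2 := (hTwi κ ϖ P L m F n k α hϖ hB τ σ₀ (y.map τ.symm)).2
    ((Slc_mem F n k α σ₀ _).2 (hall _ hτs))
  have h3 : (y.map τ.symm).map τ = y := by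
    ext a b
    exact τ.apply_symm_apply _
  rw [h3, hτ] at h2
  exact h2

end KT2
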