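import Pool.Agent.KT2.St

/-!
# KT2, module TWI: twists
-/

set_option autoImplicit false

namespace KT2

open Module Matrix NumberField Pool.Agent.Helper7
open Pool.Agent.Helper8.D (ent)
open Pool.Agent.Helper28.GPC (tw isInv_tw entry_tw tw_snd)
open PSQ (W Inv BetR DRA)

section

variable {κ : Type} [Fintype κ] [DecidableEq κ] {ϖ : ℂ} {P : PData κ ϖ} {L : Type} [Field L]
  [NumberField L] {m : ℕ}

/-- the twist of a symmetry of multiplier zero -/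
private theorem Twi_one (F : UF P L m) (n k : ℕ)
    (α : MultilinearMap ℂ (fun _ : Fin (2 * k) => W κ n) ℂ) (hϖ : ϖ ≠ 0) (hB : BetR P n k α)
    (τ : ℂ ≃+* ℂ) (X : Module.End ℂ (κ → ℂ)) (hX : Inv P n k α X 0) :
    ∃ Y, Inv P n k α Y 0 ∧ ∀ σ : L →+* ℂ,
      ent F ((τ : ℂ →+* ℂ).comp σ) Y = (ent F σ X).map τ := by
  have hX' : IsInv (fun _ : Unit => n) (fun _ => P) α ((fun _ => X, 0) : GG (fun _ : Unit => κ)) :=
    hX
  have hY := isInv_tw (fun _ : Unit => n) (fun _ => P) α hϖ hB τ _ hX'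
  refine ⟨(tw (fun _ : Unit => P) τ ((fun _ => X, 0) : GG (fun _ : Unit => κ))).1 (), ?_, ?_⟩
  · show IsInv (fun _ : Unit => n) (fun _ => P) α _
    have e : ((fun _ => (tw (fun _ : Unit => P) τ
        ((fun _ => X, 0) : GG (fun _ : Unit => κ))).1 (), 0) : GG (fun _ : Unit => κ)) =
        tw (fun _ : Unit => P) τ ((fun _ => X, 0) : GG (fun _ : Unit => κ)) := by
      refine Prod.ext rfl ?_
      rw [tw_snd, map_zero]
    rw [e]
    exact hY
  · intro σ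
    ext a b
    exact entry_tw (K := fun _ => L) (fun _ : Unit => n) (fun _ => P) α hϖ hB τ _ hX' () F σ a b

private theorem Twi_ag (F : UF P L m) (τ : ℂ ≃+* ℂ) (ρ σ : L →+* ℂ) (h : Ag F ρ σ) :
    Ag F ((τ : ℂ →+* ℂ).comp ρ) ((τ : ℂ →+* ℂ).comp σ) := by
  intro x hx
  show τ (ρ x) = τ (σ x)
  rw [h x hx]

end

theorem thm_Twi : St_Twi := by
  intro κ _ _ ϖ P L _ _ m F n k α hϖ hB τ σ M
  refine ⟨?_, ?_⟩
  · rintro ⟨X, hX, rfl⟩
    obtain ⟨Y, hY, h⟩ := Twi_one F n k α hϖ hB τ X hX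
    exact ⟨Y, hY, h σ⟩
  · rintro ⟨X, hX, rfl, h0⟩
    obtain ⟨Y, hY, h⟩ := Twi_one F n k α hϖ hB τ X hX
    refine ⟨Y, hY, h σ, fun ρ h5 h6 => ?_⟩
    have h7 : ρ = (τ : ℂ →+* ℂ).comp ((τ.symm : ℂ →+* ℂ).comp ρ) := by
      ext x
      exact (τ.apply_symm_apply (ρ x)).symm
    rw [h7, h, h0 _ ?_ ?_, Matrix.map_zero _ (map_zero τ)]
    · intro h8
      apply h5
      rw [h7]
      exact Twi_ag F τ _ _ h8
    · intro h8
      apply h6
      rw [h7, ← Pool.Agent.Ball.comp_conj (fun _ : Unit => P) () τ σ F]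
      exact Twi_ag F τ _ _ h8

end KT2
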