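import Pool.Agent.KT2.St

/-!
# KT2, module WGT: from `sl` to `gl`, below the degree of the determinants (helper57)
-/

set_option autoImplicit false

namespace KT2

open Module Matrix NumberField Pool.Agent.Helper7

section

variable {U : Type} [AddCommGroup U] [Module ℂ U] {T S : Type}
  [Fintype S] [DecidableEq S] {m N : ℕ}

/-- the sign of a slot -/
def Wgt_e (b : Bool) : ℤ := if b then 1 else -1

/-- the place and the index of a slot -/
def Wgt_q (pl : T → S) (w : Fin N → Bool × T × Fin m) (r : Fin N) : S × Fin m :=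
  (pl (w r).2.1, (w r).2.2)

/-- the weights -/
def Wgt_A (pl : T → S) (w : Fin N → Bool × T × Fin m) (x : S × Fin m) : ℤ :=
  ∑ r ∈ Finset.univ.filter (fun r => Wgt_q pl w r = x), Wgt_e (w r).1

private theorem Wgt_sum (pl : T → S) (w : Fin N → Bool × T × Fin m) (D : S × Fin m → ℂ) :
    ∑ r, (Wgt_e (w r).1 : ℂ) * D (Wgt_q pl w r) = ∑ x, (Wgt_A pl w x : ℂ) * D x := by
  rw [← Finset.sum_fiberwise (Finset.univ : Finset (Fin N)) (Wgt_q pl w)]
  refine Finset.sum_congr rfl fun x _ => ?_
  unfold Wgt_A
  rw [Int.cast_sum, Finset.sum_mul]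
  refine Finset.sum_congr rfl fun r hr => ?_
  rw [(Finset.mem_filter.1 hr).2]

/-- the action of a diagonal operator -/
private theorem Wgt_act (pl : T → S) (e : Basis (Bool × T × Fin m) ℂ U)
    (α : MultilinearMap ℂ (fun _ : Fin N => U) ℂ) (X : Module.End ℂ U) (D : S × Fin m → ℂ)
    (h1 : ∀ t j, X (e (true, t, j)) = D (pl t, j) • e (true, t, j))
    (h2 : ∀ t j, X (e (false, t, j)) = -(D (pl t, j) • e (false, t, j)))
    (w : Fin N → Bool × T × Fin m) :
    actForm X α (fun r => e (w r)) =
      (∑ x, (Wgt_A pl w x : ℂ) * D x) * α (fun r => e (w r)) := by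
  rw [actForm_apply, ← Wgt_sum, Finset.sum_mul]
  refine Finset.sum_congr rfl fun r _ => ?_
  have h3 : X (e (w r)) = ((Wgt_e (w r).1 : ℂ) * D (Wgt_q pl w r)) • e (w r) := by
    unfold Wgt_q
    obtain ⟨b, t, j⟩ := w r
    cases b
    · rw [h2]
      simp [Wgt_e]
    · rw [h1]
      simp [Wgt_e]
  rw [h3, MultilinearMap.map_update_smul, Function.update_eq_self, smul_eq_mul]

/-- the bound for the weights -/
private theorem Wgt_bound (pl : T → S) (w : Fin N → Bool × T × Fin m) :
    ∑ x, |Wgt_A pl w x| ≤ (N : ℤ) := by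
  have h1 : ∀ x, |Wgt_A pl w x| ≤
      ∑ r ∈ Finset.univ.filter (fun r => Wgt_q pl w r = x), (1 : ℤ) := by
    intro x
    unfold Wgt_A
    refine (Finset.abs_sum_le_sum_abs _ _).trans (Finset.sum_le_sum fun r _ => ?_)
    unfold Wgt_e
    split_ifs <;> simp
  refine (Finset.sum_le_sum fun x _ => h1 x).trans ?_
  rw [Finset.sum_fiberwise (Finset.univ : Finset (Fin N)) (Wgt_q pl w) (fun _ => (1 : ℤ))]
  simp

/-- the parity of the sum of the weights -/
private theorem Wgt_par (pl : T → S) (w : Fin N → Bool × T × Fin m) (hN : Even N) :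
    Even (∑ x, Wgt_A pl w x) := by
  have h1 : ∑ x, Wgt_A pl w x = ∑ r, Wgt_e (w r).1 :=
    Finset.sum_fiberwise (Finset.univ : Finset (Fin N)) (Wgt_q pl w) _
  have h2 : ∑ r, Wgt_e (w r).1 = (N : ℤ) + ∑ r, (Wgt_e (w r).1 - 1) := by
    rw [Finset.sum_sub_distrib]
    simp
  have h3 : Even (∑ r, (Wgt_e (w r).1 - 1)) := by
    refine Finset.sum_induction _ Even (fun a b ha hb => ha.add hb) Even.zero fun r _ => ?_
    unfold Wgt_e
    split_ifs
    · exact ⟨0, by norm_num⟩
    · exact ⟨-1, by norm_num⟩
  rw [h1, h2]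
  exact ((Int.even_coe_nat N).2 hN).add h3

private theorem Wgt_abs (x : ℤ) : Even (|x| - x) := by
  rcases le_total 0 x with h | h
  · rw [abs_of_nonneg h, sub_self]
    exact Even.zero
  · rw [abs_of_nonpos h]
    exact ⟨-x, by ring⟩

/-- the arithmetic of the weights -/
private theorem Wgt_zero (B : S → ℤ) (hm : 1 ≤ m) (hN : N < (if Even m then m else 2 * m))
    (hb : (m : ℤ) * ∑ s, |B s| ≤ (N : ℤ)) (hp : Even ((m : ℤ) * ∑ s, B s)) (s : S) : B s = 0 := by
  have h0 : 0 ≤ ∑ s, |B s| := Finset.sum_nonneg fun s _ => abs_nonneg _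
  have key : ∑ s, |B s| = 0 := by
    by_cases hmE : Even m
    · rw [if_pos hmE] at hN
      by_contra hne
      have h1 : 1 ≤ ∑ s, |B s| := by omega
      have h2 : (N : ℤ) < m := by exact_mod_cast hN
      nlinarith
    · rw [if_neg hmE] at hN
      have h2 : (N : ℤ) < 2 * m := by exact_mod_cast hN
      have hm' : (1 : ℤ) ≤ m := by exact_mod_cast hm
      have h3 : ∑ s, |B s| < 2 := by
        by_contra hcon
        push Not at hcon
        nlinarith
      have h4 : Even (∑ s, B s) := by
        rcases Int.even_mul.1 hp with h | h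
        · exact absurd ((Int.even_coe_nat m).1 h) hmE
        · exact h
      have h5 : Even (∑ s, (|B s| - B s)) :=
        Finset.sum_induction _ Even (fun a b ha hb => ha.add hb) Even.zero fun s _ =>
          Wgt_abs (B s)
      have h6 : Even (∑ s, |B s|) := by
        have h7 := h5.add h4
        rw [Finset.sum_sub_distrib, sub_add_cancel] at h7
        exact h7
      obtain ⟨c, hc⟩ := h6
      omega
  have h1 := (Finset.sum_eq_zero_iff_of_nonneg (fun s _ => abs_nonneg (B s))).1 key s
    (Finset.mem_univ s)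
  exact abs_eq_zero.1 h1

end

/-- the common part of WGT and WGD: the hypothesis is a bound for the weights of the basis vectors at
which the form does not vanish -/
theorem Wgt_core {U : Type} [AddCommGroup U] [Module ℂ U] {T S : Type} [Fintype T]
    [DecidableEq T] [Fintype S] [DecidableEq S] {m N : ℕ} (pl : T → S)
    (e : Basis (Bool × T × Fin m) ℂ U) (α : MultilinearMap ℂ (fun _ : Fin N => U) ℂ) (hm : 1 ≤ m)
    (hN : Even N) (hbd : ∀ w : Fin N → Bool × T × Fin m, α (fun r => e (w r)) ≠ 0 →
      ∃ N' : ℕ, N' < (if Even m then m else 2 * m) ∧ ∑ x, |Wgt_A pl w x| ≤ (N' : ℤ))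
    (hS : SlK pl e α) : GlK pl e α := by
  -- the diagonal operators
  have hdiag : ∀ D : S × Fin m → ℂ, ∃ X : Module.End ℂ U,
      (∀ t j, X (e (true, t, j)) = D (pl t, j) • e (true, t, j)) ∧
      ∀ t j, X (e (false, t, j)) = -(D (pl t, j) • e (false, t, j)) := by
    intro D
    refine ⟨e.constr ℂ fun x => if x.1 then D (pl x.2.1, x.2.2) • e x
      else -(D (pl x.2.1, x.2.2) • e x), fun t j => ?_, fun t j => ?_⟩
    · rw [Basis.constr_basis]
      simp
    · rw [Basis.constr_basis]
      simp
  -- the scalar operators kill `α`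
  have hsc : ∀ (c : S → ℂ) (X : Module.End ℂ U),
      (∀ t j, X (e (true, t, j)) = c (pl t) • e (true, t, j)) →
      (∀ t j, X (e (false, t, j)) = -(c (pl t) • e (false, t, j))) → actForm X α = 0 := by
    intro c X h1 h2
    refine Basis.ext_multilinear (fun _ => e) fun w => ?_
    show actForm X α (fun r => e (w r)) = 0
    rw [Wgt_act pl e α X (fun x => c x.1) h1 h2 w]
    by_cases hα : α (fun r => e (w r)) = 0
    · rw [hα, mul_zero]
    -- the weights for a fixed place are equal
    have hA : ∀ (s : S) (i j : Fin m), Wgt_A pl w (s, i) = Wgt_A pl w (s, j) := by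
      intro s i j
      by_cases hij : i = j
      · rw [hij]
      let D : S × Fin m → ℂ := fun x =>
        if x.1 = s then (if x.2 = i then 1 else 0) - (if x.2 = j then 1 else 0) else 0
      obtain ⟨Y, hY1, hY2⟩ := hdiag D
      have h3 : actForm Y α = 0 := by
        refine hS (fun s' => Matrix.diagonal fun i' => D (s', i')) Y ?_ ?_ ?_
        · intro s'
          rw [Matrix.trace_diagonal]
          by_cases hs : s' = s
          · simp [D, hs]
          · simp [D, hs]
        · intro t j'
          rw [hY1, Finset.sum_eq_single j']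
          · rw [Matrix.diagonal_apply_eq]
          · intro b _ hb
            rw [Matrix.diagonal_apply_ne _ hb, zero_smul]
          · intro h
            exact absurd (Finset.mem_univ _) h
        · intro t i'
          rw [hY2, Finset.sum_eq_single i']
          · rw [Matrix.diagonal_apply_eq]
          · intro b _ hb
            rw [Matrix.diagonal_apply_ne _ hb.symm, zero_smul]
          · intro h
            exact absurd (Finset.mem_univ _) h
      have h4 := Wgt_act pl e α Y D hY1 hY2 w
      rw [h3] at h4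
      have h5 : ∑ x, (Wgt_A pl w x : ℂ) * D x = 0 := by
        have h6 : (0 : MultilinearMap ℂ (fun _ : Fin N => U) ℂ) (fun r => e (w r)) = 0 := rfl
        rw [h6] at h4
        rcases mul_eq_zero.1 h4.symm with h | h
        · exact h
        · exact absurd h hα
      have h6 : ∑ x, (Wgt_A pl w x : ℂ) * D x =
          (Wgt_A pl w (s, i) : ℂ) - (Wgt_A pl w (s, j) : ℂ) := by
        rw [Fintype.sum_prod_type, Finset.sum_eq_single s]
        · have h7 : ∀ i' : Fin m, (Wgt_A pl w (s, i') : ℂ) * D (s, i') =
              (if i' = i then (Wgt_A pl w (s, i') : ℂ) else 0) -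
                (if i' = j then (Wgt_A pl w (s, i') : ℂ) else 0) := by
            intro i'
            simp only [D, if_true]
            rw [mul_sub, mul_ite, mul_ite, mul_one, mul_zero]
          rw [Finset.sum_congr rfl fun i' _ => h7 i', Finset.sum_sub_distrib,
            Finset.sum_ite_eq' Finset.univ i, Finset.sum_ite_eq' Finset.univ j,
            if_pos (Finset.mem_univ _), if_pos (Finset.mem_univ _)]
        · intro s' _ hs
          refine Finset.sum_eq_zero fun i' _ => ?_
          simp only [D, if_neg hs, mul_zero]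
        · intro h
          exact absurd (Finset.mem_univ _) h
      rw [h6, sub_eq_zero] at h5
      exact_mod_cast h5
    let i0 : Fin m := ⟨0, hm⟩
    have hB : ∀ s, Wgt_A pl w (s, i0) = 0 := by
      intro s
      obtain ⟨N', hlt, h3⟩ := hbd w hα
      refine Wgt_zero (m := m) (N := N') (fun s => Wgt_A pl w (s, i0)) hm hlt ?_ ?_ s
      · have h4 : ∑ x, |Wgt_A pl w x| = (m : ℤ) * ∑ s, |Wgt_A pl w (s, i0)| := by
          rw [Fintype.sum_prod_type, Finset.mul_sum]
          refine Finset.sum_congr rfl fun s _ => ?_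
          rw [Finset.sum_congr rfl fun i _ => by rw [hA s i i0], Finset.sum_const,
            Finset.card_univ, Fintype.card_fin, nsmul_eq_mul]
        rw [← h4]
        exact h3
      · have h3 := Wgt_par pl w hN
        have h4 : ∑ x, Wgt_A pl w x = (m : ℤ) * ∑ s, Wgt_A pl w (s, i0) := by
          rw [Fintype.sum_prod_type, Finset.mul_sum]
          refine Finset.sum_congr rfl fun s _ => ?_
          rw [Finset.sum_congr rfl fun i _ => by rw [hA s i i0], Finset.sum_const,
            Finset.card_univ, Fintype.card_fin, nsmul_eq_mul]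
        rw [← h4]
        exact h3
    rw [Finset.sum_eq_zero, zero_mul]
    rintro ⟨s, i⟩ _
    rw [hA s i i0, hB s, Int.cast_zero, zero_mul]
  -- the general case
  intro y X h1 h2
  let c : S → ℂ := fun s => (y s).trace / m
  have hm0 : (m : ℂ) ≠ 0 := by
    have : m ≠ 0 := by omega
    exact_mod_cast this
  obtain ⟨Xc, hc1, hc2⟩ := hdiag fun x => c x.1
  have h3 : actForm (X - Xc) α = 0 := by
    refine hS (fun s => y s - c s • (1 : Matrix (Fin m) (Fin m) ℂ)) (X - Xc) ?_ ?_ ?_
    · intro s
      rw [Matrix.trace_sub, Matrix.trace_smul, Matrix.trace_one, Fintype.card_fin, smul_eq_mul,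
        div_mul_cancel₀ _ hm0, sub_self]
    · intro t j
      rw [LinearMap.sub_apply, h1, hc1]
      have h4 : ∀ i, (y (pl t) - c (pl t) • (1 : Matrix (Fin m) (Fin m) ℂ)) i j •
          e (true, t, i) = y (pl t) i j • e (true, t, i) -
            (if i = j then c (pl t) • e (true, t, i) else 0) := by
        intro i
        rw [Matrix.sub_apply, Matrix.smul_apply, Matrix.one_apply, sub_smul, smul_eq_mul]
        split_ifs with h
        · rw [mul_one]
        · rw [mul_zero, zero_smul]
      rw [Finset.sum_congr rfl fun i _ => h4 i, Finset.sum_sub_distrib,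
        Finset.sum_ite_eq' Finset.univ j, if_pos (Finset.mem_univ _)]
    · intro t i
      rw [LinearMap.sub_apply, h2, hc2]
      have h4 : ∀ j, (y (pl t) - c (pl t) • (1 : Matrix (Fin m) (Fin m) ℂ)) i j •
          e (false, t, j) = y (pl t) i j • e (false, t, j) -
            (if i = j then c (pl t) • e (false, t, j) else 0) := by
        intro j
        rw [Matrix.sub_apply, Matrix.smul_apply, Matrix.one_apply, sub_smul, smul_eq_mul]
        split_ifs with h
        · rw [mul_one]
        · rw [mul_zero, zero_smul]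
      rw [Finset.sum_congr rfl fun j _ => h4 j, Finset.sum_sub_distrib,
        Finset.sum_ite_eq Finset.univ i, if_pos (Finset.mem_univ _)]
      abel
  have h4 : X = (X - Xc) + Xc := (sub_add_cancel X Xc).symm
  rw [h4, actForm_add, h3, zero_add]
  exact hsc c Xc hc1 hc2

theorem thm_Wgt : St_Wgt := by
  intro U _ _ T S _ _ _ _ m N pl e α hm hN hlt hS
  exact Wgt_core pl e α hm hN (fun w _ => ⟨N, hlt, Wgt_bound pl w⟩) hS

end KT2
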