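import Pool.Agent.KT2.St2
import Pool.Agent.KT2.Wgt

/-!
# KT2, module WGD: from `sl` to `gl` for alternating forms, above the complementary degree (helper57)
-/

set_option autoImplicit false

namespace KT2

open Module Matrix NumberField Pool.Agent.Helper7

section

variable {T S : Type} [Fintype T] [DecidableEq T] [Fintype S] [DecidableEq S] {m N : ℕ}

/-- the weights of all basis vectors cancel -/
private theorem Wgd_all (pl : T → S) (x : S × Fin m) :
    ∑ v ∈ (Finset.univ : Finset (Bool × T × Fin m)).filter
      (fun v => (pl v.2.1, v.2.2) = x), Wgt_e v.1 = 0 := by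
  rw [Finset.sum_filter, Fintype.sum_prod_type, Fintype.sum_bool, ← Finset.sum_add_distrib]
  refine Finset.sum_eq_zero fun y _ => ?_
  show (if (pl y.1, y.2) = x then Wgt_e true else 0) +
    (if (pl y.1, y.2) = x then Wgt_e false else 0) = 0
  split_ifs
  · rfl
  · rfl

/-- the weights of an injective family, from the complement -/
private theorem Wgd_compl (pl : T → S) (w : Fin N → Bool × T × Fin m) (hw : Function.Injective w)
    (x : S × Fin m) : Wgt_A pl w x =
      -∑ v ∈ ((Finset.univ.image w)ᶜ).filter (fun v => (pl v.2.1, v.2.2) = x), Wgt_e v.1 := by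
  have h1 : Wgt_A pl w x =
      ∑ v ∈ (Finset.univ.image w).filter (fun v => (pl v.2.1, v.2.2) = x), Wgt_e v.1 := by
    unfold Wgt_A Wgt_q
    rw [Finset.filter_image, Finset.sum_image fun a _ b _ h => hw h]
  have h2 := Wgd_all (m := m) pl x
  rw [← Finset.union_compl (Finset.univ.image w), Finset.filter_union, Finset.sum_union] at h2
  · rw [h1]
    linarith
  · refine Finset.disjoint_filter_filter ?_
    exact disjoint_compl_right

/-- the bound for the weights -/
private theorem Wgd_bound (pl : T → S) (w : Fin N → Bool × T × Fin m)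
    (hw : Function.Injective w) :
    ∑ x, |Wgt_A pl w x| ≤ ((2 * (Fintype.card T * m) - N : ℕ) : ℤ) := by
  have h1 : ∀ x, |Wgt_A pl w x| ≤
      ∑ v ∈ ((Finset.univ.image w)ᶜ).filter (fun v => (pl v.2.1, v.2.2) = x), (1 : ℤ) := by
    intro x
    rw [Wgd_compl pl w hw x, abs_neg]
    refine (Finset.abs_sum_le_sum_abs _ _).trans (Finset.sum_le_sum fun r _ => ?_)
    unfold Wgt_e
    split_ifs <;> simp
  refine (Finset.sum_le_sum fun x _ => h1 x).trans ?_
  rw [Finset.sum_fiberwise ((Finset.univ.image w)ᶜ)
    (fun v : Bool × T × Fin m => (pl v.2.1, v.2.2)) (fun _ => (1 : ℤ)), Finset.sum_const,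
    Finset.card_compl, Finset.card_image_of_injective _ hw]
  simp

end

theorem thm_Wgd : St_Wgd := by
  intro U _ _ T S _ _ _ _ m N pl e α hm hN hlt hS
  refine Wgt_core pl e _ hm hN (fun w hw => ?_) hS
  have hinj : Function.Injective w := by
    intro r r' hr
    by_contra hne
    refine hw ?_
    show α (fun r => e (w r)) = 0
    exact α.map_eq_zero_of_eq _ (by rw [hr]) hne
  refine ⟨2 * (Fintype.card T * m) - N, ?_, Wgd_bound pl w hinj⟩
  have h1 : 1 ≤ (if Even m then m else 2 * m) := by
    split_ifs <;> omega
  omega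

end KT2
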