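import Pool.Agent.KT2.Itw
import Pool.Agent.KT2.Rot
import Pool.Agent.KT2.Twi
import Pool.Agent.KT2.Lin
import Pool.Agent.KT2.Kan
import Pool.Agent.KT2.Com
import Pool.Agent.KT2.Bra
import Pool.Agent.KT2.Slc
import Pool.Agent.KT2.Cxc
import Pool.Agent.KT2.Frm
import Pool.Agent.KT2.Wgt
import Pool.Agent.KT2.Ffp
import Pool.Agent.KT2.Fam
import Pool.Agent.KT2.Qua
import Pool.Agent.KT2.Abs
import Pool.Agent.KT2.Fra
import Pool.Agent.KT2.Tor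
import Pool.Agent.KT2.Fin
import Pool.Agent.KT2.Wgd
import Pool.Agent.KT2.Fad
import Pool.Agent.KT2.Abd
import Pool.Agent.KT2.Fid
import Pool.Agent.PSQ.M.Fft
import Pool.Agent.KTP.Prd

/-!
# KT2: assembly
-/

set_option autoImplicit false

namespace KT2

namespace All

theorem Itw_ : St_Itw := thm_Itw
theorem Rot_ : St_Rot := thm_Rot
theorem Twi_ : St_Twi := thm_Twi
theorem Lin_ : St_Lin := thm_Lin
theorem Kan_ : St_Kan := thm_Kan Twi_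
theorem Com_ : St_Com := thm_Com Itw_ Twi_
theorem Bra_ : St_Bra := thm_Bra Lin_ Kan_ Com_
theorem Slc_ : St_Slc := thm_Slc Twi_
theorem Cxc_ : St_Cxc := thm_Cxc
theorem Frm_ : St_Frm := thm_Frm Itw_
theorem Wgt_ : St_Wgt := thm_Wgt
theorem Ffp_ : St_Ffp := thm_Ffp PSQ.thm_Fft Pool.Agent.KTP.thm_Prd
theorem Fam_ : St_Fam := thm_Fam Wgt_ Ffp_
theorem Qua_ : St_Qua := thm_Qua
theorem Abs_ : St_Abs := thm_Abs Rot_ Twi_ Bra_ Slc_ Cxc_ Frm_ Fam_ Qua_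
theorem Fra_ : St_Fra := thm_Fra
theorem Tor_ : St_Tor := thm_Tor
theorem Fin_ : St_FinT := thm_Fin Abs_ Fra_ Tor_
theorem Wgd_ : St_Wgd := thm_Wgd
theorem Fad_ : St_Fad := thm_Fad Wgd_ Ffp_
theorem Abd_ : St_Abd := thm_Abd Rot_ Bra_ Slc_ Cxc_ Frm_ Fad_
theorem Fid_ : St_FinD := thm_Fid Abd_ Fra_

end All

end KT2
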