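import Pool.Agent.BTL.St
import Pool.Agent.KT2.Types

/-!
# KT2: abelian varieties of ball type with non-commutative endomorphism algebra (definitions)

`L` is a CM field of endomorphisms (tensor `ℚ`) which is its own centralizer, `F` its frame, `m` the
dimension over `L`. The signature is `(m - 1, 1)` at the embeddings of `L` over one place of the
centre of the endomorphism algebra, and this place is separated from the other ones. The
endomorphism algebra has no anti-automorphism which is the identity on the centre.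
-/

set_option autoImplicit false

namespace KT2

open Module Matrix NumberField Pool.Agent.Helper7
open Pool.Agent.Helper8.D (ent)
open PSQ (W Inv BetR DRA)

section

variable {κ : Type} [Fintype κ] [DecidableEq κ] {ϖ : ℂ} {P : PData κ ϖ} {L : Type} [Field L]
  [NumberField L] {m : ℕ}

/-- `x` is in the centre of the algebra of endomorphisms. -/
def Zen (F : UF P L m) (x : L) : Prop := ∀ f, IsDRB P P f → ∀ v, f (F.ρ x v) = F.ρ x (f v)

/-- The embeddings `σ`, `τ` agree on the centre. -/
def Ag (F : UF P L m) (σ τ : L →+* ℂ) : Prop := ∀ x, Zen F x → σ x = τ x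

/-- There is no anti-automorphism of the algebra of endomorphisms which is the identity on the
centre. -/
def NoAnti (F : UF P L m) : Prop :=
  ¬ ∃ θ : Module.End ℂ (κ → ℂ) → Module.End ℂ (κ → ℂ), (∀ f, IsDRB P P f → IsDRB P P (θ f)) ∧
    (∀ f h, IsDRB P P f → IsDRB P P h → θ (f * h) = θ h * θ f ∧ θ (f + h) = θ f + θ h) ∧
    ∀ x, Zen F x → θ (F.ρ x) = F.ρ x

/-- `Y` is a bracket of two symmetries. -/
def IsBr (P : PData κ ϖ) (n k : ℕ) (α : MultilinearMap ℂ (fun _ : Fin (2 * k) => W κ n) ℂ)
    (Y : Module.End ℂ (κ → ℂ)) : Prop :=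
  ∃ X X' c c', Inv P n k α X c ∧ Inv P n k α X' c' ∧ Y = X * X' - X' * X

/-- The symmetries of multiplier zero which vanish at the places of `L` which do not agree on the
centre with `σ` or its complex conjugate: their matrices at `σ`. -/
def zAt (n k : ℕ) (α : MultilinearMap ℂ (fun _ : Fin (2 * k) => W κ n) ℂ) (F : UF P L m)
    (σ : L →+* ℂ) : Set (Matrix (Fin m) (Fin m) ℂ) :=
  {M | ∃ X, Inv P n k α X 0 ∧ ent F σ X = M ∧ ∀ τ, ¬ Ag F τ σ →
    ¬ Ag F τ (ComplexEmbedding.conjugate σ) → ent F τ X = 0}

/-- The matrices at `σ` of the symmetries of multiplier zero. -/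
def sAt (n k : ℕ) (α : MultilinearMap ℂ (fun _ : Fin (2 * k) => W κ n) ℂ) (F : UF P L m)
    (σ : L →+* ℂ) : Set (Matrix (Fin m) (Fin m) ℂ) :=
  {M | ∃ X, Inv P n k α X 0 ∧ ent F σ X = M}

/-- A frame of the whole structure: `T` is the set of one half of the embeddings of `L`, `S` the set
of the places of the centre, all symmetries act through one matrix for every place, and all matrices
of trace zero occur independently. -/
structure Frame (n k : ℕ) (α : MultilinearMap ℂ (fun _ : Fin (2 * k) => W κ n) ℂ)
    {T S : Type} [Fintype T] [DecidableEq T] [Fintype S] [DecidableEq S] (pl : T → S)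
    (e : Basis (Bool × T × Fin m) ℂ (κ → ℂ)) (P : PData κ ϖ) : Prop where
  act : ∀ X c, Inv P n k α X c → ∃ y : S → Matrix (Fin m) (Fin m) ℂ,
    (∀ t j, X (e (true, t, j)) = ∑ i, y (pl t) i j • e (true, t, i)) ∧
    ∀ t i, X (e (false, t, i)) = c • e (false, t, i) - ∑ j, y (pl t) i j • e (false, t, j)
  sl : ∀ (s : S) (y : Matrix (Fin m) (Fin m) ℂ), y.trace = 0 → ∃ X, Inv P n k α X 0 ∧
    ∀ t j, X (e (true, t, j)) = if pl t = s then ∑ i, y i j • e (true, t, i) else 0

/-- `α` is killed by the product over `S` of the special linear Lie algebras. -/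
def SlK {U : Type} [AddCommGroup U] [Module ℂ U] {T S : Type} [Fintype T] [DecidableEq T]
    [Fintype S] [DecidableEq S] {m N : ℕ} (pl : T → S) (e : Basis (Bool × T × Fin m) ℂ U)
    (α : MultilinearMap ℂ (fun _ : Fin N => U) ℂ) : Prop :=
  ∀ (y : S → Matrix (Fin m) (Fin m) ℂ) (X : Module.End ℂ U), (∀ s, (y s).trace = 0) →
    (∀ t j, X (e (true, t, j)) = ∑ i, y (pl t) i j • e (true, t, i)) →
    (∀ t i, X (e (false, t, i)) = -∑ j, y (pl t) i j • e (false, t, j)) → actForm X α = 0

/-- `α` is killed by the product over `S` of the general linear Lie algebras. -/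
def GlK {U : Type} [AddCommGroup U] [Module ℂ U] {T S : Type} [Fintype T] [DecidableEq T]
    [Fintype S] [DecidableEq S] {m N : ℕ} (pl : T → S) (e : Basis (Bool × T × Fin m) ℂ U)
    (α : MultilinearMap ℂ (fun _ : Fin N => U) ℂ) : Prop :=
  ∀ (y : S → Matrix (Fin m) (Fin m) ℂ) (X : Module.End ℂ U),
    (∀ t j, X (e (true, t, j)) = ∑ i, y (pl t) i j • e (true, t, i)) →
    (∀ t i, X (e (false, t, i)) = -∑ j, y (pl t) i j • e (false, t, j)) → actForm X α = 0

end

end KT2
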