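import Pool.Agent.KT2.St
import Pool.Agent.Helper8.D.Pieces

/-!
# KT2: embeddings which agree on the centre give isomorphic representations
-/

set_option autoImplicit false

namespace KT2

open Module Matrix NumberField Pool.Agent.Helper7
open Pool.Agent.GPC (AbVar Form IsGrothendieck IsDivisorial)
open Pool.Agent.Ball (rot gAt HG Lorentz Sep pv cv pv_cv cv_pv cv_act act_pv pv_injective)
open Pool.Agent.Helper8.D (ent ent_act ent_mul ent_apply ent_irr)
open PSQ (W Inv BetR DRA)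
open BTL (ConfM)

section

variable {κ : Type} [Fintype κ] [DecidableEq κ] {ϖ : ℂ} {P : PData κ ϖ} {L : Type} [Field L]
  [NumberField L] {m : ℕ}

/-- the matrix of an operator between two places -/
noncomputable def Itw_fm (F : UF P L m) (τ' τ : L →+* ℂ) (f : Module.End ℂ (κ → ℂ)) :
    Matrix (Fin m) (Fin m) ℂ := Matrix.of fun a b => F.co τ' a (f (F.e τ b))

lemma Itw_fm_apply (F : UF P L m) (τ' τ : L →+* ℂ) (f : Module.End ℂ (κ → ℂ)) (a b : Fin m) :
    Itw_fm F τ' τ f a b = F.co τ' a (f (F.e τ b)) := rfl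

lemma Itw_comm (F : UF P L m) {n k : ℕ} {α : MultilinearMap ℂ (fun _ : Fin (2 * k) => W κ n) ℂ}
    {X : Module.End ℂ (κ → ℂ)} {c : ℂ} (hX : Inv P n k α X c) : F.Comm X :=
  F.comm_of_isInv (fun _ : Unit => n) (fun _ => P) α () hX

lemma Itw_inter (F : UF P L m) {n k : ℕ} {α : MultilinearMap ℂ (fun _ : Fin (2 * k) => W κ n) ℂ}
    {X : Module.End ℂ (κ → ℂ)} {c : ℂ} (hX : Inv P n k α X c) {f : Module.End ℂ (κ → ℂ)}
    (hf : IsDRB P P f) (τ' τ : L →+* ℂ) :
    ent F τ' X * Itw_fm F τ' τ f = Itw_fm F τ' τ f * ent F τ X := by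
  have hc : F.Comm X := Itw_comm F hX
  ext a b
  have h1 : X (f (F.e τ b)) = f (X (F.e τ b)) := hX.comm () () f hf _
  have h2 := congrFun (cv_act F hc τ' (f (F.e τ b))) a
  rw [h1, ent_act F τ X hc b, map_sum] at h2
  have h3 : cv F τ' (∑ x, f (ent F τ X x b • F.e τ x)) a =
      ∑ x, ent F τ X x b * F.co τ' a (f (F.e τ x)) := by
    show F.co τ' a (∑ x, f (ent F τ X x b • F.e τ x)) = _
    rw [map_sum]
    refine Finset.sum_congr rfl fun x _ => ?_
    rw [map_smul, map_smul, smul_eq_mul]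
  rw [h3] at h2
  rw [Matrix.mul_apply, Matrix.mul_apply]
  rw [Matrix.mulVec, dotProduct] at h2
  refine Eq.trans ?_ (h2.symm.trans ?_)
  · rfl
  · refine Finset.sum_congr rfl fun x _ => ?_
    rw [Itw_fm_apply, mul_comm]

/-- a non zero intertwiner is invertible -/
lemma Itw_inv (F : UF P L m) {n k : ℕ} {α : MultilinearMap ℂ (fun _ : Fin (2 * k) => W κ n) ℂ}
    (hϖ : ϖ ≠ 0) (hB : BetR P n k α) (hA : DRA n k α) (τ' τ : L →+* ℂ)
    (T : Matrix (Fin m) (Fin m) ℂ)
    (hT : ∀ X c, Inv P n k α X c → ent F τ' X * T = T * ent F τ X) (h0 : T ≠ 0) :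
    ∃ T' : Matrix (Fin m) (Fin m) ℂ, T * T' = 1 ∧ T' * T = 1 := by
  classical
  have irr : ∀ σ : L →+* ℂ, ∀ U : Submodule ℂ (Fin m → ℂ),
      (∀ X c, Inv P n k α X c → ∀ v ∈ U, ent F σ X *ᵥ v ∈ U) → U = ⊥ ∨ U = ⊤ := by
    intro σ U hU
    refine ent_irr (fun _ : Unit => n) (fun _ => P) (K := fun _ => L) α hϖ hB hA () F σ U ?_
    intro X hX v hv
    exact hU (X.1 ()) X.2 hX v hv
  -- the kernel
  have hk : ∀ v : Fin m → ℂ, T *ᵥ v = 0 → v = 0 := by
    rcases irr τ (LinearMap.ker (Matrix.mulVecLin T)) (by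
      intro X c hX v hv
      rw [LinearMap.mem_ker, Matrix.mulVecLin_apply] at hv ⊢
      rw [Matrix.mulVec_mulVec, ← hT X c hX, ← Matrix.mulVec_mulVec, hv, Matrix.mulVec_zero])
      with h | h
    · intro v hv
      have h1 : v ∈ LinearMap.ker (Matrix.mulVecLin T) := by
        rw [LinearMap.mem_ker, Matrix.mulVecLin_apply]
        exact hv
      rw [h, Submodule.mem_bot] at h1
      exact h1
    · exfalso
      apply h0
      ext a b
      have h1 : (Pi.single b 1 : Fin m → ℂ) ∈ LinearMap.ker (Matrix.mulVecLin T) := by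
        rw [h]
        exact Submodule.mem_top
      rw [LinearMap.mem_ker, Matrix.mulVecLin_apply] at h1
      have h2 := congrFun h1 a
      rw [Matrix.mulVec_single_one] at h2
      exact h2
  have hu : IsUnit T := by
    rw [← Matrix.mulVec_injective_iff_isUnit]
    intro u v huv
    have h1 : T *ᵥ (u - v) = 0 := by
      rw [Matrix.mulVec_sub]
      exact sub_eq_zero.mpr huv
    exact sub_eq_zero.mp (hk _ h1)
  obtain ⟨u, hu⟩ := hu
  refine ⟨(u⁻¹ : (Matrix (Fin m) (Fin m) ℂ)ˣ), ?_, ?_⟩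
  · rw [← hu]
    exact u.mul_inv
  · rw [← hu]
    exact u.inv_mul

/-- the representations at the two places are isomorphic -/
def Itw_R (F : UF P L m) {n k : ℕ} (α : MultilinearMap ℂ (fun _ : Fin (2 * k) => W κ n) ℂ)
    (σ τ : L →+* ℂ) : Prop := ∃ T T' : Matrix (Fin m) (Fin m) ℂ, T * T' = 1 ∧ T' * T = 1 ∧
    ∀ X c, Inv P n k α X c → ent F τ X * T = T * ent F σ X

lemma Itw_refl (F : UF P L m) {n k : ℕ} (α : MultilinearMap ℂ (fun _ : Fin (2 * k) => W κ n) ℂ)
    (σ : L →+* ℂ) : Itw_R F α σ σ :=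
  ⟨1, 1, mul_one 1, mul_one 1, fun X c _ => by rw [mul_one, one_mul]⟩

lemma Itw_symm (F : UF P L m) {n k : ℕ} {α : MultilinearMap ℂ (fun _ : Fin (2 * k) => W κ n) ℂ}
    {σ τ : L →+* ℂ} (h : Itw_R F α σ τ) : Itw_R F α τ σ := by
  obtain ⟨T, T', h1, h2, h3⟩ := h
  refine ⟨T', T, h2, h1, fun X c hX => ?_⟩
  have h4 : T' * (ent F τ X * T) * T' = T' * (T * ent F σ X) * T' := by rw [h3 X c hX]
  rw [← mul_assoc T' T, h2, one_mul, mul_assoc T' (ent F τ X * T), mul_assoc (ent F τ X) T, h1,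
    mul_one] at h4
  exact h4.symm

lemma Itw_trans (F : UF P L m) {n k : ℕ} {α : MultilinearMap ℂ (fun _ : Fin (2 * k) => W κ n) ℂ}
    {σ τ ρ : L →+* ℂ} (h : Itw_R F α σ τ) (h' : Itw_R F α τ ρ) : Itw_R F α σ ρ := by
  obtain ⟨T, T', h1, h2, h3⟩ := h
  obtain ⟨S, S', h4, h5, h6⟩ := h'
  refine ⟨S * T, T' * S', ?_, ?_, fun X c hX => ?_⟩
  · rw [mul_assoc, ← mul_assoc T, h1, one_mul, h4]
  · rw [mul_assoc, ← mul_assoc S', h5, one_mul, h2]
  · rw [← mul_assoc, h6 X c hX, mul_assoc, h3 X c hX, mul_assoc]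

/-- an endomorphism does not mix places with different representations -/
lemma Itw_zero (F : UF P L m) {n k : ℕ} {α : MultilinearMap ℂ (fun _ : Fin (2 * k) => W κ n) ℂ}
    (hϖ : ϖ ≠ 0) (hB : BetR P n k α) (hA : DRA n k α) {f : Module.End ℂ (κ → ℂ)}
    (hf : IsDRB P P f) (τ' τ : L →+* ℂ) (h : ¬ Itw_R F α τ τ') (a b : Fin m) :
    F.co τ' a (f (F.e τ b)) = 0 := by
  have h1 : Itw_fm F τ' τ f = 0 := by
    by_contra h0
    obtain ⟨T', h2, h3⟩ := Itw_inv F hϖ hB hA τ' τ (Itw_fm F τ' τ f)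
      (fun X c hX => Itw_inter F hX hf τ' τ) h0
    exact h ⟨_, T', h2, h3, fun X c hX => Itw_inter F hX hf τ' τ⟩
  exact congrFun (congrFun h1 a) b

end

theorem thm_Itw : St_Itw := by
  classical
  intro κ _ _ ϖ P L _ _ m F n k α hϖ hB hA σ τ hag
  rcases Nat.eq_zero_or_pos m with hm | hm
  · subst hm
    exact ⟨1, 1, mul_one 1, mul_one 1, fun X c _ => Subsingleton.elim _ _⟩
  show Itw_R F α σ τ
  -- the coefficients of the projector
  obtain ⟨c, hc⟩ : ∃ c : Fin (finrank ℚ L) → ℂ,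
      c = fun b => ∑ τ' : L →+* ℂ, if Itw_R F α σ τ' then τ' (dbas L b) else 0 := ⟨_, rfl⟩
  have hs : ∀ ρ : L →+* ℂ, ∑ b, c b * ρ (bas L b) = if Itw_R F α σ ρ then 1 else 0 := by
    intro ρ
    have h1 : ∀ b, c b * ρ (bas L b) = ∑ τ' : L →+* ℂ,
        if Itw_R F α σ τ' then τ' (dbas L b) * ρ (bas L b) else 0 := by
      intro b
      rw [hc, Finset.sum_mul]
      refine Finset.sum_congr rfl fun τ' _ => ?_
      rw [ite_mul, zero_mul]
    rw [Finset.sum_congr rfl fun b _ => h1 b, Finset.sum_comm]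
    have h2 : ∀ τ' : L →+* ℂ, (∑ b, if Itw_R F α σ τ' then τ' (dbas L b) * ρ (bas L b) else 0) =
        if τ' = ρ then (if Itw_R F α σ ρ then 1 else 0) else 0 := by
      intro τ'
      by_cases h : Itw_R F α σ τ'
      · simp only [if_pos h]
        rw [sum_dbas_bas]
        by_cases h3 : τ' = ρ
        · rw [if_pos h3, if_pos h3, if_pos (h3 ▸ h)]
        · rw [if_neg h3, if_neg h3]
      · simp only [if_neg h]
        rw [Finset.sum_const_zero]
        by_cases h3 : τ' = ρ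
        · rw [if_pos h3, if_neg (h3 ▸ h)]
        · rw [if_neg h3]
    rw [Finset.sum_congr rfl fun τ' _ => h2 τ']
    rw [Finset.sum_ite_eq' Finset.univ ρ]
    rw [if_pos (Finset.mem_univ ρ)]
  -- the projector
  obtain ⟨p, hp⟩ : ∃ p : Module.End ℂ (κ → ℂ), p = ∑ b, c b • F.ρ (bas L b) := ⟨_, rfl⟩
  have hpe : ∀ ρ j, p (F.e ρ j) = (if Itw_R F α σ ρ then 1 else 0 : ℂ) • F.e ρ j := by
    intro ρ j
    rw [hp, LinearMap.sum_apply, ← hs ρ, Finset.sum_smul]
    refine Finset.sum_congr rfl fun b _ => ?_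
    rw [LinearMap.smul_apply, F.rho_e, smul_smul]
  have hpf : ∀ f, IsDRB P P f → ∀ v, f (p v) = p (f v) := by
    intro f hf v
    refine F.ext_e (f ∘ₗ p) (p ∘ₗ f) (fun ρ j => ?_) v
    rw [LinearMap.comp_apply, LinearMap.comp_apply, hpe ρ j, map_smul]
    rw [F.hsum (f (F.e ρ j)), Finset.smul_sum, map_sum]
    refine Finset.sum_congr rfl fun ρ' _ => ?_
    rw [Finset.smul_sum, map_sum]
    refine Finset.sum_congr rfl fun a _ => ?_
    rw [map_smul, hpe ρ' a]
    by_cases h1 : Itw_R F α ρ ρ'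
    · have h2 : Itw_R F α σ ρ ↔ Itw_R F α σ ρ' :=
        ⟨fun h => Itw_trans F h h1, fun h => Itw_trans F h (Itw_symm F h1)⟩
      rw [if_congr h2 rfl rfl, smul_comm]
    · rw [Itw_zero F hϖ hB hA hf ρ' ρ h1 a j, zero_smul, zero_smul, smul_zero]
  -- rational coordinates of the coefficients
  obtain ⟨B, -⟩ : ∃ B : Basis (Module.Free.ChooseBasisIndex ℚ ℂ) ℚ ℂ,
      B = Module.Free.chooseBasis ℚ ℂ := ⟨_, rfl⟩
  obtain ⟨x, hx⟩ : ∃ x : Module.Free.ChooseBasisIndex ℚ ℂ → L,
      x = fun j => ∑ b, (B.repr (c b) j) • bas L b := ⟨_, rfl⟩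
  have hz : ∀ j, Zen F (x j) := by
    intro j f hf
    -- the commutators with the basis elements
    have h1 : ∀ b, ∀ q : P.ι, ∀ q' : P.ι, ∃ r : ℚ,
        P.bB.repr (f (F.ρ (bas L b) (P.bB q)) - F.ρ (bas L b) (f (P.bB q))) q' = r := by
      intro b q q'
      refine P.repr_rat _ (P.Q.sub_mem ?_ ?_) q'
      · exact hf.rat _ ((F.hρ _).rat _ (P.basis_mem q))
      · exact (F.hρ _).rat _ (hf.rat _ (P.basis_mem q))
    choose r hr using h1
    have h2 : ∀ q q', ∑ b, c b * (r b q q' : ℂ) = 0 := by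
      intro q q'
      have h3 := hpf f hf (P.bB q)
      have h4 : ∑ b, c b • (f (F.ρ (bas L b) (P.bB q)) - F.ρ (bas L b) (f (P.bB q))) = 0 := by
        rw [hp, LinearMap.sum_apply, LinearMap.sum_apply, map_sum] at h3
        rw [← sub_eq_zero, ← Finset.sum_sub_distrib] at h3
        rw [← h3]
        refine Finset.sum_congr rfl fun b _ => ?_
        rw [LinearMap.smul_apply, LinearMap.smul_apply, map_smul, smul_sub]
      have h5 := congrArg (fun w => P.bB.repr w q') h4
      simp only [map_sum, map_smul, map_zero, Finsupp.coe_zero, Pi.zero_apply] at h5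
      rw [Finsupp.finsetSum_apply] at h5
      rw [← h5]
      refine Finset.sum_congr rfl fun b _ => ?_
      rw [Finsupp.smul_apply, hr b q q', smul_eq_mul]
    have h3 : ∀ q q', ∑ b, B.repr (c b) j * r b q q' = 0 := by
      intro q q'
      have h4 := congrArg (fun w => B.repr w j) (h2 q q')
      simp only [map_sum, map_zero, Finsupp.coe_zero, Pi.zero_apply] at h4
      rw [Finsupp.finsetSum_apply] at h4
      rw [← h4]
      refine Finset.sum_congr rfl fun b _ => ?_
      have h5 : c b * (r b q q' : ℂ) = r b q q' • c b := by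
        rw [Algebra.smul_def, eq_ratCast, mul_comm]
      rw [h5, map_smul, Finsupp.smul_apply, smul_eq_mul, mul_comm]
    have h4 : f ∘ₗ F.ρ (x j) = F.ρ (x j) ∘ₗ f := by
      apply P.bB.ext
      intro q
      rw [LinearMap.comp_apply, LinearMap.comp_apply]
      have h5 : ∀ v, F.ρ (x j) v = ∑ b, (B.repr (c b) j : ℂ) • F.ρ (bas L b) v := by
        intro v
        rw [hx, map_sum, LinearMap.sum_apply]
        refine Finset.sum_congr rfl fun b _ => ?_
        rw [rho_ratsmul, LinearMap.smul_apply]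
      rw [h5, h5, map_sum, ← sub_eq_zero, ← Finset.sum_sub_distrib]
      apply P.bB.repr.injective
      ext q'
      rw [map_zero, Finsupp.coe_zero, Pi.zero_apply, map_sum, Finsupp.finsetSum_apply]
      have h6 : ∀ b, P.bB.repr (f ((B.repr (c b) j : ℂ) • F.ρ (bas L b) (P.bB q)) -
          (B.repr (c b) j : ℂ) • F.ρ (bas L b) (f (P.bB q))) q' =
          ((B.repr (c b) j * r b q q' : ℚ) : ℂ) := by
        intro b
        rw [map_smul, ← smul_sub, map_smul, Finsupp.smul_apply, hr b q q', smul_eq_mul]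
        push_cast
        rfl
      rw [Finset.sum_congr rfl fun b _ => h6 b, ← Rat.cast_sum, h3, Rat.cast_zero]
    intro v
    exact congrArg (fun g : (κ → ℂ) →ₗ[ℂ] (κ → ℂ) => g v) h4
  -- the value at a place
  have hval : ∀ ρ : L →+* ℂ, ∑ b, c b * ρ (bas L b) =
      ∑ j ∈ Finset.univ.biUnion (fun b => (B.repr (c b)).support), B j * ρ (x j) := by
    intro ρ
    have h1 : ∀ b, c b = ∑ j ∈ Finset.univ.biUnion (fun b => (B.repr (c b)).support),
        (B.repr (c b) j) • B j := by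
      intro b
      have h2 := B.linearCombination_repr (c b)
      rw [Finsupp.linearCombination_apply, Finsupp.sum] at h2
      rw [← Finset.sum_subset (Finset.subset_biUnion_of_mem (fun b => (B.repr (c b)).support)
        (Finset.mem_univ b)) ?_]
      · exact h2.symm
      · intro j _ hj
        rw [Finsupp.notMem_support_iff.mp hj, zero_smul]
    have h3 : ∀ j, B j * ρ (x j) = ∑ b, ((B.repr (c b) j) • B j) * ρ (bas L b) := by
      intro j
      rw [hx, map_sum, Finset.mul_sum]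
      refine Finset.sum_congr rfl fun b _ => ?_
      have h4 : ρ ((B.repr (c b) j) • bas L b) = (B.repr (c b) j : ℂ) * ρ (bas L b) := by
        rw [Algebra.smul_def, map_mul, eq_ratCast, map_ratCast]
      rw [h4, Algebra.smul_def, eq_ratCast]
      ring
    rw [Finset.sum_congr rfl fun j _ => h3 j, Finset.sum_comm]
    refine Finset.sum_congr rfl fun b _ => ?_
    rw [← Finset.sum_mul, ← h1 b]
  have h1 : (if Itw_R F α σ τ then (1 : ℂ) else 0) = if Itw_R F α σ σ then 1 else 0 := by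
    rw [← hs τ, ← hs σ, hval τ, hval σ]
    refine Finset.sum_congr rfl fun j _ => ?_
    rw [hag (x j) (hz j)]
  rw [if_pos (Itw_refl F α σ)] at h1
  by_contra h
  rw [if_neg h] at h1
  exact zero_ne_one h1

end KT2
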