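import Pool.Agent.KT2.Defs

/-!
# KT2: frozen statements

Every module `Pool/Agent/KT2/<X>.lean` imports this file and proves `theorem thm_<X> : St_<X>` (with
the hypotheses named in its docstring), namespace `KT2`, own lemmas with names starting with the
name of the module. The docstrings contain the proofs.
-/

set_option autoImplicit false

namespace KT2

open Module Matrix NumberField Pool.Agent.Helper7
open Pool.Agent.GPC (AbVar Form IsGrothendieck IsDivisorial)
open Pool.Agent.Ball (rot gAt HG Lorentz Sep)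
open Pool.Agent.Helper8.D (ent)
open PSQ (W Inv BetR DRA)
open BTL (ConfM)

/-! ## Part A. The symmetries at a place -/

/-- **ITW.**  Two embeddings of `L` which agree on the centre give isomorphic representations.
PROOF.  Let `R` be the set of the `τ'` for which there are `T, T'` as in the statement with `τ'` for
`τ` (`σ ∈ R`), and `p = ∑ τ' ∈ R, proj F.ρ τ'`.  (1) `p` commutes with every endomorphism `f`
(`IsDRB P P f`): for `τ', τ''` let `f' = (F.co τ'' i (f (F.e τ' j)))_ij`.  A symmetry `X` commutes with `f`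
(`Inv`, `IsInv.comm`) and with `F.ρ`, so `ent F τ'' X * f' = f' * ent F τ' X`; by irreducibility
(`Pool.Agent.Ball.gAt_irr`, kernel and range of `f'`; subtract the homothety `isInv_homothety` to get
multiplier 0) `f'` is zero or invertible, so it is zero if exactly one of `τ', τ''` is in `R`.
(2) `p = ∑ b, c b • F.ρ (bas L b)` with `c b = ∑ τ' ∈ R, τ' (dbas L b)`.  Write the finitely many `c b` as
rational combinations of complex numbers `t j` which are linearly independent over `ℚ`: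
`p = ∑ j, t j • F.ρ (x j)`.  For an endomorphism `f` the operators `[F.ρ (x j), f]` map `P.Q` to `P.Q` and
`∑ j, t j • [F.ρ (x j), f] = 0`, so they are zero (coordinates in the basis `P.bB`): `Zen F (x j)`.
(3) `p` acts on the eigenspace of `τ'` as `∑ j, t j * τ' (x j)`, which is the same number for `σ` and `τ`
if they agree on the centre.  It is `1` for `σ`, so `τ ∈ R`.  (`m = 0`: trivial.) -/
def St_Itw : Prop := ∀ (κ : Type) [Fintype κ] [DecidableEq κ] (ϖ : ℂ) (P : PData κ ϖ)
  (L : Type) [Field L] [NumberField L] (m : ℕ) (F : UF P L m) (n k : ℕ)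
  (α : MultilinearMap ℂ (fun _ : Fin (2 * k) => W κ n) ℂ), ϖ ≠ 0 → BetR P n k α → DRA n k α →
  ∀ σ τ : L →+* ℂ, Ag F σ τ → ∃ T T' : Matrix (Fin m) (Fin m) ℂ, T * T' = 1 ∧ T' * T = 1 ∧
    ∀ X c, Inv P n k α X c → ent F τ X * T = T * ent F σ X

/-- **ROT.**  Rotations.  PROOF.  As `Pool.Agent.Ball.concentrated` and `all_rot2` (Helper8/B/Final2.lean,
Helper8/B/Conc.lean), for the set of the places which do not agree with `σ₀` or its conjugate on
the centre instead of the set of the places different from `σ₀` and its conjugate: the ideal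
`inf vanAt` over this finite set contains the hyperbolic element at `σ₀`, and
`Pool.Agent.Helper36.Ball.M5'` applies to `g = gAt .. σ₀` and to `c` = the submodule with carrier `zAt`
(`c ≤ g`, `[g, c] ⊆ c` as `cAt_le`, `cAt_br`). -/
def St_Rot : Prop := ∀ (κ : Type) [Fintype κ] [DecidableEq κ]
  (P : PData κ (2 * Real.pi * Complex.I)) (L : Type) [Field L] [NumberField L] (m : ℕ)
  (F : UF P L m) (n k : ℕ) (α : MultilinearMap ℂ (fun _ : Fin (2 * k) => W κ n) ℂ), 3 ≤ m →
  BetR P n k α → DRA n k α → ∀ σ₀ : L →+* ℂ, Lorentz (HG F σ₀) →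
  (∀ τ, ¬ Ag F τ σ₀ → ¬ Ag F τ (ComplexEmbedding.conjugate σ₀) →
    Sep (fun _ : Unit => P) () F σ₀ τ) →
  ∃ U V : Matrix (Fin m) (Fin m) ℂ, U * V = 1 ∧ V * U = 1 ∧
    ∀ i j, U * rot i j * V ∈ zAt n k α F σ₀

/-- **TWI.**  Twists.  PROOF.  As `Pool.Agent.Ball.cAt_tw` (`isInv_tw`, `entry_tw`, `comp_conj`); `τ`
respects agreement on the centre because `(τ.comp σ) x = τ (σ x)`. -/
def St_Twi : Prop := ∀ (κ : Type) [Fintype κ] [DecidableEq κ] (ϖ : ℂ) (P : PData κ ϖ)
  (L : Type) [Field L] [NumberField L] (m : ℕ) (F : UF P L m) (n k : ℕ)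
  (α : MultilinearMap ℂ (fun _ : Fin (2 * k) => W κ n) ℂ), ϖ ≠ 0 → BetR P n k α →
  ∀ (τ : ℂ ≃+* ℂ) (σ : L →+* ℂ) (M : Matrix (Fin m) (Fin m) ℂ),
    (M ∈ sAt n k α F σ → M.map τ ∈ sAt n k α F ((τ : ℂ →+* ℂ).comp σ)) ∧
    (M ∈ zAt n k α F σ → M.map τ ∈ zAt n k α F ((τ : ℂ →+* ℂ).comp σ))

/-! ## Part B. The Brauer class -/

/-- **LIN.**  An intertwiner over `ℂ` gives one over `ℚ`.  PROOF.  In the basis `P.bB` the operators
of `Φ` are rational matrices.  The rational solutions `B` of `B A = A' B` for `(A, A') ∈ Φ` form a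
rational space `X` and the complex solutions are its complex span (write the entries of a complex
solution as rational combinations of complex numbers which are linearly independent over `ℚ`).  Let
`B₁, .., B_r` be a basis of `X`; the polynomial `det (∑ x_i B_i)` with rational coefficients has a
non zero value at a complex point, so it is not the zero polynomial, and it has a non zero value at
a rational point (`MvPolynomial.funext`, `ℚ` is infinite). -/
def St_Lin : Prop := ∀ (κ : Type) [Fintype κ] [DecidableEq κ] (ϖ : ℂ) (P : PData κ ϖ)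
  (Φ : Set (Module.End ℂ (κ → ℂ) × Module.End ℂ (κ → ℂ))),
  (∀ p ∈ Φ, (∀ v ∈ P.Q, p.1 v ∈ P.Q) ∧ ∀ v ∈ P.Q, p.2 v ∈ P.Q) →
  (∃ b : Module.End ℂ (κ → ℂ), Function.Bijective b ∧ ∀ p ∈ Φ, b * p.1 = p.2 * b) →
  ∃ b : Module.End ℂ (κ → ℂ), Function.Bijective b ∧ (∀ v ∈ P.Q, b v ∈ P.Q) ∧
    ∀ p ∈ Φ, b * p.1 = p.2 * b

/-- **KAN** (from `St_Twi`).  If the symmetries at `σ₀` are conformal, then there is an antilinear
intertwiner.  PROOF.  By `St_Twi` and `Pool.Agent.Helper84.exists_aut` for every `σ` there are `U, V` with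
`U * V = V * U = 1` and `ConfM U V M` for all `M ∈ sAt σ`; so for a bracket `Y` the matrix `ent F σ Y`
is `U * S * V` with skew `S` (a bracket of conformal matrices is skew: the scalars cancel; brackets
have multiplier zero, symmetries can be changed by homotheties).  Let `G` be the matrix
`P.ψ (F.e (conj σ) a) (F.e σ b)`, invertible (`P.hψnd` and `P.ψ (F.e τ _) (F.e σ _) = 0` for
`τ ≠ conj σ`).  `P.ψ (Y u) v + P.ψ u (Y v) = 0` gives `(ent (conj σ) Y)ᵀ * G + G * ent σ Y = 0`, so
`ent (conj σ) Y * B = B * ent σ Y` for `B = (G⁻¹)ᵀ * Vᵀ * V`.  The operator `b` with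
`b (F.e σ j) = ∑ i, B i j • F.e (conj σ) i` has the properties. -/
def St_Kan : Prop := ∀ (κ : Type) [Fintype κ] [DecidableEq κ] (ϖ : ℂ) (P : PData κ ϖ)
  (L : Type) [Field L] [NumberField L] (m : ℕ) (F : UF P L m) (n k : ℕ)
  (α : MultilinearMap ℂ (fun _ : Fin (2 * k) => W κ n) ℂ), ϖ ≠ 0 → BetR P n k α → DRA n k α →
  ∀ (σ₀ : L →+* ℂ) (U V : Matrix (Fin m) (Fin m) ℂ), U * V = 1 → V * U = 1 →
  (∀ M ∈ sAt n k α F σ₀, ConfM U V M) →
  ∃ b : Module.End ℂ (κ → ℂ), Function.Bijective b ∧ (∀ Y, IsBr P n k α Y → b * Y = Y * b) ∧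
    ∀ x, b * F.ρ x = F.ρ (F.cc x) * b

/-- **COM** (from `St_Itw`, `St_Twi`).  A rational operator which commutes with the brackets and with
the centre is an endomorphism.  PROOF.  By `St_Twi` and `exists_aut` at every `σ` the matrices of
`sAt σ` are conformal for some `U, V`, and the `U * rot i j * V` are in `sAt σ`; they are brackets of such
matrices because `rot i j = ± [rot i l, rot l j]` (`3 ≤ m`); so for a symmetry `X` of multiplier zero
and `σ` there are a number `a` and a sum `Y` of brackets with `ent F σ X = a • 1 + ent F σ Y`.  For `τ`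
which agrees with `σ` on the centre also `ent F τ X = a • 1 + ent F τ Y` (`St_Itw`).  `f` commutes with
`F.ρ x` for central `x`, so it maps the eigenspace of `σ` to the sum of the eigenspaces of these `τ`
(compare eigenvalues), where `X = a + Y`; so `f` commutes with `X`.  So `f` commutes with all
symmetries, and a rational operator which commutes with all symmetries is an endomorphism
(`PSQ.thm_Inv`, field `com2` of `GA0`, or `Pool.Agent.Helper7`'s theorem behind it). -/
def St_Com : Prop := ∀ (κ : Type) [Fintype κ] [DecidableEq κ] (ϖ : ℂ) (P : PData κ ϖ)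
  (L : Type) [Field L] [NumberField L] (m : ℕ) (F : UF P L m) (n k : ℕ)
  (α : MultilinearMap ℂ (fun _ : Fin (2 * k) => W κ n) ℂ), 3 ≤ m → ϖ ≠ 0 → BetR P n k α →
  DRA n k α → ∀ (σ₀ : L →+* ℂ) (U V : Matrix (Fin m) (Fin m) ℂ), U * V = 1 → V * U = 1 →
  (∀ i j, U * rot i j * V ∈ sAt n k α F σ₀) → (∀ M ∈ sAt n k α F σ₀, ConfM U V M) →
  ∀ f : Module.End ℂ (κ → ℂ), (∀ v ∈ P.Q, f v ∈ P.Q) → (∀ Y, IsBr P n k α Y → f * Y = Y * f) →
  (∀ x, Zen F x → f * F.ρ x = F.ρ x * f) → IsDRB P P f

/-- **BRA** (from `St_Lin`, `St_Kan`, `St_Com`).  The Brauer step.  PROOF.  Suppose that all matrices of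
`sAt σ₀` are conformal.  `St_Kan` gives `b` over `ℂ`, and `St_Lin` a rational one: `Φ` consists of the
pairs `(Y, Y)` for the brackets `Y` of rational symmetries and of the pairs `(F.ρ x, F.ρ (F.cc x))`
(the symmetries are spanned over `ℂ` by the rational ones, `PSQ.thm_Inv`, field `rat` of `GA0`, so `b`
commutes with all brackets).  `b⁻¹` is rational too.  If `f` is an endomorphism, then `b f b⁻¹` is
rational, commutes with the brackets (`f` does, it commutes with all symmetries) and with `F.ρ x`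
for central `x` (`F.cc x` is central: `F.ρ (F.cc x)` is the adjoint of `F.ρ x`, and the adjoints of
the endomorphisms are endomorphisms), so it is an endomorphism by `St_Com`.  Let `θ f` be the adjoint
of `b f b⁻¹` for `P.ψ`: an endomorphism, `θ` is additive and anti-multiplicative, and
`θ (F.ρ x) = (F.ρ (F.cc x))^† = F.ρ x`.  This contradicts `NoAnti F`. -/
def St_Bra : Prop := ∀ (κ : Type) [Fintype κ] [DecidableEq κ] (ϖ : ℂ) (P : PData κ ϖ)
  (L : Type) [Field L] [NumberField L] (m : ℕ) (F : UF P L m) (n k : ℕ)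
  (α : MultilinearMap ℂ (fun _ : Fin (2 * k) => W κ n) ℂ), 3 ≤ m → ϖ ≠ 0 → BetR P n k α →
  DRA n k α → NoAnti F → ∀ (σ₀ : L →+* ℂ) (U V : Matrix (Fin m) (Fin m) ℂ), U * V = 1 →
  V * U = 1 → (∀ i j, U * rot i j * V ∈ sAt n k α F σ₀) → ∃ M ∈ sAt n k α F σ₀, ¬ ConfM U V M

/-- **SLC** (from `St_Twi`).  PROOF.  `zAt σ₀` is (the carrier of) an ideal of the Lie algebra `sAt σ₀`.
Let `M ∈ sAt σ₀` be not conformal, `V * M * U = a • 1 + S + R`, `S` symmetric of trace zero, `S ≠ 0`, `R` skew.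
`[V M U, rot i j] = [S, rot i j] + [R, rot i j]`, the first term is symmetric, and it is not zero for some
`i, j` (a symmetric matrix which commutes with all rotations is scalar).  So `zAt σ₀` contains a
matrix which is not conformal, and `BTL.thm_Max` gives all matrices of trace zero at `σ₀`.  For the
other `σ`: `St_Twi` and `exists_aut`; every matrix of trace zero is `M.map τ` for such `M`. -/
def St_Slc : Prop := ∀ (κ : Type) [Fintype κ] [DecidableEq κ] (ϖ : ℂ) (P : PData κ ϖ)
  (L : Type) [Field L] [NumberField L] (m : ℕ) (F : UF P L m) (n k : ℕ)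
  (α : MultilinearMap ℂ (fun _ : Fin (2 * k) => W κ n) ℂ), 3 ≤ m → ϖ ≠ 0 → BetR P n k α →
  ∀ (σ₀ : L →+* ℂ) (U V : Matrix (Fin m) (Fin m) ℂ), U * V = 1 → V * U = 1 →
  (∀ i j, U * rot i j * V ∈ zAt n k α F σ₀) → (∃ M ∈ sAt n k α F σ₀, ¬ ConfM U V M) →
  ∀ (σ : L →+* ℂ) (y : Matrix (Fin m) (Fin m) ℂ), y.trace = 0 → y ∈ zAt n k α F σ

/-- **CXC.**  The centre is not real.  PROOF.  Suppose `σ x = conj (σ x) = σ (F.cc x)` for all central
`x`, so `F.cc x = x`.  The adjoint `θ f` of an endomorphism `f` for `P.ψ` is an endomorphism, `θ` is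
additive and anti-multiplicative, and `θ (F.ρ x) = F.ρ (F.cc x) = F.ρ x` for central `x`. -/
def St_Cxc : Prop := ∀ (κ : Type) [Fintype κ] [DecidableEq κ] (ϖ : ℂ) (P : PData κ ϖ)
  (L : Type) [Field L] [NumberField L] (m : ℕ) (F : UF P L m), ϖ ≠ 0 → NoAnti F →
  ∀ σ : L →+* ℂ, ¬ Ag F σ (ComplexEmbedding.conjugate σ)

/-- **FRM** (from `St_Itw`).  The frame.  PROOF.  Agreement on the centre is an equivalence relation,
compatible with complex conjugation (`F.cc x` is central if `x` is: `F.ρ (F.cc x)` is the adjoint of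
`F.ρ x` for `P.ψ` and the adjoints of endomorphisms are endomorphisms), and `σ` never agrees with
its conjugate.  Choose one class from every pair of conjugate classes; `T` is the set of the
embeddings in the chosen classes (a subtype), `S` the set of the chosen classes, `pl` the
projection, `σ_s` a representative.  `e (true, t, j) = ∑ i, T i j • F.e t i` with the intertwiner `T` of
`St_Itw` from `σ_(pl t)` to `t`; `e (false, t, ·)` is the basis of the eigenspace of `conj t` dual to it: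
`P.ψ (e (true, t, i)) (e (false, t, j)) = if i = j then 1 else 0` (as in `BTL/Frm.lean`, `BSM/FrmL.lean`).
`act`: `y s = ent F σ_s X`, and `P.ψ (X u) v + P.ψ u (X v) = c * P.ψ u v`.  `sl`: the hypothesis at `σ_s`. -/
def St_Frm : Prop := ∀ (κ : Type) [Fintype κ] [DecidableEq κ] (ϖ : ℂ) (P : PData κ ϖ)
  (L : Type) [Field L] [NumberField L] (m : ℕ) (F : UF P L m) (n k : ℕ)
  (α : MultilinearMap ℂ (fun _ : Fin (2 * k) => W κ n) ℂ), ϖ ≠ 0 → BetR P n k α → DRA n k α →
  (∀ σ : L →+* ℂ, ¬ Ag F σ (ComplexEmbedding.conjugate σ)) →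
  (∀ (σ : L →+* ℂ) (y : Matrix (Fin m) (Fin m) ℂ), y.trace = 0 → y ∈ zAt n k α F σ) →
  ∃ (T S : Type) (_ : Fintype T) (_ : DecidableEq T) (_ : Fintype S) (_ : DecidableEq S)
    (pl : T → S) (τ : T → (L →+* ℂ)) (e : Basis (Bool × T × Fin m) ℂ (κ → ℂ)),
    Frame n k α pl e P ∧ (∀ s, ∃ t, pl t = s) ∧ (∀ t t', pl t = pl t' ↔ Ag F (τ t) (τ t')) ∧
    (∀ t t', ¬ Ag F (τ t) (ComplexEmbedding.conjugate (τ t'))) ∧
    (∀ t j x, F.ρ x (e (true, t, j)) = τ t x • e (true, t, j)) ∧
    ∀ t j x, F.ρ x (e (false, t, j)) =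
      ComplexEmbedding.conjugate (τ t) x • e (false, t, j)

/-! ## Part C. The first fundamental theorem -/

/-- **WGT.**  From `sl` to `gl`, below the degree of the determinants.  PROOF.  It is enough to show
that for every place `s` the operator `X` with `y s = 1` and `y s' = 0` for `s' ≠ s` kills `α` (every matrix is a
multiple of 1 plus a matrix of trace zero).  `α` is determined by its values `α (e ∘ w)`,
`w : Fin N → Bool × T × Fin m`; let `N_(s,i) (w)` be the number of `r` with `w r = (true, t, i)`, `pl t = s`,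
minus the number of `r` with `w r = (false, t, i)`, `pl t = s`.  The diagonal matrices of trace zero give
`(∑ i, y_i N_(s,i)) * α (e ∘ w) = 0`, so if `α (e ∘ w) ≠ 0` then `N_(s,i) = N_s` does not depend on `i`, and
`m * ∑ s, |N_s| ≤ N`, `m * ∑ s, N_s ≡ N mod 2`, `N` even.  If `m` is even, `N < m` gives `N_s = 0`; if `m` is odd,
`∑ |N_s|` is even and `N < 2 m`, so again `N_s = 0`.  The operator `X` multiplies the value at `e ∘ w` by
`∑ i, N_(s,i) = m * N_s = 0`. -/
def St_Wgt : Prop := ∀ (U : Type) [AddCommGroup U] [Module ℂ U] (T S : Type) [Fintype T]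
  [DecidableEq T] [Fintype S] [DecidableEq S] (m N : ℕ) (pl : T → S)
  (e : Basis (Bool × T × Fin m) ℂ U) (α : MultilinearMap ℂ (fun _ : Fin N => U) ℂ), 1 ≤ m →
  Even N → N < (if Even m then m else 2 * m) → SlK pl e α → GlK pl e α

/-- **FFP** (from `KTP.St_Prd`).  The first fundamental theorem for the product of general linear
groups.  PROOF.  By words, as `KTP.thm_Wrd`: for `w : Fin N → S` let `α_w` be the form in which the slot
`r` is projected to the span of the `e (_, t, _)`, `pl t = w r`.  For fixed `w` and a place `s` the form in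
the slots with `w r = s` (the other slots fixed) is killed by the general linear algebra of `s`, so by
`PSQ.thm_Fft` (with `T` replaced by `{t // pl t = s}`) it is in a finite dimensional space of functions
spanned by products of pairings; `KTP.St_Prd` (a function of several variables which in every
variable lies in a finite dimensional space is a sum of products) finishes. -/
def St_Ffp : Prop := ∀ (U : Type) [AddCommGroup U] [Module ℂ U] (T S : Type) [Fintype T]
  [DecidableEq T] [Fintype S] [DecidableEq S] (m N : ℕ) (pl : T → S)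
  (e : Basis (Bool × T × Fin m) ℂ U) (α : MultilinearMap ℂ (fun _ : Fin N => U) ℂ),
  GlK pl e α → (fun v => α v) ∈ Submodule.span ℂ {Φ | PP {β : U →ₗ[ℂ] U →ₗ[ℂ] ℂ |
    ∃ t t' : T, pl t = pl t' ∧ ∀ u v,
      β u v = ∑ i, e.repr u (true, t, i) * e.repr v (false, t', i)} Finset.univ Φ}

/-- **FAM** (from `St_Wgt`, `St_Ffp`).  PROOF.  As `BTL/Fam.lean` with the basis
`Bool × (Fin n × T) × Fin m` of `W κ n` and `pl (j, t) = pl t`.  An operator of `SlK` for it is `lift` of the
operator of `H_1` with the same matrices, which is the symmetry of `Frame.sl` (sum over `s`;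
`Frame.act` gives the action on the `e (false, ..)`); so `α` satisfies `SlK`.  If the degree is in the
range, `St_Wgt`; otherwise the hypothesis gives all matrices.  Then `St_Ffp`; the pairings are in `invB`
(`Frame.act`). -/
def St_Fam : Prop := ∀ (κ : Type) [Fintype κ] [DecidableEq κ] (ϖ : ℂ) (P : PData κ ϖ)
  (n k m : ℕ) (α : MultilinearMap ℂ (fun _ : Fin (2 * k) => W κ n) ℂ) (T S : Type) [Fintype T]
  [DecidableEq T] [Fintype S] [DecidableEq S] (pl : T → S)
  (e : Basis (Bool × T × Fin m) ℂ (κ → ℂ)), 1 ≤ m → Frame n k α pl e P →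
  (2 * k < (if Even m then m else 2 * m) ∨
    ∀ (s : S), ∃ X, Inv P n k α X 0 ∧
      ∀ t j, X (e (true, t, j)) = if pl t = s then e (true, t, j) else 0) →
  α ∈ Submodule.span ℂ {M | ∃ (π : Equiv.Perm (Fin (2 * k)))
    (β : Fin k → (W κ n →ₗ[ℂ] W κ n →ₗ[ℂ] ℂ)),
    (∀ a, β a ∈ invB (fun _ : Unit => n) (fun _ => P) α) ∧ M = (prodBilin β).domDomCongr π}

/-- **QUA.**  The centre is quadratic: the centre of the Lie algebra.  PROOF.  As `BTL.thm_Cen`.  Let
`X = P.N D`, a symmetry with multiplier `c` (see `BTL/Cen.lean`, `PSQ/M/Gl.lean`), `y` the matrix of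
`Frame.act` at the only place; with `f` the number of the elements of `T`:
`trace (X * F.ρ x) = f * z * (2 * trace y - m * c) ≠ 0`, so `X - (c / 2) • 1` (homothety) is a symmetry of
multiplier 0 with non zero trace at the place; subtract a matrix of trace zero (`Frame.sl`) and
scale. -/
def St_Qua : Prop := ∀ (κ : Type) [Fintype κ] [DecidableEq κ] (ϖ : ℂ) (P : PData κ ϖ)
  (L : Type) [Field L] [NumberField L] (m : ℕ) (F : UF P L m) (n k : ℕ)
  (α : MultilinearMap ℂ (fun _ : Fin (2 * k) => W κ n) ℂ), 1 ≤ m → ϖ ≠ 0 → BetR P n k α →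
  DRA n k α → ∀ (T S : Type) [Fintype T] [DecidableEq T] [Fintype S] [DecidableEq S] (pl : T → S)
  (e : Basis (Bool × T × Fin m) ℂ (κ → ℂ)) (z : ℂ) (x : L), Frame n k α pl e P →
  (∀ s s' : S, s = s') → (∀ t j, F.ρ x (e (true, t, j)) = z • e (true, t, j)) →
  (∀ t j, F.ρ x (e (false, t, j)) = (-z) • e (false, t, j)) →
  (∃ D : Derivation ℚ ℂ ℂ, LinearMap.trace ℂ (κ → ℂ) (P.N D * F.ρ x) ≠ 0) →
  ∀ (s : S), ∃ X, Inv P n k α X 0 ∧
    ∀ t j, X (e (true, t, j)) = if pl t = s then e (true, t, j) else 0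

/-! ## Part D. Assembly -/

/-- **ABS** (from everything above).  The theorem for abstract data.  PROOF.  `St_Rot`; `St_Bra` (`zAt` is
contained in `sAt`) and `St_Slc`; `St_Cxc`, `St_Frm`; in the second case of the last hypothesis `St_Qua` (one
place of the centre; `x` acts by `± z` on the halves of the frame: all the `τ t` agree on the centre
with `σ₀` or all with its conjugate); `St_Fam`; `PSQ.descent`. -/
def St_Abs : Prop := ∀ (κ : Type) [Fintype κ] [DecidableEq κ]
  (P : PData κ (2 * Real.pi * Complex.I)) (L : Type) [Field L] [NumberField L] (m : ℕ)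
  (F : UF P L m) (n k : ℕ) (α : (W κ n) [⋀^Fin (2 * k)]→ₗ[ℂ] ℂ), 3 ≤ m → NoAnti F →
  BetR P n k (α : MultilinearMap ℂ (fun _ : Fin (2 * k) => W κ n) ℂ) →
  DRA n k (α : MultilinearMap ℂ (fun _ : Fin (2 * k) => W κ n) ℂ) → ∀ σ₀ : L →+* ℂ,
  Lorentz (HG F σ₀) → (∀ τ, ¬ Ag F τ σ₀ → ¬ Ag F τ (ComplexEmbedding.conjugate σ₀) →
    Sep (fun _ : Unit => P) () F σ₀ τ) →
  (2 * k < (if Even m then m else 2 * m) ∨ ∃ (x : L) (z : ℂ),
    (∀ τ, (Ag F τ σ₀ ∧ τ x = z) ∨ (Ag F τ (ComplexEmbedding.conjugate σ₀) ∧ τ x = -z)) ∧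
    ∃ D : Derivation ℚ ℂ ℂ, LinearMap.trace ℂ (κ → ℂ) (P.N D * F.ρ x) ≠ 0) →
  α ∈ Submodule.span ℚ {ω | ∃ γ : Fin k → (W κ n →ₗ[ℂ] W κ n →ₗ[ℂ] ℂ),
    (∀ a, γ a ∈ GW (fun _ : Unit => n) (fun _ => P)) ∧ ω = wedge γ}

/-- **FRA.**  The frame of an abelian variety.  PROOF.  As `Pool.Agent.Ball.nonempty_UF2` and the
proof of `Pool.Agent.Ball.main_ball2` (Helper8/B/Main2.lean); `IsDRB (pData A) (pData A) f` is `A.IsEnd f`
(`isDRB_of_isEnd`, `isEnd_of_isDRB`), so `Ag F` is `A.AgreeCen ρ`. -/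
def St_Fra : Prop := ∀ (A : AbVar) (K : Type) [Field K] [NumberField K] [IsCMField K] (n : ℕ)
  (ρ : K → A.H1 → A.H1), A.IsMultCen K n ρ → 3 ≤ n → A.NoAnti →
  ∃ (F : UF (pData A) K n) (σ₀ : K →+* ℂ), (∀ x v, F.ρ x v = ρ x v) ∧ NoAnti F ∧
    Lorentz (HG F σ₀) ∧
    (∀ τ, Ag F τ (ComplexEmbedding.conjugate σ₀) → finrank ℂ (A.eigenFil ρ τ) = 1) ∧
    ∀ τ, ¬ Ag F τ σ₀ → ¬ Ag F τ (ComplexEmbedding.conjugate σ₀) →
      Sep (fun _ : Unit => pData A) () F σ₀ τ

/-- **TOR.**  The torus part for a quadratic centre.  PROOF.  `f = J`, `J^2 = -d`, is central, so it is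
`F.ρ x` (`F.hcen`), and `DWC.IsKs A d J` (adjoint: `F.hros`, `F.cc x = -x` because `J` is not real:
`σ x = ± i √d`).  `z = σ₀ x`.  An embedding `τ` has `τ x = z` or `τ x = -z`, and then it agrees with
`σ₀` or its conjugate on the centre (every central element is `a + b J`).  `A.filEigen J w` is the sum
of the `A.eigenFil ρ τ`, `τ x = w` (`proj_fil`); with `f` the number of the `τ` with `τ x = z` it has the
dimension `f` for `w = -z`, and `f * (n - 1)` for `w = z` (`A.eigenFil ρ (conj τ)` has dimension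
`n - 1`: the sum of the two dimensions is `n`, as in `lorentz_of_one` or `St_DimK` of `DWG`), `f ≥ 1`, `n ≥ 3`:
not equal.  `DWC.All.TorG_` gives `D` with non zero trace. -/
def St_Tor : Prop := ∀ (A : AbVar) (K : Type) [Field K] [NumberField K] (n : ℕ)
  (F : UF (pData A) K n) (σ₀ : K →+* ℂ) (d : ℚ) (J : A.H1 → A.H1), 3 ≤ n →
  (∀ τ, Ag F τ (ComplexEmbedding.conjugate σ₀) →
    finrank ℂ (A.eigenFil (fun x v => F.ρ x v) τ) = 1) →
  0 < d → A.IsEnd J → (∀ v, J (J v) = (-(d : ℂ)) • v) →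
  (∀ f, A.IsEnd f → ∀ v, f (J v) = J (f v)) →
  (∀ f, A.IsEnd f → (∀ h, A.IsEnd h → ∀ v, f (h v) = h (f v)) →
    ∃ a b : ℚ, ∀ v, f v = (a : ℂ) • v + (b : ℂ) • J v) →
  ∃ (x : K) (z : ℂ), (∀ τ, (Ag F τ σ₀ ∧ τ x = z) ∨
    (Ag F τ (ComplexEmbedding.conjugate σ₀) ∧ τ x = -z)) ∧
    ∃ D : Derivation ℚ ℂ ℂ,
      LinearMap.trace ℂ (Fin A.g ⊕ Fin A.g → ℂ) ((pData A).N D * F.ρ x) ≠ 0

/-- **FIN** (from `St_Abs`, `St_Fra`, `St_Tor`).  The theorem.  PROOF.  As the end of
`Pool.Agent.Ball.main_ball2` / `BTL/Fin.lean`: `isDivisorial_of_span`,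
`isGrothendieck_of_isDivisorial`. -/
def St_FinT : Prop := ∀ (A : AbVar) (m k : ℕ), A.IsKottwitzRange k →
  ∀ α : Form (fun _ : Unit => A) (fun _ => m) (2 * k),
  IsGrothendieck (fun _ : Unit => A) (fun _ => m) k α ↔
    IsDivisorial (fun _ : Unit => A) (fun _ => m) k α

end KT2
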