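import Pool.Agent.KT2.St
import Pool.Agent.DWC.TorG

/-!
# KT2: [TOR] the torus part for a quadratic centre
-/

set_option autoImplicit false

namespace KT2

open Module Matrix NumberField Pool.Agent.Helper7
open Pool.Agent.GPC (AbVar Form)

/-- the eigenspace in `F^0` as a set -/
theorem Tor_mem {A : AbVar} {K : Type} [Field K] [NumberField K] {n : ℕ} (F : UF (pData A) K n)
    (σ : K →+* ℂ) (v : A.H1) : v ∈ A.eigenFil (fun x v => F.ρ x v) σ ↔
      (∀ x, F.ρ x v = σ x • v) ∧ A.IsFil v := by
  constructor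
  · intro h
    unfold AbVar.eigenFil at h
    induction h using Submodule.span_induction with
    | mem v hv => exact hv
    | zero => exact ⟨fun x => by rw [map_zero, smul_zero], fun _ => rfl⟩
    | add u v _ _ hu hv => exact ⟨fun x => by
        rw [map_add, hu.1, hv.1, smul_add], fun a => by
        rw [Pi.add_apply, hu.2 a, hv.2 a, add_zero]⟩
    | smul c v _ hv => exact ⟨fun x => by
        rw [map_smul, hv.1, smul_comm], fun a => by
        rw [Pi.smul_apply, hv.2 a, smul_zero]⟩
  · intro h
    exact Submodule.subset_span h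

/-- the traces on the two eigenspaces: the core, with the torus part as hypothesis -/
theorem Tor_core (hTorG : DWC.St_TorG) : St_Tor := by
  intro A K _ _ n F σ₀ d J hn hone hd hJE hJ2 hJc hcen
  classical
  -- J is `F.ρ x`
  set J' : Module.End ℂ A.H1 := IsLinearMap.mk' J hJE.linear with hJ'
  have hJ'v : ∀ v, J' v = J v := fun v => rfl
  have hρE : ∀ y, A.IsEnd (F.ρ y) := fun y => isEnd_of_isDRB A _ (F.hρ y)
  obtain ⟨x, hx⟩ := F.hcen J' (isDRB_of_isEnd A J' hJE) (fun y v => (hJc _ (hρE y) v).symm)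
  have hx' : ∀ v, F.ρ x v = J v := fun v => (hx v).symm
  have hxJ : F.ρ x = J' := LinearMap.ext hx'
  have j0 : Fin n := ⟨0, by omega⟩
  have hne : ∀ τ : K →+* ℂ, F.e τ j0 ≠ 0 := fun τ => F.eb.ne_zero _
  have hsq : ∀ τ : K →+* ℂ, τ x * τ x = -(d : ℂ) := by
    intro τ
    have h1 := hJ2 (F.e τ j0)
    rw [← hx', ← hx', F.rho_e, map_smul, F.rho_e, smul_smul, ← sub_eq_zero, ← sub_smul] at h1
    exact sub_eq_zero.mp ((smul_eq_zero.mp h1).resolve_right (hne τ))
  set z : ℂ := σ₀ x with hz
  have hd0 : (d : ℂ) ≠ 0 := by exact_mod_cast hd.ne'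
  have hz0 : z ≠ 0 := by
    intro h
    have := hsq σ₀
    rw [← hz, h, mul_zero] at this
    exact hd0 (neg_eq_zero.mp this.symm)
  have hz2 : z ^ 2 = -(d : ℂ) := by rw [pow_two]; exact hsq σ₀
  have hor : ∀ τ : K →+* ℂ, τ x = z ∨ τ x = -z := by
    intro τ
    have h1 : τ x * τ x = z * z := by rw [hsq, hz, hsq]
    exact mul_self_eq_mul_self_iff.mp h1
  -- complex conjugation
  have hconj : ∀ w : ℂ, w * w = -(d : ℂ) → (starRingEnd ℂ) w = -w := by
    intro w hw
    have h1 : w.re * w.im = 0 := by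
      have := congrArg Complex.im hw
      have h2 : (-(d : ℂ)).im = 0 := by
        rw [Complex.neg_im, Complex.ratCast_im, neg_zero]
      rw [h2, Complex.mul_im] at this
      linarith
    have h3 : w.re * w.re - w.im * w.im = -(d : ℝ) := by
      have := congrArg Complex.re hw
      rw [Complex.mul_re, Complex.neg_re, Complex.ratCast_re] at this
      exact this
    have hdr : (0 : ℝ) < d := by exact_mod_cast hd
    have h4 : w.re = 0 := by
      rcases mul_eq_zero.mp h1 with h | h
      · exact h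
      · rw [h] at h3
        nlinarith [mul_self_nonneg w.re]
    apply Complex.ext
    · rw [Complex.conj_re, Complex.neg_re, h4, neg_zero]
    · rw [Complex.conj_im, Complex.neg_im]
  have hcz : (starRingEnd ℂ) z = -z := hconj z (hsq σ₀)
  -- agreement on the centre
  have hzen : ∀ y, Zen F y → ∃ a b : ℚ, ∀ τ : K →+* ℂ, τ y = a + b * τ x := by
    intro y hy
    obtain ⟨a, b, hab⟩ := hcen (F.ρ y) (hρE y) (fun h hh v => by
      exact (hy (IsLinearMap.mk' h hh.linear) (isDRB_of_isEnd A _ hh) v).symm)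
    refine ⟨a, b, fun τ => ?_⟩
    have h1 := hab (F.e τ j0)
    rw [← hx', F.rho_e, F.rho_e, smul_smul, ← add_smul, ← sub_eq_zero, ← sub_smul] at h1
    exact sub_eq_zero.mp ((smul_eq_zero.mp h1).resolve_right (hne τ))
  have hag1 : ∀ τ : K →+* ℂ, τ x = z → Ag F τ σ₀ := by
    intro τ hτ y hy
    obtain ⟨a, b, hab⟩ := hzen y hy
    rw [hab, hab, hτ, hz]
  have hag2 : ∀ τ : K →+* ℂ, τ x = -z → Ag F τ (ComplexEmbedding.conjugate σ₀) := by
    intro τ hτ y hy
    obtain ⟨a, b, hab⟩ := hzen y hy
    rw [hab τ, hτ, ComplexEmbedding.conjugate_coe_eq, hab σ₀, map_add, map_mul, ← hz, hcz]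
    simp
  -- the Weil structure
  have hccx : F.cc x = -x := by
    apply σ₀.injective
    rw [F.hcc, map_neg]
    exact hcz
  have hadj : ∀ u v, A.pol (J' u) v = - A.pol u (J' v) := by
    intro u v
    have h1 := F.hros x u v
    rw [hccx, map_neg, hxJ, LinearMap.neg_apply, map_neg] at h1
    exact h1
  have hIs : DWC.IsKs A d J' := ⟨hd, hJE, hJ2, hadj⟩
  -- dimensions
  have hT := hTorG A d J' hIs
  have hfin : finrank ℂ (A.filEigen J z) + finrank ℂ (A.filEigen J (-z)) = A.g :=
    AFT.finrank_add hJE hJ2 hz0 hz2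
  have hmemE : ∀ (τ : K →+* ℂ) v, v ∈ A.eigenFil (fun x v => F.ρ x v) τ ↔
      (∀ y, F.ρ y v = τ y • v) ∧ A.IsFil v := fun τ v => Tor_mem F τ v
  have hb : finrank ℂ (A.filEigen J (-z)) ≤
      (Finset.univ.filter (fun τ : K →+* ℂ => τ x = -z)).card := by
    -- the projections
    have hpe : ∀ (τ : K →+* ℂ) (v : A.H1) (y : K),
        F.ρ y (proj F.ρ τ v) = τ y • proj F.ρ τ v := fun τ v y =>
      congrArg (fun f : Module.End ℂ A.H1 => f v) (rho_mul_proj F.ρ y τ)
    have hpm : ∀ (τ : K →+* ℂ) (v : A.H1), A.IsFil v →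
        proj F.ρ τ v ∈ A.eigenFil (fun x v => F.ρ x v) τ := fun τ v hv =>
      (hmemE τ _).mpr ⟨hpe τ v, proj_fil A F.ρ hρE τ hv⟩
    have hfilv : ∀ v ∈ A.filEigen J (-z), A.IsFil v := fun v hv =>
      ((AFT.mem_filEigen hJE.linear _ v).mp hv).2
    let S := {τ : K →+* ℂ // τ x = -z}
    let f : A.filEigen J (-z) →ₗ[ℂ] (∀ τ : S, A.eigenFil (fun x v => F.ρ x v) τ.1) :=
      LinearMap.pi fun τ => LinearMap.codRestrict _
        ((proj F.ρ τ.1).comp (A.filEigen J (-z)).subtype) (fun v => hpm τ.1 v (hfilv v v.2))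
    have hinj : Function.Injective f := by
      rw [← LinearMap.ker_eq_bot, LinearMap.ker_eq_bot']
      intro v hv
      apply Subtype.ext
      have hJv := ((AFT.mem_filEigen hJE.linear _ (v : A.H1)).mp v.2).1
      have h1 : (v : A.H1) = ∑ τ : K →+* ℂ, proj F.ρ τ (v : A.H1) := by
        rw [← LinearMap.sum_apply, sum_proj]; rfl
      rw [h1]
      refine Finset.sum_eq_zero fun τ _ => ?_
      rcases hor τ with h | h
      · -- eigenvalue `z` and `-z`
        have h2 := F.proj_rho τ x (v : A.H1)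
        rw [hx', hJv, map_smul, h, ← sub_eq_zero, ← sub_smul] at h2
        refine (smul_eq_zero.mp h2).resolve_left ?_
        intro h3
        apply hz0
        have h4 : 2 * z = 0 := by linear_combination -h3
        exact (mul_eq_zero.mp h4).resolve_left two_ne_zero
      · have h2 := congrArg (fun w => ((w ⟨τ, h⟩ : A.eigenFil (fun x v => F.ρ x v) τ) : A.H1)) hv
        exact h2
    have hle := LinearMap.finrank_le_finrank_of_injective hinj
    rw [finrank_pi_fintype] at hle
    have hsum : ∑ τ : S, finrank ℂ (A.eigenFil (fun x v => F.ρ x v) τ.1) =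
        (Finset.univ.filter (fun τ : K →+* ℂ => τ x = -z)).card := by
      rw [Finset.sum_congr rfl (fun τ _ => hone τ.1 (hag2 τ.1 τ.2)), Finset.sum_const, smul_eq_mul,
        mul_one, Finset.card_univ, Fintype.card_subtype]
    rwa [hsum] at hle
  -- the number of embeddings
  have hcard : (Finset.univ.filter (fun τ : K →+* ℂ => τ x = z)).card =
      (Finset.univ.filter (fun τ : K →+* ℂ => τ x = -z)).card := by
    refine Finset.card_bij' (fun τ _ => ComplexEmbedding.conjugate τ)
      (fun τ _ => ComplexEmbedding.conjugate τ) ?_ ?_ ?_ ?_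
    · intro τ hτ
      rw [Finset.mem_filter] at hτ ⊢
      exact ⟨Finset.mem_univ _, by rw [ComplexEmbedding.conjugate_coe_eq, hτ.2, hcz]⟩
    · intro τ hτ
      rw [Finset.mem_filter] at hτ ⊢
      exact ⟨Finset.mem_univ _, by
        rw [ComplexEmbedding.conjugate_coe_eq, hτ.2, map_neg, hcz, neg_neg]⟩
    · intro τ _
      exact Pool.Agent.Helper83.Ball.conj_conj' τ
    · intro τ _
      exact Pool.Agent.Helper83.Ball.conj_conj' τ
  have htot : (Finset.univ.filter (fun τ : K →+* ℂ => τ x = z)).card +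
      (Finset.univ.filter (fun τ : K →+* ℂ => τ x = -z)).card = Fintype.card (K →+* ℂ) := by
    rw [← Finset.card_union_of_disjoint, ← Finset.card_univ]
    · congr 1
      ext τ
      simp only [Finset.mem_union, Finset.mem_filter, Finset.mem_univ, true_and, iff_true]
      exact hor τ
    · rw [Finset.disjoint_filter]
      intro τ _ h1 h2
      rw [h1] at h2
      apply hz0
      have h4 : 2 * z = 0 := by linear_combination h2
      exact (mul_eq_zero.mp h4).resolve_left two_ne_zero
  have hpos : 0 < (Finset.univ.filter (fun τ : K →+* ℂ => τ x = z)).card :=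
    Finset.card_pos.mpr ⟨σ₀, by rw [Finset.mem_filter]; exact ⟨Finset.mem_univ _, rfl⟩⟩
  have hdim : Fintype.card (K →+* ℂ) * n = A.g + A.g := by
    have h1 := finrank_eq_card_basis F.eb
    rw [finrank_fintype_fun_eq_card, Fintype.card_sum, Fintype.card_fin, Fintype.card_prod,
      Fintype.card_fin] at h1
    exact h1.symm
  have hneq : finrank ℂ (A.filEigen J z) ≠ finrank ℂ (A.filEigen J (-z)) := by
    intro h
    set c := (Finset.univ.filter (fun τ : K →+* ℂ => τ x = -z)).card with hc
    rw [hcard] at htot hpos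
    rw [← htot] at hdim
    have h1 : 3 * (c + c) ≤ (c + c) * n := by
      rw [mul_comm (c + c) n]
      exact Nat.mul_le_mul_right _ hn
    omega
  have hzd : z = PST.zd d ∨ z = -(PST.zd d) := by
    have h1 : z * z = PST.zd d * PST.zd d := by
      rw [hz, hsq]
      unfold PST.zd
      rw [mul_mul_mul_comm, Complex.I_mul_I, ← Complex.ofReal_mul,
        Real.mul_self_sqrt (by exact_mod_cast hd.le)]
      push_cast
      ring
    exact mul_self_eq_mul_self_iff.mp h1
  refine ⟨x, z, fun τ => ?_, ?_⟩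
  · rcases hor τ with h | h
    · exact Or.inl ⟨hag1 τ h, h⟩
    · exact Or.inr ⟨hag2 τ h, h⟩
  · by_contra hcon
    push Not at hcon
    have h1 : ∀ δ : Derivation ℚ ℂ ℂ,
        LinearMap.trace ℂ A.H1 ((pData A).N δ * J') = 0 := by
      intro δ
      rw [← hxJ]
      exact hcon δ
    have h2 := hT.mp h1
    rcases hzd with h | h
    · apply hneq
      rw [h]
      exact h2
    · apply hneq
      rw [h, neg_neg]
      exact h2.symm

/-- **TOR.** the torus part for a quadratic centre -/
theorem thm_Tor : St_Tor := Tor_core DWC.All.TorG_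

end KT2
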